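import Pool.Agent.ZCS.Disc

/-!
# The powers of a root as an integral basis
-/

namespace Pool.Agent.ZCS

open Module NumberField

section

variable {K : Type*} [Field K] [NumberField K]

/-- The discriminant of the polynomial is `m ^ 2` times the discriminant of the field, and `m`
times an algebraic integer is an integral combination of `1, θ, θ ^ 2`. -/
theorem discr_span {θ : 𝓞 K} (h : LinearIndependent ℚ (fun i : Fin 3 => (θ : K) ^ (i : ℕ)))
    (hd : finrank ℚ K = 3) (a b c : ℤ) (hθ : θ ^ 3 + a * θ ^ 2 + b * θ + c = 0) :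
    ∃ m : ℤ, a ^ 2 * b ^ 2 - 4 * b ^ 3 - 4 * a ^ 3 * c - 27 * c ^ 2 + 18 * a * b * c =
      m ^ 2 * discr K ∧ ∀ x : 𝓞 K, ∃ u v w : ℤ, m * x = u + v * θ + w * θ ^ 2 := by
  classical
  have hθK : (θ : K) ^ 3 + a * (θ : K) ^ 2 + b * θ + c = 0 := by
    have h1 := congrArg (algebraMap (𝓞 K) K) hθ
    simpa using h1
  have hcard : Fintype.card (Free.ChooseBasisIndex ℤ (𝓞 K)) = 3 := by
    rw [← finrank_eq_card_basis (integralBasis K), hd]
  let e : Free.ChooseBasisIndex ℤ (𝓞 K) ≃ Fin 3 :=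
    Fintype.equivOfCardEq (by rw [hcard, Fintype.card_fin])
  let B : Basis (Fin 3) ℤ (𝓞 K) := (RingOfIntegers.basis K).reindex e
  let ω : Basis (Fin 3) ℚ K := (integralBasis K).reindex e
  let v : Fin 3 → K := cb (θ : K) h hd
  let Q : Matrix (Fin 3) (Fin 3) ℤ := fun i j => B.repr (θ ^ (j : ℕ)) i
  have hQ : ω.toMatrix v = Q.map (Int.cast : ℤ → ℚ) := by
    ext i j
    rw [Basis.toMatrix_apply, Matrix.map_apply]
    change ((integralBasis K).reindex e).repr (cb (θ : K) h hd j) i =
      ((((RingOfIntegers.basis K).reindex e).repr (θ ^ (j : ℕ)) i : ℤ) : ℚ)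
    rw [Basis.repr_reindex_apply, cb_apply, Basis.repr_reindex_apply]
    have h1 := integralBasis_repr_apply K (θ ^ (j : ℕ)) (e.symm i)
    have h2 : (algebraMap (𝓞 K) K) (θ ^ (j : ℕ)) = (θ : K) ^ (j : ℕ) := by
      rw [map_pow]
    rw [h2] at h1
    exact h1
  refine ⟨Q.det, ?_, ?_⟩
  · have h3 : Algebra.discr ℚ v = (ω.toMatrix v).det ^ 2 * Algebra.discr ℚ ω := by
      have h4 := Algebra.discr_of_matrix_vecMul (A := ℚ) ω (ω.toMatrix v)
      rwa [Basis.toMatrix_map_vecMul] at h4
    have h4 : Algebra.discr ℚ ω = (discr K : ℚ) := by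
      rw [coe_discr]
      change Algebra.discr ℚ ((integralBasis K).reindex e) = _
      rw [Basis.coe_reindex, Algebra.discr_reindex]
    have h5 : (ω.toMatrix v).det = (Q.det : ℚ) := by
      rw [hQ]
      exact (RingHom.map_det (Int.castRingHom ℚ) Q).symm
    have h6 := discr_cb (θ : K) h hd a b c (by
      rw [map_intCast, map_intCast, map_intCast]
      linear_combination hθK)
    rw [h4, h5] at h3
    change Algebra.discr ℚ (cb (θ : K) h hd) = _ at h3
    rw [h6] at h3
    exact_mod_cast h3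
  · intro x
    have hpow : ∀ j : Fin 3, θ ^ (j : ℕ) = ∑ i, Q i j • B i := fun j =>
      (B.sum_repr (θ ^ (j : ℕ))).symm
    have hB : ∀ k : Fin 3, Q.det • B k = ∑ j, Q.adjugate j k • θ ^ (j : ℕ) := by
      intro k
      calc Q.det • B k = ∑ i, (Q * Q.adjugate) i k • B i := by
            rw [Matrix.mul_adjugate, Fin.sum_univ_three]
            fin_cases k <;> simp
        _ = ∑ i, ∑ j, (Q i j * Q.adjugate j k) • B i := by
            refine Finset.sum_congr rfl fun i _ => ?_
            rw [Matrix.mul_apply, Finset.sum_smul]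
        _ = ∑ j, ∑ i, (Q i j * Q.adjugate j k) • B i := Finset.sum_comm
        _ = _ := by
            refine Finset.sum_congr rfl fun j _ => ?_
            rw [hpow j, Finset.smul_sum]
            refine Finset.sum_congr rfl fun i _ => ?_
            rw [smul_smul, mul_comm]
    have hx : (Q.det : 𝓞 K) * x = ∑ j : Fin 3, (∑ k, B.repr x k * Q.adjugate j k) •
        θ ^ (j : ℕ) := by
      calc (Q.det : 𝓞 K) * x = Q.det • ∑ k, B.repr x k • B k := by
            rw [B.sum_repr, zsmul_eq_mul]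
        _ = ∑ k, B.repr x k • (Q.det • B k) := by
            rw [Finset.smul_sum]
            refine Finset.sum_congr rfl fun k _ => ?_
            rw [smul_smul, smul_smul, mul_comm]
        _ = ∑ k, ∑ j : Fin 3, (B.repr x k * Q.adjugate j k) • θ ^ (j : ℕ) := by
            refine Finset.sum_congr rfl fun k _ => ?_
            rw [hB, Finset.smul_sum]
            refine Finset.sum_congr rfl fun j _ => ?_
            rw [smul_smul]
        _ = ∑ j : Fin 3, ∑ k, (B.repr x k * Q.adjugate j k) • θ ^ (j : ℕ) := Finset.sum_comm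
        _ = _ := by
            refine Finset.sum_congr rfl fun j _ => ?_
            rw [Finset.sum_smul]
    refine ⟨∑ k, B.repr x k * Q.adjugate 0 k, ∑ k, B.repr x k * Q.adjugate 1 k,
      ∑ k, B.repr x k * Q.adjugate 2 k, ?_⟩
    rw [hx, Fin.sum_univ_three]
    simp only [zsmul_eq_mul]
    have q0 : θ ^ ((0 : Fin 3) : ℕ) = 1 := by simp
    have q1 : θ ^ ((1 : Fin 3) : ℕ) = θ := by simp
    have q2 : θ ^ ((2 : Fin 3) : ℕ) = θ ^ 2 := rfl
    rw [q0, q1, q2, mul_one]

/-- If the only square divisor of the discriminant which is compatible with Minkowski's theorem is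
one, then `1, θ, θ ^ 2` generate the ring of integers. -/
theorem span_of_disc {θ : 𝓞 K} (h : LinearIndependent ℚ (fun i : Fin 3 => (θ : K) ^ (i : ℕ)))
    (hd : finrank ℚ K = 3) (a b c : ℤ) (hθ : θ ^ 3 + a * θ ^ 2 + b * θ + c = 0)
    (hD : ∀ m d : ℤ, a ^ 2 * b ^ 2 - 4 * b ^ 3 - 4 * a ^ 3 * c - 27 * c ^ 2 + 18 * a * b * c =
      m ^ 2 * d → 2 < |d| → IsUnit m) (x : 𝓞 K) :
    ∃ u v w : ℤ, x = u + v * θ + w * θ ^ 2 := by
  obtain ⟨m, hm, hs⟩ := discr_span h hd a b c hθ
  obtain ⟨u, v, w, hx⟩ := hs x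
  have h2 : 2 < |discr K| := abs_discr_gt_two (by rw [hd]; norm_num)
  have h1 := hD m _ hm h2
  rcases Int.isUnit_iff.1 h1 with rfl | rfl
  · refine ⟨u, v, w, ?_⟩
    rw [← hx]
    push_cast
    ring
  · refine ⟨-u, -v, -w, ?_⟩
    push_cast at hx ⊢
    linear_combination -hx

end

end Pool.Agent.ZCS
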