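import Pool.Agent.ZCS.Disc

/-!
# The cubic field of discriminant -23
-/

namespace Pool.Agent.ZCS

open Module NumberField NumberField.InfinitePlace Polynomial

section

variable {K : Type*} [Field K] [NumberField K]

/-- A cubic field with a root of a polynomial whose discriminant is negative and larger than
`-50` has class number one. -/
theorem class_one {θ : K} (h : LinearIndependent ℚ (fun i : Fin 3 => θ ^ (i : ℕ)))
    (hd : finrank ℚ K = 3) (a b c : ℤ) (hθ : θ ^ 3 + a * θ ^ 2 + b * θ + c = 0)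
    (hD : a ^ 2 * b ^ 2 - 4 * b ^ 3 - 4 * a ^ 3 * c - 27 * c ^ 2 + 18 * a * b * c < 0)
    (hD' : -49 ≤ a ^ 2 * b ^ 2 - 4 * b ^ 3 - 4 * a ^ 3 * c - 27 * c ^ 2 + 18 * a * b * c) :
    classNumber K = 1 := by
  obtain ⟨m, hm⟩ := discr_dvd h hd a b c hθ
  rw [hm] at hD hD'
  have hm0 : m ≠ 0 := by
    rintro rfl
    norm_num at hD
  have hm1 : 1 ≤ m ^ 2 := by
    have := sq_pos_of_ne_zero hm0
    omega
  have hneg : discr K < 0 := by
    by_contra hcon
    push Not at hcon
    have := mul_nonneg (sq_nonneg m) hcon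
    omega
  have hge : -49 ≤ discr K := by nlinarith
  have hc : nrComplexPlaces K = 1 := by
    have h1 := sign_discr K
    rw [Int.sign_eq_neg_one_of_neg hneg] at h1
    have h2 := card_add_two_mul_card_eq_rank K
    rw [hd] at h2
    have h3 : nrComplexPlaces K ≠ 0 := by
      intro h4
      rw [h4] at h1
      norm_num at h1
    change nrRealPlaces K + 2 * nrComplexPlaces K = 3 at h2
    omega
  rw [classNumber_eq_one_iff]
  refine RingOfIntegers.isPrincipalIdealRing_of_abs_discr_lt ?_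
  rw [hc, hd]
  have h5 : |(discr K : ℝ)| ≤ 49 := by
    rw [abs_of_neg (by exact_mod_cast hneg)]
    have : (-49 : ℝ) ≤ discr K := by exact_mod_cast hge
    linarith
  have h6 : (3 : ℝ) < Real.pi := Real.pi_gt_three
  have h7 : (3.14 : ℝ) < Real.pi := Real.pi_gt_d2
  push_cast
  have h8 : ((3 : ℕ).factorial : ℝ) = 6 := by norm_num [Nat.factorial]
  rw [h8]
  nlinarith [h5, h7]

end

/-- `X ^ 3 - X + 1`. -/
noncomputable def P23 : ℚ[X] := X ^ 3 - X + 1

/-- No rational zero. -/
theorem no_zero23 (x : ℚ) : x ^ 3 - x + 1 ≠ 0 := by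
  intro h
  have h1 : (x.num : ℤ) ^ 3 - x.num * x.den ^ 2 + x.den ^ 3 = 0 := by
    have h2 : (x.den : ℚ) ≠ 0 := by exact_mod_cast x.den_nz
    have h3 : x = x.num / x.den := (Rat.num_div_den x).symm
    rw [h3] at h
    field_simp at h
    have h4 : ((x.num : ℤ) : ℚ) ^ 3 - x.num * (x.den : ℚ) ^ 2 + (x.den : ℚ) ^ 3 = 0 := by
      linear_combination h
    exact_mod_cast h4
  have h5 : ¬ (2 ∣ x.num ∧ (2 : ℤ) ∣ (x.den : ℤ)) := by
    rintro ⟨u, v⟩
    have h6 := x.reduced
    have h7 : 2 ∣ x.num.natAbs := Int.natAbs_dvd_natAbs.2 u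
    have h8 : 2 ∣ x.den := by exact_mod_cast v
    have h9 := Nat.dvd_gcd h7 h8
    rw [Nat.Coprime] at h6
    rw [h6] at h9
    omega
  apply h5
  have key : ∀ u v : ZMod 2, u ^ 3 - u * v ^ 2 + v ^ 3 = 0 → u = 0 ∧ v = 0 := by decide
  have h6 := congrArg (Int.cast : ℤ → ZMod 2) h1
  push_cast at h6
  have h7 := key _ _ h6
  exact ⟨(ZMod.intCast_zmod_eq_zero_iff_dvd _ 2).1 h7.1,
    (ZMod.intCast_zmod_eq_zero_iff_dvd (x.den : ℤ) 2).1 (by simpa using h7.2)⟩

theorem natDegree23 : P23.natDegree = 3 := by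
  unfold P23
  compute_degree!

theorem monic23 : P23.Monic := by
  unfold P23
  monicity!

theorem irr23 : Irreducible P23 := by
  refine irreducible_of_degree_le_three_of_not_isRoot ?_ ?_
  · rw [natDegree23]
    simp
  · intro x hx
    apply no_zero23 x
    rw [IsRoot.def] at hx
    simpa [P23] using hx

instance fact23 : Fact (Irreducible P23) := ⟨irr23⟩

/-- The cubic field of discriminant `-23`. -/
abbrev K23 : Type := AdjoinRoot P23

theorem finrank23 : finrank ℚ K23 = 3 := by
  rw [(AdjoinRoot.powerBasis irr23.ne_zero).finrank, AdjoinRoot.powerBasis_dim, natDegree23]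

instance nf23 : NumberField K23 where
  to_charZero := charZero_of_injective_algebraMap (algebraMap ℚ K23).injective
  to_finiteDimensional := Module.finite_of_finrank_pos (by rw [finrank23]; norm_num)

/-- The root. -/
noncomputable def t23 : K23 := AdjoinRoot.root P23

theorem root23 : t23 ^ 3 + ((0 : ℤ) : K23) * t23 ^ 2 + ((-1 : ℤ) : K23) * t23 +
    ((1 : ℤ) : K23) = 0 := by
  have h : eval₂ (AdjoinRoot.of P23) (AdjoinRoot.root P23) (X ^ 3 - X + 1) = 0 :=
    AdjoinRoot.eval₂_root P23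
  simp only [eval₂_add, eval₂_sub, eval₂_pow, eval₂_X, eval₂_one] at h
  unfold t23
  push_cast
  linear_combination h

theorem li23 : LinearIndependent ℚ (fun i : Fin 3 => t23 ^ (i : ℕ)) := by
  have h := (AdjoinRoot.powerBasis irr23.ne_zero).basis.linearIndependent
  rw [(AdjoinRoot.powerBasis irr23.ne_zero).coe_basis, AdjoinRoot.powerBasis_gen] at h
  have hd : (AdjoinRoot.powerBasis irr23.ne_zero).dim = 3 := by
    rw [AdjoinRoot.powerBasis_dim, natDegree23]
  exact h.comp (finCongr hd.symm) (finCongr hd.symm).injective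

theorem class23 : classNumber K23 = 1 :=
  class_one li23 finrank23 0 (-1) 1 root23 (by norm_num) (by norm_num)

end Pool.Agent.ZCS
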