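import Pool.Agent.ZCS.Good
import Pool.Agent.ZCS.Basis
import Pool.Agent.ZCS.Ex23
import Pool.Agent.ZCQS.Units7

/-!
# Examples for the general theorem on silent primes

`good_of_odd`, `good_of_disc`: squarefree negative discriminants; `good23`, `good7`: the polynomials `x³ - x + 1` and
`x³ + x² - 2 x - 1`.
-/

set_option autoImplicit false

noncomputable section

namespace Pool.Agent.ZCS

open Module NumberField Polynomial

variable {a b c : ℤ}

/-- The powers of a zero are linearly independent. -/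
theorem li_of {K : Type} [Field K] [NumberField K] {θ : K} (h3 : finrank ℚ K = 3)
    (hroot : θ ^ 3 + a * θ ^ 2 + b * θ + c = 0)
    (hirr : ∀ x : ℚ, x ^ 3 + a * x ^ 2 + b * x + c ≠ 0) :
    LinearIndependent ℚ (fun i : Fin 3 => θ ^ (i : ℕ)) := by
  have h := cub_of h3 hroot hirr
  rw [Fintype.linearIndependent_iff]
  intro g hg
  rw [Fin.sum_univ_three] at hg
  simp only [Algebra.smul_def, eq_ratCast] at hg
  have h1 := h.li (g 0) (g 1) (g 2) (by
    have q0 : θ ^ ((0 : Fin 3) : ℕ) = 1 := by simp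
    have q1 : θ ^ ((1 : Fin 3) : ℕ) = θ := by simp
    have q2 : θ ^ ((2 : Fin 3) : ℕ) = θ ^ 2 := rfl
    rw [q0, q1, q2, mul_one] at hg
    exact hg)
  intro i
  fin_cases i
  · exact h1.1
  · exact h1.2.1
  · exact h1.2.2

/-- A zero is an algebraic integer. -/
theorem int_of {K : Type} [Field K] [NumberField K] {θ : K}
    (hroot : θ ^ 3 + a * θ ^ 2 + b * θ + c = 0) :
    ∃ T : 𝓞 K, (T : K) = θ ∧ T ^ 3 + a * T ^ 2 + b * T + c = 0 := by
  have hint : IsIntegral ℤ θ := by
    refine ⟨Polynomial.X ^ 3 + (Polynomial.C a * Polynomial.X ^ 2 + Polynomial.C b * Polynomial.X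
      + Polynomial.C c), ?_, ?_⟩
    · monicity!
    · simp only [Polynomial.eval₂_add, Polynomial.eval₂_pow, Polynomial.eval₂_X,
        Polynomial.eval₂_mul, Polynomial.eval₂_C, algebraMap_int_eq, Int.coe_castRingHom]
      rw [← hroot]
      ring
  refine ⟨⟨θ, hint⟩, rfl, ?_⟩
  apply RingOfIntegers.ext
  simp only [map_add, map_mul, map_pow, map_intCast, map_zero]
  exact hroot

/-- Squarefree negative discriminant and odd class number suffice. -/
theorem good_of_odd (h : OddCubic a b c) (hsq : Squarefree (dsc a b c)) (h0 : dsc a b c < 0) :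
    Good a b c := by
  obtain ⟨hirr, K, iF, iN, h3, ⟨θ, hroot⟩, hodd⟩ := h
  obtain ⟨T, hT, hTr⟩ := int_of hroot
  refine ⟨hirr, K, iF, iN, T, h3, hTr, ?_, hodd, fun h1 => absurd h1 (not_lt.2 h0.le)⟩
  refine span_of_disc (by rw [hT]; exact li_of h3 hroot hirr) h3 a b c hTr fun m d e _ => ?_
  exact hsq m ⟨d, by rw [← pow_two]; exact e⟩

/-- Squarefree negative discriminants of absolute value at most `49`. -/
theorem good_of_disc (hirr : ∀ x : ℚ, x ^ 3 + a * x ^ 2 + b * x + c ≠ 0)
    (hsq : Squarefree (dsc a b c)) (h0 : dsc a b c < 0) (h1 : -49 ≤ dsc a b c) :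
    Good a b c := by
  set P : ℚ[X] := X ^ 3 + C (a : ℚ) * X ^ 2 + C (b : ℚ) * X + C (c : ℚ) with hP
  have hdeg : P.natDegree = 3 := by
    rw [hP]
    compute_degree!
  have hirrP : Irreducible P := by
    refine irreducible_of_degree_le_three_of_not_isRoot ?_ ?_
    · rw [hdeg]
      simp
    · intro x hx
      apply hirr x
      rw [IsRoot.def] at hx
      simpa [hP] using hx
  have : Fact (Irreducible P) := ⟨hirrP⟩
  have hfin : finrank ℚ (AdjoinRoot P) = 3 := by
    rw [(AdjoinRoot.powerBasis hirrP.ne_zero).finrank, AdjoinRoot.powerBasis_dim, hdeg]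
  have : CharZero (AdjoinRoot P) :=
    charZero_of_injective_algebraMap (algebraMap ℚ (AdjoinRoot P)).injective
  have : FiniteDimensional ℚ (AdjoinRoot P) :=
    Module.finite_of_finrank_pos (by rw [hfin]; norm_num)
  have : NumberField (AdjoinRoot P) := ⟨⟩
  have hroot : (AdjoinRoot.root P) ^ 3 + ((a : ℤ) : AdjoinRoot P) * (AdjoinRoot.root P) ^ 2 +
      ((b : ℤ) : AdjoinRoot P) * AdjoinRoot.root P + ((c : ℤ) : AdjoinRoot P) = 0 := by
    have h : eval₂ (AdjoinRoot.of P) (AdjoinRoot.root P)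
        (X ^ 3 + C (a : ℚ) * X ^ 2 + C (b : ℚ) * X + C (c : ℚ)) = 0 := AdjoinRoot.eval₂_root P
    simp only [eval₂_add, eval₂_mul, eval₂_pow, eval₂_X, eval₂_C] at h
    simp only [map_intCast] at h
    exact h
  have hcl : classNumber (AdjoinRoot P) = 1 :=
    class_one (li_of hfin hroot hirr) hfin a b c hroot h0 h1
  refine good_of_odd ⟨hirr, AdjoinRoot P, inferInstance, inferInstance, hfin, ⟨_, hroot⟩, ?_⟩
    hsq h0
  rw [hcl]
  exact odd_one

theorem good23 : Good 0 (-1) 1 := by
  have h : dsc 0 (-1) 1 = -23 := by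
    unfold dsc
    norm_num
  refine good_of_disc (fun x hx => no_zero23 x ?_) ?_ (by rw [h]; norm_num) (by rw [h]; norm_num)
  · push_cast at hx
    linear_combination hx
  · rw [h]
    have h23 : Prime (23 : ℤ) := by norm_num
    exact h23.neg.squarefree

open Pool.Agent.ZCQS in
theorem good7 : Good 1 (-2) (-1) := by
  have hirr : ∀ x : ℚ, x ^ 3 + ((1 : ℤ) : ℚ) * x ^ 2 + ((-2 : ℤ) : ℚ) * x + ((-1 : ℤ) : ℚ) ≠ 0 := by
    intro x hx
    have h1 : f7.IsRoot x := by
      rw [IsRoot.def]
      simp only [f7, eval_sub, eval_add, eval_pow, eval_X, eval_mul, eval_one, eval_ofNat]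
      push_cast at hx
      linear_combination hx
    have h2 := degree_eq_one_of_irreducible_of_root f7_irreducible h1
    rw [degree_eq_natDegree f7_irreducible.ne_zero, f7_natDegree] at h2
    norm_num at h2
  have hroot : T7 ^ 3 + ((1 : ℤ) : 𝓞 K7) * T7 ^ 2 + ((-2 : ℤ) : 𝓞 K7) * T7 +
      ((-1 : ℤ) : 𝓞 K7) = 0 := by
    push_cast
    linear_combination T7_eq
  have hrootK : t7 ^ 3 + ((1 : ℤ) : K7) * t7 ^ 2 + ((-2 : ℤ) : K7) * t7 +
      ((-1 : ℤ) : K7) = 0 := by
    push_cast
    linear_combination t7_eq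
  refine ⟨hirr, K7, inferInstance, inferInstance, T7, finrank_K7, hroot, ?_, ?_, ?_⟩
  · refine span_of_disc (by rw [coe_T7]; exact li_of finrank_K7 hrootK hirr) finrank_K7 _ _ _
      hroot fun m d e h2 => ?_
    norm_num at e
    have hm : m ∣ 7 := by
      have h3 : m ^ 2 ∣ 7 ^ 2 := ⟨d, by rw [← e]; norm_num⟩
      exact (Int.pow_dvd_pow_iff two_ne_zero).1 h3
    have h7 : Prime (7 : ℤ) := by norm_num
    rcases (Int.prime_iff_natAbs_prime.1 h7) with h8
    have h9 : m.natAbs ∣ 7 := by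
      have := Int.natAbs_dvd_natAbs.2 hm
      simpa using this
    rcases (Nat.dvd_prime (by norm_num)).1 h9 with h10 | h10
    · exact Int.isUnit_iff_natAbs_eq.2 h10
    · exfalso
      have h11 : m ^ 2 = 49 := by
        rw [← Int.natAbs_pow_two, h10]
        norm_num
      rw [h11] at e
      have h12 : d = 1 := by omega
      rw [h12] at h2
      norm_num at h2
  · have h1 : classNumber K7 = 1 := classNumber_eq_one_iff.2 pid7
    rw [h1]
    exact odd_one
  · intro _ u hu
    obtain ⟨v, hv⟩ := sq_of_pos u fun i => hu (em i)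
    exact ⟨v, by rw [hv, pow_two]⟩

end Pool.Agent.ZCS
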