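import Pool.Agent.ZCS.Transfer
import Pool.Agent.ZCQL.Tower

/-!
# Powers of a curve and points over different quadratic fields

`main_twN`: let `D` be a set of nonzero rational numbers closed under products such that the quadratic twists of `E` by the
elements of `D` have rank at most one over `ℚ`. Then all zero-cycles over `ℚ` of degree zero and sum zero on `E ^ N` are
torsion if every point of the support has its coordinates in some field `ℚ(√d)`, `d ∈ D`.
-/

set_option autoImplicit false

noncomputable section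

namespace Pool.Agent.ZCS

open WeierstrassCurve Pool.Agent.ZC Pool.Agent.ZCQ Pool.Agent.ZCQK Pool.Agent.ZCQL
open scoped Classical

variable {a b c : ℚ}

theorem main_twN {E₀ : WeierstrassCurve ℚ} (hE₀ : E₀ = ⟨0, a, 0, b, c⟩) (hE : E₀.IsElliptic)
    {L : IntermediateField ℚ (AlgebraicClosure ℚ)} (hL : L = ⊥) (D : Set ℚ)
    (h1D : (1 : ℚ) ∈ D) (hD0 : ∀ d ∈ D, d ≠ 0) (hDm : ∀ d ∈ D, ∀ d' ∈ D, d * d' ∈ D)
    (hdep : ∀ d ∈ D, ∀ P Q : (twc a b c d).toAffine.Point,
      ∃ m n : ℤ, (m ≠ 0 ∨ n ≠ 0) ∧ m • P = n • Q) (N : ℕ)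
    (z : Z0N fun _ : Fin N => (E₀⁄L)⁄(AlgebraicClosure ℚ))
    (hz : ∀ σ : AlgebraicClosure ℚ ≃ₐ[L] AlgebraicClosure ℚ,
      z.mapDomain (fun p i => galL (E₀⁄L) σ (p i)) = z)
    (hdeg : z.sum (fun _ n => n) = 0) (hsum : ∀ i, z.sum (fun p n => n • p i) = 0)
    (hsupp : ∀ p ∈ z.support, ∃ s : AlgebraicClosure ℚ,
      (∃ d ∈ D, s ^ 2 = algebraMap ℚ (AlgebraicClosure ℚ) d) ∧
      ∀ i x y h, p i = Affine.Point.some x y h →
        x ∈ IntermediateField.adjoin L {s} ∧ y ∈ IntermediateField.adjoin L {s}) :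
    ∃ M : ℕ, 0 < M ∧ M • z ∈ RatEqN fun _ : Fin N => (E₀⁄L)⁄(AlgebraicClosure ℚ) := by
  set f := algebraMap ℚ (AlgebraicClosure ℚ) with hf
  have hfL : ∀ r : ℚ, f r = algebraMap L (AlgebraicClosure ℚ) (algebraMap ℚ L r) := fun r =>
    IsScalarTower.algebraMap_apply ℚ L (AlgebraicClosure ℚ) r
  have hτ : ∀ (τ : AlgebraicClosure ℚ ≃ₐ[L] AlgebraicClosure ℚ) (r : ℚ), τ (f r) = f r := by
    intro τ r
    rw [hfL]
    exact τ.commutes _
  set S : Set (AlgebraicClosure ℚ) := {s | ∃ d ∈ D, s ^ 2 = f d} with hS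
  -- dependent points
  have key : ∀ K : IntermediateField L (AlgebraicClosure ℚ), K ≤ IntermediateField.adjoin L S →
      ∀ P Q : ((E₀⁄L)⁄K).toAffine.Point,
      (∀ σ : AlgebraicClosure ℚ ≃ₐ[L] AlgebraicClosure ℚ,
        (galL (E₀⁄L) σ (toQbar K _ P) = toQbar K _ P ∧
          galL (E₀⁄L) σ (toQbar K _ Q) = toQbar K _ Q) ∨
        (galL (E₀⁄L) σ (toQbar K _ P) = -toQbar K _ P ∧
          galL (E₀⁄L) σ (toQbar K _ Q) = -toQbar K _ Q)) →
      ∃ m n : ℤ, (m ≠ 0 ∨ n ≠ 0) ∧ m • P = n • Q := by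
    intro K hK P Q h
    obtain ⟨m, n, hmn, e⟩ := tw_sign hE₀ hE hL D h1D hD0 hDm hdep rfl (toQbar K _ P)
      (toQbar K _ Q)
      (fun x y hxy e => by
        have h1 := (range_iff' K (E₀⁄L) _).1 ⟨P, rfl⟩ x y hxy e
        exact ⟨hK h1.1, hK h1.2⟩)
      (fun x y hxy e => by
        have h1 := (range_iff' K (E₀⁄L) _).1 ⟨Q, rfl⟩ x y hxy e
        exact ⟨hK h1.1, hK h1.2⟩) h
    refine ⟨m, n, hmn, ?_⟩
    have hιi : Function.Injective (toQbar K (E₀⁄L)) := Affine.Point.map_injective _
    apply hιi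
    rw [map_zsmul, map_zsmul, e]
  refine main_tower L N (E₀⁄L) (inferInstanceAs (E₀.map (algebraMap ℚ L)).IsElliptic) z hz
    hdeg hsum fun p hp => ?_
  obtain ⟨s, ⟨d, hd, hs⟩, hcoord⟩ := hsupp p hp
  have hint : IsIntegral L s := by
    refine ⟨Polynomial.X ^ 2 - Polynomial.C (algebraMap ℚ L d),
      Polynomial.monic_X_pow_sub_C _ two_ne_zero, ?_⟩
    simp [hs]
  set K₁ : IntermediateField L (AlgebraicClosure ℚ) := IntermediateField.adjoin L {s} with hK₁
  have hfin₁ : FiniteDimensional L K₁ := IntermediateField.adjoin.finiteDimensional hint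
  set K : ℕ → IntermediateField L (AlgebraicClosure ℚ) := fun m => if m = 0 then ⊥ else K₁
    with hK
  have hK0 : K 0 = ⊥ := rfl
  have hK1 : ∀ m, K (m + 1) = K₁ := fun m => rfl
  have hfin : ∀ m, FiniteDimensional L (K m) := by
    intro m
    rcases m with _ | m
    · exact inferInstanceAs (FiniteDimensional L (⊥ : IntermediateField L (AlgebraicClosure ℚ)))
    · exact hfin₁
  have hmono : Monotone K := by
    refine monotone_nat_of_le_succ fun m => ?_
    rcases m with _ | m
    · exact bot_le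
    · exact le_rfl
  have hle : K₁ ≤ IntermediateField.adjoin L S := by
    refine IntermediateField.adjoin.mono _ _ _ ?_
    rintro _ rfl
    exact ⟨d, hd, hs⟩
  refine ⟨K, 1, hfin, hmono, hcoord, fun P Q => Or.inl (key _ bot_le P Q fun σ => Or.inl ?_),
    fun m hm P Q hP hQ => Or.inl ?_⟩
  · constructor
    · refine (range_iff _ (E₀⁄L) _).1 ⟨P, rfl⟩ σ fun x hx => ?_
      obtain ⟨l, rfl⟩ := IntermediateField.mem_bot.1 hx
      exact σ.commutes l
    · refine (range_iff _ (E₀⁄L) _).1 ⟨Q, rfl⟩ σ fun x hx => ?_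
      obtain ⟨l, rfl⟩ := IntermediateField.mem_bot.1 hx
      exact σ.commutes l
  · obtain rfl : m = 0 := by omega
    refine key _ hle P Q fun σ => ?_
    have hsq : ∀ t : AlgebraicClosure ℚ, t ^ 2 = f d → t = s ∨ t = -s := fun t ht =>
      sq_eq_sq_iff_eq_or_eq_neg.1 (ht.trans hs.symm)
    have hσs : σ s = s ∨ σ s = -s := hsq _ (by rw [← map_pow, hs, hτ])
    have hsK : s ∈ K₁ := IntermediateField.subset_adjoin L _ (Set.mem_singleton s)
    rcases hσs with hσs | hσs
    · -- the automorphism is trivial on `K₁`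
      left
      have h1 : K₁ ≤ IntermediateField.fixedField (Subgroup.zpowers σ) := by
        rw [hK₁, IntermediateField.adjoin_le_iff]
        rintro _ rfl
        rw [SetLike.mem_coe, IntermediateField.mem_fixedField_iff]
        intro τ hτm
        exact (Subgroup.zpowers_le.2 (show σ ∈ MulAction.stabilizer
          (AlgebraicClosure ℚ ≃ₐ[L] AlgebraicClosure ℚ) _ from hσs)) hτm
      have h2 : ∀ x ∈ K₁, σ x = x := fun x hx =>
        (IntermediateField.mem_fixedField_iff _ _).1 (h1 hx) σ (Subgroup.mem_zpowers _)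
      exact ⟨(range_iff K₁ (E₀⁄L) _).1 ⟨P, rfl⟩ σ h2, (range_iff K₁ (E₀⁄L) _).1 ⟨Q, rfl⟩ σ h2⟩
    · -- the automorphism is the conjugation on `K₁`
      right
      have hs0 : s ≠ 0 := by
        rintro rfl
        apply hD0 d hd
        apply f.injective
        rw [← hs, map_zero]
        ring
      have hne : K₁.val ≠ σ.toAlgHom.comp K₁.val := by
        intro h
        have h2 : s = σ s := DFunLike.congr_fun h (⟨s, hsK⟩ : K₁)
        rw [hσs] at h2
        exact hs0 (self_eq_neg.1 h2)
      have hemb : embK (K 0) (K (0 + 1)) = {K₁.val, σ.toAlgHom.comp K₁.val} := by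
        ext τ
        rw [embK, Finset.mem_filter, Finset.mem_insert, Finset.mem_singleton]
        constructor
        · intro _
          have h1 : (τ (⟨s, hsK⟩ : K₁)) ^ 2 = f d := by
            rw [← map_pow]
            have h2 : (⟨s, hsK⟩ : K₁) ^ 2 = algebraMap L K₁ (algebraMap ℚ L d) := by
              apply Subtype.ext
              change s ^ 2 = _
              rw [hs, hfL]
              rfl
            rw [h2]
            exact (τ.commutes _).trans (hfL d).symm
          rcases hsq _ h1 with h1 | h1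
          · left
            refine IntermediateField.algHom_ext_of_eq_adjoin _ hK₁ ?_
            rintro _ rfl
            exact h1
          · right
            refine IntermediateField.algHom_ext_of_eq_adjoin _ hK₁ ?_
            rintro _ rfl
            exact h1.trans hσs.symm
        · intro _
          refine ⟨Finset.mem_univ _, fun x hx => ?_⟩
          obtain ⟨l, hl⟩ := IntermediateField.mem_bot.1 hx
          have h1 : x = algebraMap L K₁ l := Subtype.ext hl.symm
          rw [h1]
          exact τ.commutes l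
      have hneg : ∀ R : ((E₀⁄L)⁄K₁).toAffine.Point, trK (K 0) (K (0 + 1)) (E₀⁄L) R = 0 →
          galL (E₀⁄L) σ (toQbar K₁ _ R) = -toQbar K₁ _ R := by
        intro R hR
        have h4 : trK (K 0) (K (0 + 1)) (E₀⁄L) R =
            Affine.Point.map (W' := (E₀⁄L).toAffine) K₁.val R +
              Affine.Point.map (W' := (E₀⁄L).toAffine) (σ.toAlgHom.comp K₁.val) R := by
          rw [trK_apply, hemb]
          exact Finset.sum_pair hne
        rw [h4] at hR
        have h3 : galL (E₀⁄L) σ (toQbar K₁ _ R) =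
            Affine.Point.map (W' := (E₀⁄L).toAffine) (σ.toAlgHom.comp K₁.val) R := by
          rcases R with _ | ⟨x, y, hxy⟩
          · rfl
          · rfl
        rw [h3]
        exact eq_neg_of_add_eq_zero_right hR
      exact ⟨hneg P hP, hneg Q hQ⟩

end Pool.Agent.ZCS
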