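import Pool.Agent.ZCS.Good
import Pool.Agent.ZCS.TwN

/-!
# Powers of a curve and silent primes

`main_goodN`: zero-cycles over `ℚ` of degree zero and sum zero on `E ^ N`, every point of the support of which has its
coordinates in some quadratic field `ℚ(√d)`, where `d` is a product of silent primes.
-/

set_option autoImplicit false

noncomputable section

namespace Pool.Agent.ZCS

open WeierstrassCurve NumberField Pool.Agent.ZC Pool.Agent.ZCQ Pool.Agent.ZCQK Pool.Agent.ZCQL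
open scoped Classical

variable {a b c : ℤ}

theorem main_goodN (hg : Good a b c) {E₀ : WeierstrassCurve ℚ} (hE₀ : E₀ = ⟨0, a, 0, b, c⟩)
    {L : IntermediateField ℚ (AlgebraicClosure ℚ)} (hL : L = ⊥) (N : ℕ)
    (z : Z0N fun _ : Fin N => (E₀⁄L)⁄(AlgebraicClosure ℚ))
    (hz : ∀ σ : AlgebraicClosure ℚ ≃ₐ[L] AlgebraicClosure ℚ,
      z.mapDomain (fun p i => galL (E₀⁄L) σ (p i)) = z)
    (hdeg : z.sum (fun _ n => n) = 0) (hsum : ∀ i, z.sum (fun p n => n • p i) = 0)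
    (hsupp : ∀ p ∈ z.support, ∃ (s : AlgebraicClosure ℚ) (d : ℤ), d ≠ 0 ∧ Silent a b c d ∧
      s ^ 2 = d ∧ ∀ i x y h, p i = Affine.Point.some x y h →
        x ∈ IntermediateField.adjoin L {s} ∧ y ∈ IntermediateField.adjoin L {s}) :
    ∃ M : ℕ, 0 < M ∧ M • z ∈ RatEqN fun _ : Fin N => (E₀⁄L)⁄(AlgebraicClosure ℚ) := by
  have hell : E₀.IsElliptic := by
    rw [hE₀]
    exact ⟨isUnit_iff_ne_zero.2 (disc_ne hg.dsc_ne)⟩
  refine main_twN hE₀ hell hL {q : ℚ | ∃ d : ℤ, q = d ∧ d ≠ 0 ∧ Silent a b c d} ?_ ?_ ?_ ?_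
    N z hz hdeg hsum fun p hp => ?_
  · refine ⟨1, by simp, one_ne_zero, fun p hp hp1 => ?_⟩
    exact absurd (Int.isUnit_iff.2 (Or.inl rfl) : IsUnit (1 : ℤ)) fun hu =>
      (Nat.prime_iff_prime_int.1 hp).not_isUnit (isUnit_of_dvd_unit hp1 hu)
  · rintro _ ⟨d, rfl, hd, -⟩
    exact Int.cast_ne_zero.2 hd
  · rintro _ ⟨d, rfl, hd, hs⟩ _ ⟨d', rfl, hd', hs'⟩
    refine ⟨d * d', by push_cast; rfl, mul_ne_zero hd hd', fun p hp hpd => ?_⟩
    rcases (Nat.prime_iff_prime_int.1 hp).dvd_or_dvd hpd with h1 | h1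
    · exact hs p hp h1
    · exact hs' p hp h1
  · rintro _ ⟨d, rfl, hd, hs⟩ P Q
    exact good_dep hg hd hs P Q
  · obtain ⟨s, d, hd, hs, e, h⟩ := hsupp p hp
    exact ⟨s, ⟨d, ⟨d, rfl, hd, hs⟩, by rw [e]; simp⟩, h⟩

end Pool.Agent.ZCS
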