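import Pool.Agent.ZCS.Defs

/-!
# The 2-Selmer group: the definitions

`Sel`: the elements of the 2-Selmer group of `y² = x³ + a x² + b x + c` over `ℚ`. `SelTwo`: this group has at most two
elements. `Quiet a b c d`: `d` is positive, a square in `ℚ_p` for all primes `p` which divide twice the discriminant, and
`f` has no zero modulo the primes which divide `d`.
-/

set_option autoImplicit false

noncomputable section

namespace Pool.Agent.ZCS

open NumberField Polynomial

/-- The polynomial `h` is a square modulo `g = X³ + a X² + b X + c` over the field `F`, or `h (x - X)` is, for a point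
`(x, y)`, `y ≠ 0`, over `F` of the curve `y² = g(x)`. -/
def Loc (a b c : ℤ) (F : Type) [Field F] [Algebra ℚ F] (h : ℚ[X]) : Prop :=
  ∃ r : F[X],
    X ^ 3 + C (a : F) * X ^ 2 + C (b : F) * X + C (c : F) ∣ h.map (algebraMap ℚ F) - r ^ 2 ∨
    ∃ x y : F, y ≠ 0 ∧ y ^ 2 = x ^ 3 + a * x ^ 2 + b * x + c ∧
      X ^ 3 + C (a : F) * X ^ 2 + C (b : F) * X + C (c : F) ∣
        h.map (algebraMap ℚ F) * (C x - X) - r ^ 2

/-- The algebraic integers of the field `ℚ(θ)`, `f(θ) = 0`, `f = x³ + a x² + b x + c`, which represent the elements of the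
2-Selmer group of `E : y² = f(x)` over `ℚ`: the norm is a square, the ideal is a square outside twice the discriminant of
`f`, and the conditions `Loc` at the real place and the primes which divide twice the discriminant. -/
def Sel (a b c : ℤ) {K : Type} [Field K] [NumberField K] (θ : 𝓞 K) : Set (𝓞 K) :=
  {α | α ≠ 0 ∧ IsSquare (Algebra.norm ℤ α) ∧
    (∃ (J 𝔟 : Ideal (𝓞 K)) (n : ℕ), Ideal.span {α} = J * 𝔟 ^ 2 ∧
      J ∣ Ideal.span {(((2 * dsc a b c) ^ n : ℤ) : 𝓞 K)}) ∧
    ∃ h : ℚ[X], (α : K) = aeval (θ : K) h ∧ Loc a b c ℝ h ∧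
      ∀ (p : ℕ) [Fact p.Prime], (p : ℤ) ∣ 2 * dsc a b c → Loc a b c ℚ_[p] h}

/-- The polynomial `x³ + a x² + b x + c` has no rational zero and the 2-Selmer group of `y² = x³ + a x² + b x + c` over `ℚ`
has at most two elements. -/
def SelTwo (a b c : ℤ) : Prop :=
  (∀ x : ℚ, x ^ 3 + a * x ^ 2 + b * x + c ≠ 0) ∧ ∃ (K : Type) (_ : Field K) (_ : NumberField K)
    (θ : 𝓞 K), Module.finrank ℚ K = 3 ∧ θ ^ 3 + a * θ ^ 2 + b * θ + c = 0 ∧
      ∀ α ∈ Sel a b c θ, ∀ β ∈ Sel a b c θ,
        IsSquare (α : K) ∨ IsSquare (β : K) ∨ IsSquare ((α : K) * (β : K))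

/-- `d` is positive and a square in `ℚ_p` for all primes `p` which divide twice the discriminant, and
`x³ + a x² + b x + c` has no zero modulo any prime which divides `d`. -/
def Quiet (a b c d : ℤ) : Prop :=
  0 < d ∧ Silent a b c d ∧ ∀ (p : ℕ) [Fact p.Prime], (p : ℤ) ∣ 2 * dsc a b c → IsSquare (d : ℚ_[p])

end Pool.Agent.ZCS
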