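import Pool.Agent.ZCS.InfDeg
import Pool.Agent.ZCS.SelDefs

/-!
# The field generated by the square roots of the quiet numbers has infinite degree
-/

set_option autoImplicit false

noncomputable section

namespace Pool.Agent.ZCS

open scoped Classical

/-- Hensel's lemma: `p q` is a square in `ℚ_ℓ` if `p` is a unit, `ℓ ∣ p - q` and `8 ∣ p - q`. -/
theorem square_padic {ℓ : ℕ} [hℓ : Fact ℓ.Prime] {p q : ℤ} (hp : ¬ (ℓ : ℤ) ∣ p)
    (h : (ℓ : ℤ) ∣ p - q) (h8 : (8 : ℤ) ∣ p - q) : IsSquare ((p * q : ℤ) : ℚ_[ℓ]) := by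
  set f : Polynomial ℤ := Polynomial.X ^ 2 - Polynomial.C (p * q) with hf
  have hpp : Prime (ℓ : ℤ) := Nat.prime_iff_prime_int.1 hℓ.out
  have hpu : ‖((p : ℤ) : ℤ_[ℓ])‖ = 1 := by
    rw [PadicInt.norm_intCast_eq_one_iff]
    exact ((hpp.coprime_iff_not_dvd).2 hp).symm
  have e0 : ∀ z : ℤ_[ℓ], Polynomial.aeval z f = z ^ 2 - ((p * q : ℤ) : ℤ_[ℓ]) := by
    intro z
    rw [hf, map_sub, map_pow, Polynomial.aeval_X, Polynomial.aeval_C]
    rfl
  have e1 : Polynomial.aeval (p : ℤ_[ℓ]) f = (p : ℤ_[ℓ]) * ((p - q : ℤ) : ℤ_[ℓ]) := by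
    rw [e0]
    push_cast
    ring
  have e2 : Polynomial.aeval (p : ℤ_[ℓ]) f.derivative = ((2 : ℤ) : ℤ_[ℓ]) * (p : ℤ_[ℓ]) := by
    have h3 : f.derivative = Polynomial.C 2 * Polynomial.X := by
      rw [hf, Polynomial.derivative_sub, Polynomial.derivative_C, sub_zero,
        Polynomial.derivative_X_pow]
      simp
    rw [h3, map_mul, Polynomial.aeval_X, Polynomial.aeval_C]
    rfl
  have h1 : ‖Polynomial.aeval (p : ℤ_[ℓ]) f‖ <
      ‖Polynomial.aeval (p : ℤ_[ℓ]) f.derivative‖ ^ 2 := by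
    rw [e1, e2, norm_mul, norm_mul, hpu, one_mul, mul_one]
    by_cases h2 : ℓ = 2
    · subst h2
      have h3 : ‖((p - q : ℤ) : ℤ_[2])‖ ≤ (2 : ℝ) ^ (-(3 : ℕ) : ℤ) := by
        have h4 := (PadicInt.norm_int_le_pow_iff_dvd (p := 2) (k := p - q) (n := 3)).2
          (by norm_num; exact h8)
        exact_mod_cast h4
      have h5 : ‖((2 : ℤ) : ℤ_[2])‖ = (2 : ℝ)⁻¹ := by
        have h6 := PadicInt.norm_p (p := 2)
        exact_mod_cast h6
      rw [h5]
      refine h3.trans_lt ?_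
      norm_num
    · have h3 : ‖((p - q : ℤ) : ℤ_[ℓ])‖ < 1 := (PadicInt.norm_int_lt_one_iff_dvd _).2 h
      have h5 : ‖((2 : ℤ) : ℤ_[ℓ])‖ = 1 := by
        rw [PadicInt.norm_intCast_eq_one_iff]
        refine ((hpp.coprime_iff_not_dvd).2 fun h6 => h2 ?_).symm
        have h7 : ℓ ∣ 2 := by exact_mod_cast h6
        exact (Nat.prime_dvd_prime_iff_eq hℓ.out Nat.prime_two).1 h7
      rw [h5, one_pow]
      exact h3
  obtain ⟨z, hz, -⟩ := hensels_lemma h1
  rw [e0] at hz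
  refine ⟨(z : ℚ_[ℓ]), ?_⟩
  have h8 : ((p * q : ℤ) : ℤ_[ℓ]) = z ^ 2 := (sub_eq_zero.1 hz).symm
  have h9 := congrArg (PadicInt.Coe.ringHom (p := ℓ)) h8
  rw [map_pow, map_intCast] at h9
  rw [h9, pow_two]
  rfl

/-- The field generated by the square roots of the quiet numbers has infinite degree. -/
theorem infinite_quiet {a b c : ℤ} (hirr : ∀ x : ℚ, x ^ 3 + a * x ^ 2 + b * x + c ≠ 0)
    (hD : dsc a b c ≠ 0)
    {L : IntermediateField ℚ (AlgebraicClosure ℚ)} (hL : L = ⊥)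
    {F : IntermediateField L (AlgebraicClosure ℚ)} (hF : F = IntermediateField.adjoin L
      {s : AlgebraicClosure ℚ | ∃ d : ℤ, Quiet a b c d ∧ s ^ 2 = d}) :
    ¬ FiniteDimensional L F := by
  intro hfin
  set D := dsc a b c with hDdef
  set T₀ : Set ℕ := {p : ℕ | (p.Prime ∧ Silent a b c p) ∧ ¬ (p : ℤ) ∣ 2 * D} with hT₀
  have hT₀inf : T₀.Infinite := by
    have h1 := silent_infinite hirr
    have h2 : {p : ℕ | (p : ℤ) ∣ 2 * D}.Finite := by
      refine (Set.finite_Iic (2 * D).natAbs).subset fun p hp => ?_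
      exact Nat.le_of_dvd (Int.natAbs_pos.2 (mul_ne_zero two_ne_zero hD))
        (Int.natCast_dvd.1 hp)
    exact (h1.sdiff h2).mono fun p hp => ⟨hp.1, hp.2⟩
  have hM : (8 * D).natAbs ≠ 0 := Int.natAbs_ne_zero.2 (mul_ne_zero (by norm_num) hD)
  have : NeZero (8 * D).natAbs := ⟨hM⟩
  have : Infinite T₀ := hT₀inf.to_subtype
  obtain ⟨y, hy⟩ := Finite.exists_infinite_fiber
    (fun p : T₀ => ((p : ℕ) : ZMod (8 * D).natAbs))
  set T : Set ℕ := {p | p ∈ T₀ ∧ ((p : ℕ) : ZMod (8 * D).natAbs) = y} with hT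
  have hTinf : T.Infinite := by
    have h1 : T = Subtype.val '' ((fun p : T₀ => ((p : ℕ) : ZMod (8 * D).natAbs)) ⁻¹' {y}) := by
      ext p
      constructor
      · rintro ⟨h2, h3⟩
        exact ⟨⟨p, h2⟩, h3, rfl⟩
      · rintro ⟨⟨p, h2⟩, h3, rfl⟩
        exact ⟨h2, h3⟩
    rw [h1]
    exact (Set.infinite_coe_iff.1 hy).image Subtype.val_injective.injOn
  obtain ⟨p₀, hp₀⟩ := hTinf.nonempty
  obtain ⟨s₀, hs₀⟩ := IsAlgClosed.exists_pow_nat_eq (p₀ : AlgebraicClosure ℚ) two_pos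
  -- the products are quiet
  have hquiet : ∀ q ∈ T, Quiet a b c ((p₀ : ℤ) * q) := by
    intro q hq
    have hmod : (((8 * D).natAbs : ℕ) : ℤ) ∣ (p₀ : ℤ) - q := by
      rw [← ZMod.intCast_zmod_eq_zero_iff_dvd]
      push_cast
      rw [hp₀.2, hq.2, sub_self]
    have h8D : (8 * D) ∣ (p₀ : ℤ) - q := Int.natAbs_dvd.1 hmod
    refine ⟨?_, ?_, ?_⟩
    · exact mul_pos (by exact_mod_cast hp₀.1.1.1.pos) (by exact_mod_cast hq.1.1.1.pos)
    · intro p hp hpd
      rcases (Nat.prime_iff_prime_int.1 hp).dvd_or_dvd hpd with h1 | h1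
      · exact hp₀.1.1.2 p hp h1
      · exact hq.1.1.2 p hp h1
    · intro ℓ hℓ hℓD
      have hℓ8 : (ℓ : ℤ) ∣ 8 * D := hℓD.trans ⟨4, by ring⟩
      refine square_padic (fun h1 => hp₀.1.2 ?_) (hℓ8.trans h8D) ((dvd_mul_right _ _).trans h8D)
      have h2 : ℓ = p₀ := (Nat.prime_dvd_prime_iff_eq hℓ.out hp₀.1.1.1).1 (by exact_mod_cast h1)
      rw [← h2]
      exact hℓD
  -- the field with one more square root
  have hs₀int : IsIntegral L s₀ := by
    refine ⟨Polynomial.X ^ 2 - Polynomial.C (p₀ : L),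
      Polynomial.monic_X_pow_sub_C _ two_ne_zero, ?_⟩
    simp [hs₀]
  have : FiniteDimensional L (IntermediateField.adjoin L {s₀}) :=
    IntermediateField.adjoin.finiteDimensional hs₀int
  have hfin' : FiniteDimensional L (F ⊔ IntermediateField.adjoin L {s₀} :
    IntermediateField L (AlgebraicClosure ℚ)) := inferInstance
  refine infinite_of_primes hL hTinf (fun p hp => hp.1.1.1) (fun q hq s hs => ?_) hfin'
  have hs₀0 : s₀ ≠ 0 := by
    rintro rfl
    have h1 : (p₀ : AlgebraicClosure ℚ) = 0 := by rw [← hs₀]; ring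
    exact hp₀.1.1.1.ne_zero (by exact_mod_cast h1)
  have h1 : s₀ * s ∈ F := by
    rw [hF]
    refine IntermediateField.subset_adjoin L _ ⟨(p₀ : ℤ) * q, hquiet q hq, ?_⟩
    rw [mul_pow, hs₀, hs]
    push_cast
    ring
  have h2 : s = (s₀ * s) / s₀ := by field_simp
  rw [h2]
  exact (F ⊔ IntermediateField.adjoin L {s₀}).div_mem ((le_sup_left : F ≤ _) h1)
    ((le_sup_right : IntermediateField.adjoin L {s₀} ≤ _)
      (IntermediateField.subset_adjoin L _ (Set.mem_singleton s₀)))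

end Pool.Agent.ZCS
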