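import Mathlib

/-!
# Silent primes: the definitions

`Silent a b c d`: `f = x³ + a x² + b x + c` has no zero modulo any prime which divides `d`. `Good a b c`: the condition on
`f`. `twc a b c d`: the twist of `y² = f(x)` by `d`. `F7`: an explicit field of infinite degree.
-/

set_option autoImplicit false

noncomputable section

namespace Pool.Agent.ZCS

open NumberField

/-- the discriminant of `x³ + a x² + b x + c` -/
def dsc (a b c : ℤ) : ℤ :=
  a ^ 2 * b ^ 2 - 4 * b ^ 3 - 4 * a ^ 3 * c - 27 * c ^ 2 + 18 * a * b * c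

/-- `x³ + a x² + b x + c` has no zero modulo any prime which divides `d`. -/
def Silent (a b c d : ℤ) : Prop :=
  ∀ p : ℕ, p.Prime → (p : ℤ) ∣ d → ∀ x : ℤ, ¬ (p : ℤ) ∣ x ^ 3 + a * x ^ 2 + b * x + c

/-- `x³ + a x² + b x + c` has no rational zero and a zero in a cubic field with an odd class number. -/
def OddCubic (a b c : ℤ) : Prop :=
  (∀ x : ℚ, x ^ 3 + a * x ^ 2 + b * x + c ≠ 0) ∧ ∃ (K : Type) (_ : Field K) (_ : NumberField K),
    Module.finrank ℚ K = 3 ∧ (∃ θ : K, θ ^ 3 + a * θ ^ 2 + b * θ + c = 0) ∧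
      Odd (classNumber K)

/-- The polynomial `x³ + a x² + b x + c` has no rational zero and a zero `θ` in a cubic field `K` with the ring of integers
`ℤ[θ]` and an odd class number; if its discriminant is positive, then all totally positive units of `K` are squares. -/
def Good (a b c : ℤ) : Prop :=
  (∀ x : ℚ, x ^ 3 + a * x ^ 2 + b * x + c ≠ 0) ∧ ∃ (K : Type) (_ : Field K) (_ : NumberField K)
    (θ : 𝓞 K), Module.finrank ℚ K = 3 ∧ θ ^ 3 + a * θ ^ 2 + b * θ + c = 0 ∧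
      (∀ x : 𝓞 K, ∃ u v w : ℤ, x = u + v * θ + w * θ ^ 2) ∧ Odd (classNumber K) ∧
      (0 < dsc a b c → ∀ u : (𝓞 K)ˣ, (∀ φ : K →+* ℝ, 0 < φ ((u : 𝓞 K) : K)) →
        ∃ v : (𝓞 K)ˣ, u = v ^ 2)

/-- The twist of `y² = x³ + a x² + b x + c` by `d`. -/
def twc (a b c d : ℚ) : WeierstrassCurve ℚ := ⟨0, a * d, 0, b * d ^ 2, c * d ^ 3⟩

/-- The field generated by the square roots of `-1` and of the primes which are not `0`, `1`, `6` modulo `7`. -/
def F7 (L : IntermediateField ℚ (AlgebraicClosure ℚ)) :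
    IntermediateField L (AlgebraicClosure ℚ) :=
  IntermediateField.adjoin L {s : AlgebraicClosure ℚ | s ^ 2 = -1 ∨
    ∃ p : ℕ, p.Prime ∧ p % 7 ≠ 0 ∧ p % 7 ≠ 1 ∧ p % 7 ≠ 6 ∧ s ^ 2 = p}

end Pool.Agent.ZCS
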