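import Pool.Agent.ZCQL.MultiQuad
import Pool.Agent.ZCQK.Gal1
import Pool.Agent.ZCQ.Up
import Pool.Agent.ZC.Iso
import Pool.Agent.ZCS.Defs

/-!
# Points over fields generated by square roots and rational points of the quadratic twists

`kummer`: an element of the field generated by a group `S` of square roots of elements of `k`, the square of which is in
`k`, is a multiple of an element of `S`. `main_tw`: let `D` be a set of nonzero rational numbers closed under products such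
that the quadratic twists of `E` by the elements of `D` have rank at most one over `ℚ`. Then all zero-cycles over `ℚ` of
degree zero and sum zero on `E × E` which are supported on points over the field generated by the square roots of the
elements of `D` are torsion.
-/

set_option autoImplicit false

noncomputable section

namespace Pool.Agent.ZCS

open WeierstrassCurve Pool.Agent.ZC Pool.Agent.ZCQ Pool.Agent.ZCQK Pool.Agent.ZCQL
open scoped Classical

/-- An element of the field generated by a group `S` of square roots of elements of `k`, the square of which is in `k`, is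
a multiple of an element of `S`. -/
theorem kummer {k Ω : Type} [Field k] [Field Ω] [Algebra k Ω] [Algebra.IsAlgebraic k Ω]
    (h2 : (2 : Ω) ≠ 0) (S : Set Ω) (h1 : (1 : Ω) ∈ S) (hS : ∀ s ∈ S, ∀ t ∈ S, s * t ∈ S)
    (hk : ∀ s ∈ S, ∃ q : k, s ^ 2 = algebraMap k Ω q) (hS0 : ∀ s ∈ S, s ≠ 0) {y : Ω}
    (hy : y ∈ IntermediateField.adjoin k S) (hy2 : ∃ q : k, y ^ 2 = algebraMap k Ω q) :
    ∃ s ∈ S, ∃ r : k, y = algebraMap k Ω r * s := by
  obtain ⟨T, hT, hyT⟩ := IntermediateField.exists_finset_of_mem_adjoin hy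
  induction T using Finset.induction_on generalizing y with
  | empty =>
    rw [Finset.coe_empty, IntermediateField.adjoin_empty, IntermediateField.mem_bot] at hyT
    obtain ⟨r, hr⟩ := hyT
    exact ⟨1, h1, r, by rw [hr, mul_one]⟩
  | insert t T _ ih =>
    rw [Finset.coe_insert] at hT hyT
    have htS : t ∈ S := hT (Set.mem_insert _ _)
    have hTS : (T : Set Ω) ⊆ S := fun x hx => hT (Set.mem_insert_of_mem _ hx)
    set M : IntermediateField k Ω := IntermediateField.adjoin k (T : Set Ω) with hM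
    have hMF : M ≤ IntermediateField.adjoin k S := IntermediateField.adjoin.mono _ _ _ hTS
    have ih' : ∀ x ∈ M, (∃ q : k, x ^ 2 = algebraMap k Ω q) →
        ∃ s ∈ S, ∃ r : k, x = algebraMap k Ω r * s := fun x hx hx2 => ih (hMF hx) hx2 hTS hx
    obtain ⟨q, hq⟩ := hk t htS
    have htM : t ^ 2 ∈ M := by
      rw [hq]
      exact M.algebraMap_mem q
    have hlin : ∀ x ∈ Algebra.adjoin k (insert t (T : Set Ω)),
        ∃ u ∈ M, ∃ v ∈ M, x = u + v * t := by
      intro x h3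
      induction h3 using Algebra.adjoin_induction with
      | mem x hx =>
        rcases Set.mem_insert_iff.1 hx with rfl | hx
        · exact ⟨0, M.zero_mem, 1, M.one_mem, by ring⟩
        · exact ⟨x, IntermediateField.subset_adjoin k _ hx, 0, M.zero_mem, by ring⟩
      | algebraMap r => exact ⟨_, M.algebraMap_mem r, 0, M.zero_mem, by ring⟩
      | add x y _ _ hx hy =>
        obtain ⟨u, hu, v, hv, rfl⟩ := hx
        obtain ⟨u', hu', v', hv', rfl⟩ := hy
        exact ⟨u + u', M.add_mem hu hu', v + v', M.add_mem hv hv', by ring⟩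
      | mul x y _ _ hx hy =>
        obtain ⟨u, hu, v, hv, rfl⟩ := hx
        obtain ⟨u', hu', v', hv', rfl⟩ := hy
        exact ⟨u * u' + v * v' * t ^ 2,
          M.add_mem (M.mul_mem hu hu') (M.mul_mem (M.mul_mem hv hv') htM),
          u * v' + u' * v, M.add_mem (M.mul_mem hu hv') (M.mul_mem hu' hv), by ring⟩
    have h3 : y ∈ (IntermediateField.adjoin k (insert t (T : Set Ω))).toSubalgebra := hyT
    rw [IntermediateField.adjoin_toSubalgebra] at h3
    obtain ⟨u, hu, v, hv, rfl⟩ := hlin y h3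
    by_cases ht : t ∈ M
    · exact ih' _ (M.add_mem hu (M.mul_mem hv ht)) hy2
    · have huv : u * v = 0 := by
        by_contra hne
        apply ht
        obtain ⟨q', hq'⟩ := hy2
        have h4 : t = (algebraMap k Ω q' - u ^ 2 - v ^ 2 * t ^ 2) / (2 * (u * v)) := by
          rw [eq_div_iff (mul_ne_zero h2 hne)]
          linear_combination hq'
        rw [h4]
        refine M.div_mem (M.sub_mem (M.sub_mem (M.algebraMap_mem _) (pow_mem hu 2))
          (M.mul_mem (pow_mem hv 2) htM)) (M.mul_mem ?_ (M.mul_mem hu hv))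
        exact_mod_cast M.natCast_mem 2
      rcases mul_eq_zero.1 huv with rfl | rfl
      · obtain ⟨q', hq'⟩ := hy2
        have ht0 := hS0 t htS
        obtain ⟨s, hs, r, hr⟩ := ih' v hv ⟨q' / q, by
          rw [map_div₀, ← hq, eq_div_iff (pow_ne_zero 2 ht0)]
          linear_combination hq'⟩
        exact ⟨s * t, hS s hs t htS, r, by rw [hr]; ring⟩
      · rw [zero_mul, add_zero] at hy2 ⊢
        exact ih' u hu hy2

variable {a b c : ℚ}

/-- the elements of the smallest field are the rational numbers -/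
private theorem rat_of_bot {L : IntermediateField ℚ (AlgebraicClosure ℚ)} (hL : L = ⊥)
    {x : AlgebraicClosure ℚ} (h : ∀ τ : AlgebraicClosure ℚ ≃ₐ[L] AlgebraicClosure ℚ, τ x = x) :
    ∃ r : ℚ, x = algebraMap ℚ (AlgebraicClosure ℚ) r := by
  subst hL
  have hgal : IsGalois (⊥ : IntermediateField ℚ (AlgebraicClosure ℚ)) (AlgebraicClosure ℚ) := by
    have h0 : Algebra.IsAlgebraic ℚ (AlgebraicClosure ℚ) := AlgebraicClosure.isAlgebraic ℚ
    have h : IsAlgClosure (⊥ : IntermediateField ℚ (AlgebraicClosure ℚ)) (AlgebraicClosure ℚ) :=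
      ⟨inferInstance, Algebra.IsAlgebraic.tower_top (K := ℚ) _⟩
    exact IsAlgClosure.isGalois _ (AlgebraicClosure ℚ)
  obtain ⟨l, hl⟩ := (InfiniteGalois.mem_range_algebraMap_iff_fixed x).2 h
  obtain ⟨r, hr⟩ := IntermediateField.mem_bot.1 l.2
  exact ⟨r, by rw [hr]; exact hl.symm⟩

/-- Two points over the field generated by the square roots of the elements of `D` on which every automorphism acts with
the same sign are dependent, if the twists of `E` by the elements of `D` have rank at most one. -/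
theorem tw_sign {E₀ : WeierstrassCurve ℚ} (hE₀ : E₀ = ⟨0, a, 0, b, c⟩) (hE : E₀.IsElliptic)
    {L : IntermediateField ℚ (AlgebraicClosure ℚ)} (hL : L = ⊥) (D : Set ℚ)
    (h1D : (1 : ℚ) ∈ D) (hD0 : ∀ d ∈ D, d ≠ 0) (hDm : ∀ d ∈ D, ∀ d' ∈ D, d * d' ∈ D)
    (hdep : ∀ d ∈ D, ∀ P Q : (twc a b c d).toAffine.Point,
      ∃ m n : ℤ, (m ≠ 0 ∨ n ≠ 0) ∧ m • P = n • Q)
    {F : IntermediateField L (AlgebraicClosure ℚ)} (hF : F = IntermediateField.adjoin L
      {s : AlgebraicClosure ℚ | ∃ d ∈ D, s ^ 2 = algebraMap ℚ (AlgebraicClosure ℚ) d})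
    (P Q : ((E₀⁄L)⁄(AlgebraicClosure ℚ)).toAffine.Point)
    (hPF : ∀ x y h, P = Affine.Point.some x y h → x ∈ F ∧ y ∈ F)
    (hQF : ∀ x y h, Q = Affine.Point.some x y h → x ∈ F ∧ y ∈ F)
    (hsgn : ∀ σ : AlgebraicClosure ℚ ≃ₐ[L] AlgebraicClosure ℚ,
      (galL (E₀⁄L) σ P = P ∧ galL (E₀⁄L) σ Q = Q) ∨
        (galL (E₀⁄L) σ P = -P ∧ galL (E₀⁄L) σ Q = -Q)) :
    ∃ m n : ℤ, (m ≠ 0 ∨ n ≠ 0) ∧ m • P = n • Q := by
  set f := algebraMap ℚ (AlgebraicClosure ℚ) with hf
  set S : Set (AlgebraicClosure ℚ) := {s | ∃ d ∈ D, s ^ 2 = f d} with hS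
  have hLr : ∀ l : L, ∃ r : ℚ, algebraMap L (AlgebraicClosure ℚ) l = f r := by
    rintro ⟨l, hl⟩
    rw [hL] at hl
    obtain ⟨r, hr⟩ := IntermediateField.mem_bot.1 hl
    exact ⟨r, hr.symm⟩
  have hfL : ∀ r : ℚ, f r = algebraMap L (AlgebraicClosure ℚ) (algebraMap ℚ L r) := fun r =>
    IsScalarTower.algebraMap_apply ℚ L (AlgebraicClosure ℚ) r
  have hτ : ∀ (τ : AlgebraicClosure ℚ ≃ₐ[L] AlgebraicClosure ℚ) (r : ℚ), τ (f r) = f r := by
    intro τ r
    rw [hfL]
    exact τ.commutes _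
  have hS0 : ∀ s ∈ S, s ≠ 0 := by
    rintro s ⟨d, hd, hs⟩ rfl
    apply hD0 d hd
    apply f.injective
    rw [← hs, map_zero]
    ring
  have hkum : ∀ y : AlgebraicClosure ℚ, y ∈ F → (∃ q : ℚ, y ^ 2 = f q) →
      ∃ s ∈ S, ∃ r : ℚ, y = f r * s := by
    rintro y hy ⟨q, hq⟩
    have halg : Algebra.IsAlgebraic L (AlgebraicClosure ℚ) := by
      have h0 : Algebra.IsAlgebraic ℚ (AlgebraicClosure ℚ) := AlgebraicClosure.isAlgebraic ℚ
      exact Algebra.IsAlgebraic.tower_top (K := ℚ) L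
    obtain ⟨s, hs, r, hr⟩ := kummer (k := L) two_ne_zero S ⟨1, h1D, by rw [map_one]; ring⟩
      (fun s ⟨d, hd, e⟩ t ⟨d', hd', e'⟩ => ⟨d * d', hDm d hd d' hd', by
        rw [mul_pow, e, e', map_mul]⟩)
      (fun s ⟨d, _, e⟩ => ⟨algebraMap ℚ L d, by rw [e, hfL]⟩) hS0 (hF ▸ hy)
      ⟨algebraMap ℚ L q, by rw [hq, hfL]⟩
    obtain ⟨r', hr'⟩ := hLr r
    exact ⟨s, hs, r', by rw [hr, hr']⟩
  rcases P with _ | ⟨x₁, y₁, hP⟩
  · exact ⟨1, 0, Or.inl one_ne_zero, by rw [zero_zsmul, one_zsmul]; rfl⟩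
  rcases Q with _ | ⟨x₂, y₂, hQ⟩
  · exact ⟨0, 1, Or.inr one_ne_zero, by rw [zero_zsmul, one_zsmul]; rfl⟩
  have e1 : ∀ σ : AlgebraicClosure ℚ ≃ₐ[L] AlgebraicClosure ℚ,
      σ x₁ = x₁ ∧ σ x₂ = x₂ ∧ ((σ y₁ = y₁ ∧ σ y₂ = y₂) ∨ (σ y₁ = -y₁ ∧ σ y₂ = -y₂)) := by
    intro σ
    rcases hsgn σ with ⟨h3, h4⟩ | ⟨h3, h4⟩
    · have h5 := (Affine.Point.some.injEq _ _ _ _ _ _).mp h3
      have h6 := (Affine.Point.some.injEq _ _ _ _ _ _).mp h4
      exact ⟨h5.1, h6.1, Or.inl ⟨h5.2, h6.2⟩⟩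
    · rw [Affine.Point.neg_some] at h3 h4
      have h5 := (Affine.Point.some.injEq _ _ _ _ _ _).mp h3
      have h6 := (Affine.Point.some.injEq _ _ _ _ _ _).mp h4
      refine ⟨h5.1, h6.1, Or.inr ⟨h5.2.trans ?_, h6.2.trans ?_⟩⟩
      · simp [Affine.negY, hE₀, WeierstrassCurve.baseChange, WeierstrassCurve.map]
      · simp [Affine.negY, hE₀, WeierstrassCurve.baseChange, WeierstrassCurve.map]
  obtain ⟨X₁, hX₁⟩ := rat_of_bot hL (x := x₁) fun σ => (e1 σ).1
  obtain ⟨X₂, hX₂⟩ := rat_of_bot hL (x := x₂) fun σ => (e1 σ).2.1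
  rw [← hf] at hX₁ hX₂
  have hfE : ∀ r : ℚ, algebraMap L (AlgebraicClosure ℚ) (algebraMap ℚ L r) = f r := fun r =>
    (hfL r).symm
  have hcurve : ∀ x y : AlgebraicClosure ℚ,
      ((E₀⁄L)⁄(AlgebraicClosure ℚ)).toAffine.Equation x y →
      y ^ 2 = x ^ 3 + f a * x ^ 2 + f b * x + f c := by
    intro x y h
    rw [Affine.equation_iff] at h
    simp only [hE₀, WeierstrassCurve.baseChange, WeierstrassCurve.map, map_zero, hfE] at h
    linear_combination h
  have hy₁ := hcurve x₁ y₁ hP.1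
  have hy₂ := hcurve x₂ y₂ hQ.1
  -- two-torsion points
  have htwo : ∀ {x y : AlgebraicClosure ℚ}
      (h : ((E₀⁄L)⁄(AlgebraicClosure ℚ)).toAffine.Nonsingular x y), y = 0 →
      (2 : ℤ) • (Affine.Point.some x y h) = 0 := by
    intro x y h h0
    subst h0
    rw [two_zsmul]
    apply Affine.Point.add_of_Y_eq rfl
    simp [Affine.negY, hE₀, WeierstrassCurve.baseChange, WeierstrassCurve.map]
  by_cases hy10 : y₁ = 0
  · exact ⟨2, 0, Or.inl two_ne_zero, by rw [htwo hP hy10, zero_zsmul]⟩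
  by_cases hy20 : y₂ = 0
  · exact ⟨0, 2, Or.inr two_ne_zero, by rw [htwo hQ hy20, zero_zsmul]⟩
  obtain ⟨s, ⟨d, hd, hs⟩, r₁, hr₁⟩ := hkum y₁ (hPF x₁ y₁ hP rfl).2
    ⟨X₁ ^ 3 + a * X₁ ^ 2 + b * X₁ + c, by
      rw [hy₁, hX₁]
      simp only [map_add, map_mul, map_pow]⟩
  obtain ⟨t, ht⟩ := rat_of_bot hL (x := y₂ / y₁) fun σ => by
    rcases (e1 σ).2.2 with ⟨h3, h4⟩ | ⟨h3, h4⟩
    · rw [map_div₀, h3, h4]
    · rw [map_div₀, h3, h4, neg_div_neg_eq]
  rw [← hf] at ht
  have hr₂ : y₂ = f (t * r₁) * s := by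
    rw [div_eq_iff hy10] at ht
    rw [ht, hr₁, map_mul]
    ring
  have hd0 := hD0 d hd
  have hs0 : s ≠ 0 := hS0 s ⟨d, hd, hs⟩
  -- the points on the twist
  have hΔ₀ : E₀.Δ ≠ 0 := hE.isUnit.ne_zero
  rw [hE₀] at hΔ₀
  have hΔ : (twc a b c d).Δ ≠ 0 := by
    have h3 : (twc a b c d).Δ = d ^ 6 * (⟨0, a, 0, b, c⟩ : WeierstrassCurve ℚ).Δ := by
      simp only [twc, WeierstrassCurve.Δ, WeierstrassCurve.b₂, WeierstrassCurve.b₄,
        WeierstrassCurve.b₆, WeierstrassCurve.b₈]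
      ring
    rw [h3]
    exact mul_ne_zero (pow_ne_zero 6 hd0) hΔ₀
  have hΔ' : ((twc a b c d)⁄(AlgebraicClosure ℚ)).Δ ≠ 0 := by
    rw [WeierstrassCurve.baseChange, WeierstrassCurve.map_Δ, Ne, map_eq_zero]
    exact hΔ
  have hI : IsoChg ((E₀⁄L)⁄(AlgebraicClosure ℚ)) ((twc a b c d)⁄(AlgebraicClosure ℚ))
      s 0 0 0 := by
    refine ⟨hs0, ?_, ?_, ?_, ?_, ?_⟩
    · simp [hE₀, twc, WeierstrassCurve.baseChange, WeierstrassCurve.map]
    · simp only [hE₀, twc, WeierstrassCurve.baseChange, WeierstrassCurve.map, map_mul, map_zero,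
        hfE]
      rw [hs]
      ring
    · simp [hE₀, twc, WeierstrassCurve.baseChange, WeierstrassCurve.map]
    · simp only [hE₀, twc, WeierstrassCurve.baseChange, WeierstrassCurve.map, map_mul, map_zero,
        map_pow, hfE]
      have h4 : s ^ 4 = f d ^ 2 := by rw [← hs]; ring
      rw [h4]
      ring
    · simp only [hE₀, twc, WeierstrassCurve.baseChange, WeierstrassCurve.map, map_mul, map_zero,
        map_pow, hfE]
      have h4 : s ^ 6 = f d ^ 3 := by rw [← hs]; ring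
      rw [h4]
      ring
  have hpt : ∀ (X r : ℚ) {x y : AlgebraicClosure ℚ}
      (h : ((E₀⁄L)⁄(AlgebraicClosure ℚ)).toAffine.Nonsingular x y), x = f X → y = f r * s →
      ∃ R : (twc a b c d).toAffine.Point, hI.hom hΔ' (Affine.Point.some x y h) = up _ R := by
    intro X r x y h hx hy
    have h5 := hcurve x y h.1
    have h6 : d * r ^ 2 = X ^ 3 + a * X ^ 2 + b * X + c := by
      apply f.injective
      simp only [map_add, map_mul, map_pow]
      rw [← hs, ← hx]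
      rw [hy] at h5
      linear_combination h5
    have h7 : (twc a b c d).toAffine.Equation (d * X) (d ^ 2 * r) := by
      rw [Affine.equation_iff]
      simp only [twc]
      linear_combination d ^ 3 * h6
    refine ⟨.some _ _ ((Affine.equation_iff_nonsingular_of_Δ_ne_zero hΔ).mp h7), ?_⟩
    refine (Affine.Point.some.injEq _ _ _ _ _ _).mpr ⟨?_, ?_⟩
    · rw [← hf, map_mul, ← hs, hx]
      ring
    · rw [← hf, map_mul, map_pow, ← hs, hy]
      ring
  obtain ⟨R₁, hR₁⟩ := hpt X₁ r₁ hP hX₁ hr₁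
  obtain ⟨R₂, hR₂⟩ := hpt X₂ (t * r₁) hQ hX₂ hr₂
  obtain ⟨m, n, hmn, e⟩ := hdep d hd R₁ R₂
  set upH : (twc a b c d).toAffine.Point →+
      ((twc a b c d)⁄(AlgebraicClosure ℚ)).toAffine.Point :=
    AddMonoidHom.mk' (up _) (up_add _) with hupH
  refine ⟨m, n, hmn, hI.fn_injective hΔ' ?_⟩
  change hI.hom hΔ' _ = hI.hom hΔ' _
  rw [map_zsmul, map_zsmul, hR₁, hR₂]
  change m • upH R₁ = n • upH R₂
  rw [← map_zsmul, ← map_zsmul, e]

/-- Zero-cycles over `ℚ` on `E × E` supported on points over the field generated by the square roots of the elements of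
`D`, if the twists of `E` by the elements of `D` have rank at most one. -/
theorem main_tw {E₀ : WeierstrassCurve ℚ} (hE₀ : E₀ = ⟨0, a, 0, b, c⟩) (hE : E₀.IsElliptic)
    {L : IntermediateField ℚ (AlgebraicClosure ℚ)} (hL : L = ⊥) (D : Set ℚ)
    (h1D : (1 : ℚ) ∈ D) (hD0 : ∀ d ∈ D, d ≠ 0) (hDm : ∀ d ∈ D, ∀ d' ∈ D, d * d' ∈ D)
    (hdep : ∀ d ∈ D, ∀ P Q : (twc a b c d).toAffine.Point,
      ∃ m n : ℤ, (m ≠ 0 ∨ n ≠ 0) ∧ m • P = n • Q)
    {F : IntermediateField L (AlgebraicClosure ℚ)} (hF : F = IntermediateField.adjoin L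
      {s : AlgebraicClosure ℚ | ∃ d ∈ D, s ^ 2 = algebraMap ℚ (AlgebraicClosure ℚ) d})
    (z : Z0N fun _ : Fin 2 => (E₀⁄L)⁄(AlgebraicClosure ℚ))
    (hz : ∀ σ : AlgebraicClosure ℚ ≃ₐ[L] AlgebraicClosure ℚ,
      z.mapDomain (fun p i => galL (E₀⁄L) σ (p i)) = z)
    (hdeg : z.sum (fun _ n => n) = 0) (hsum : ∀ i, z.sum (fun p n => n • p i) = 0)
    (hsupp : ∀ p ∈ z.support, ∀ i x y h, p i = Affine.Point.some x y h → x ∈ F ∧ y ∈ F) :
    ∃ M : ℕ, 0 < M ∧ M • z ∈ RatEqN fun _ : Fin 2 => (E₀⁄L)⁄(AlgebraicClosure ℚ) := by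
  set f := algebraMap ℚ (AlgebraicClosure ℚ) with hf
  have hfL : ∀ r : ℚ, f r = algebraMap L (AlgebraicClosure ℚ) (algebraMap ℚ L r) := fun r =>
    IsScalarTower.algebraMap_apply ℚ L (AlgebraicClosure ℚ) r
  have hτ : ∀ (τ : AlgebraicClosure ℚ ≃ₐ[L] AlgebraicClosure ℚ) (r : ℚ), τ (f r) = f r := by
    intro τ r
    rw [hfL]
    exact τ.commutes _
  refine main_mq L F (E₀⁄L) (inferInstanceAs (E₀.map (algebraMap ℚ L)).IsElliptic) ?_ ?_ z hz
    hdeg hsum hsupp
  · -- the automorphisms are of order two on `F`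
    intro σ x hx
    have h1 : F ≤ IntermediateField.fixedField (Subgroup.zpowers (σ * σ)) := by
      rw [hF, IntermediateField.adjoin_le_iff]
      rintro s ⟨d, hd, hs⟩
      rw [SetLike.mem_coe, IntermediateField.mem_fixedField_iff]
      have h2 : (σ * σ) s = s := by
        have h3 : σ s = s ∨ σ s = -s := by
          apply sq_eq_sq_iff_eq_or_eq_neg.1
          rw [← map_pow, hs, hτ]
        change σ (σ s) = s
        rcases h3 with h3 | h3
        · rw [h3, h3]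
        · rw [h3, map_neg, h3, neg_neg]
      intro τ hτm
      have h4 : τ ∈ MulAction.stabilizer (AlgebraicClosure ℚ ≃ₐ[L] AlgebraicClosure ℚ) s :=
        (Subgroup.zpowers_le.2 (show σ * σ ∈ MulAction.stabilizer
          (AlgebraicClosure ℚ ≃ₐ[L] AlgebraicClosure ℚ) s from h2)) hτm
      exact h4
    exact (IntermediateField.mem_fixedField_iff _ _).1 (h1 hx) (σ * σ)
      (Subgroup.mem_zpowers _)
  · intro P Q hPF hQF hsgn
    exact Or.inl (tw_sign hE₀ hE hL D h1D hD0 hDm hdep hF P Q hPF hQF hsgn)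

end Pool.Agent.ZCS
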