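import Pool.Agent.ZCS.Sil
import Pool.Agent.ZCS.Transfer
import Pool.Agent.ZCQS.Mordell

/-!
# Zero-cycles and silent primes

`dep_of_half`: in a finitely generated abelian group in which one of `P`, `Q`, `P + Q` is always a double, any two elements
are dependent. `main_silent`: the theorem on zero-cycles for the curves `y² = f(x)`.
-/

set_option autoImplicit false

noncomputable section

namespace Pool.Agent.ZCS

open WeierstrassCurve NumberField Pool.Agent.ZC Pool.Agent.ZCQ Pool.Agent.ZCQK Pool.Agent.ZCQL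
open scoped Classical

section abstract

variable {A : Type} [AddCommGroup A]

theorem finiteIndex_of_half
    (h : ∀ P Q : A, (∃ R, P = R + R) ∨ (∃ R, Q = R + R) ∨ ∃ R, P + Q = R + R) :
    (nsmulAddMonoidHom (α := A) 2).range.FiniteIndex := by
  set H := (nsmulAddMonoidHom (α := A) 2).range with hH
  have hm : ∀ x : A, (∃ R, x = R + R) → x ∈ H := by
    rintro x ⟨R, rfl⟩
    exact ⟨R, two_nsmul R⟩
  have hfin : Finite (A ⧸ H) := by
    by_cases hall : ∀ x : A, x ∈ H
    · have : Subsingleton (A ⧸ H) := by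
        refine ⟨fun x y => ?_⟩
        induction x using QuotientAddGroup.induction_on
        induction y using QuotientAddGroup.induction_on
        exact QuotientAddGroup.eq.2 (hall _)
      infer_instance
    · push Not at hall
      obtain ⟨x, hx⟩ := hall
      refine Set.finite_univ_iff.1 ((Set.toFinite {(0 : A ⧸ H), (x : A ⧸ H)}).subset ?_)
      intro y _
      induction y using QuotientAddGroup.induction_on with
      | H y =>
        rcases h (-x) y with h1 | h1 | h1
        · exact absurd (neg_mem_iff.1 (hm _ h1)) hx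
        · left
          exact (QuotientAddGroup.eq_zero_iff y).2 (hm _ h1)
        · right
          exact (QuotientAddGroup.eq.2 (hm _ h1)).symm
  exact AddSubgroup.finiteIndex_of_finite_quotient

theorem dep_of_half (hfg : AddGroup.FG A)
    (h : ∀ P Q : A, (∃ R, P = R + R) ∨ (∃ R, Q = R + R) ∨ ∃ R, P + Q = R + R) (P Q : A) :
    ∃ m n : ℤ, (m ≠ 0 ∨ n ≠ 0) ∧ m • P = n • Q := by
  by_contra hno
  have hind : ∀ m n : ℤ, m • P + n • Q = 0 → m = 0 ∧ n = 0 := by
    intro m n e
    by_contra hne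
    apply hno
    refine ⟨m, -n, ?_, ?_⟩
    · by_contra h4
      push Not at h4
      exact hne ⟨h4.1, neg_eq_zero.1 h4.2⟩
    · rw [neg_smul]
      exact eq_neg_of_add_eq_zero_left e
  have hfin : Module.Finite ℤ A := Module.Finite.iff_addGroup_fg.2 hfg
  set M := A ⧸ Submodule.torsion ℤ A with hM
  have hfree : Module.Free ℤ M := inferInstance
  set π : A →ₗ[ℤ] M := (Submodule.torsion ℤ A).mkQ with hπ
  have hli : LinearIndependent ℤ ![π P, π Q] := by
    rw [Fintype.linearIndependent_iff]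
    intro g hg
    rw [Fin.sum_univ_two] at hg
    change g 0 • π P + g 1 • π Q = 0 at hg
    rw [← map_smul, ← map_smul, ← map_add] at hg
    have h1 : g 0 • P + g 1 • Q ∈ Submodule.torsion ℤ A := (Submodule.Quotient.mk_eq_zero _).1 hg
    obtain ⟨⟨k, hk⟩, hk2⟩ := h1
    have hk0 : k ≠ 0 := nonZeroDivisors.ne_zero hk
    have h2 : k • (g 0 • P + g 1 • Q) = 0 := hk2
    rw [smul_add, smul_smul, smul_smul] at h2
    obtain ⟨e0, e1⟩ := hind _ _ h2
    intro i
    fin_cases i
    · exact (mul_eq_zero.1 e0).resolve_left hk0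
    · exact (mul_eq_zero.1 e1).resolve_left hk0
  have hrk : 2 ≤ Module.finrank ℤ M := by
    have := hli.fintype_card_le_finrank
    rwa [Fintype.card_fin] at this
  set B := Module.finBasis ℤ M with hB
  set i0 : Fin (Module.finrank ℤ M) := ⟨0, by omega⟩ with hi0
  set i1 : Fin (Module.finrank ℤ M) := ⟨1, by omega⟩ with hi1
  have h01 : i0 ≠ i1 := fun e => absurd (congrArg Fin.val e) (by simp [hi0, hi1])
  obtain ⟨X, hX⟩ := (Submodule.torsion ℤ A).mkQ_surjective (B i0)
  obtain ⟨Y, hY⟩ := (Submodule.torsion ℤ A).mkQ_surjective (B i1)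
  have c1 : ∀ i j, B.repr (B i) j = if i = j then 1 else 0 := by
    intro i j
    rw [B.repr_self, Finsupp.single_apply]
  rcases h X Y with ⟨R, hR⟩ | ⟨R, hR⟩ | ⟨R, hR⟩
  · have e := congrArg (fun x => B.repr (π x) i0) hR
    simp only [map_add, Finsupp.add_apply] at e
    rw [hπ, hX, c1, if_pos rfl] at e
    omega
  · have e := congrArg (fun x => B.repr (π x) i1) hR
    simp only [map_add, Finsupp.add_apply] at e
    rw [hπ, hY, c1, if_pos rfl] at e
    omega
  · have e := congrArg (fun x => B.repr (π x) i0) hR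
    simp only [map_add, Finsupp.add_apply] at e
    rw [hπ, hX, hY, c1, c1, if_pos rfl, if_neg h01.symm] at e
    omega

/-- the rank is at most one if any two elements are dependent -/
theorem rank_le_one_of_dep (h : ∀ P Q : A, ∃ m n : ℤ, (m ≠ 0 ∨ n ≠ 0) ∧ m • P = n • Q) :
    Module.rank ℤ A ≤ 1 := by
  have h1 : Module.rank ℤ A ≤ ((1 : ℕ) : Cardinal) := by
    refine rank_le fun s hs => ?_
    by_contra hlt
    push Not at hlt
    obtain ⟨x, hx, y, hy, hxy⟩ := Finset.one_lt_card.1 hlt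
    obtain ⟨m, n, hmn, e⟩ := h x y
    have h2 := linearIndependent_iff'.1 hs {⟨x, hx⟩, ⟨y, hy⟩}
      (fun i => if (i : A) = x then m else -n) (by
        rw [Finset.sum_pair (fun e => hxy (congrArg Subtype.val e))]
        rw [if_pos rfl, if_neg (Ne.symm hxy), neg_smul, e, add_neg_cancel])
    have h3 := h2 ⟨x, hx⟩ (by simp)
    have h4 := h2 ⟨y, hy⟩ (by simp)
    rw [if_pos rfl] at h3
    rw [if_neg (Ne.symm hxy), neg_eq_zero] at h4
    rcases hmn with h5 | h5
    · exact h5 h3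
    · exact h5 h4
  simpa using h1

end abstract

variable {a b c : ℤ}

theorem disc_ne (hD0 : dsc a b c ≠ 0) : (⟨0, a, 0, b, c⟩ : WeierstrassCurve ℚ).Δ ≠ 0 := by
  have h1 : (⟨0, a, 0, b, c⟩ : WeierstrassCurve ℚ).Δ = ((16 * dsc a b c : ℤ) : ℚ) := by
    simp only [WeierstrassCurve.Δ, WeierstrassCurve.b₂, WeierstrassCurve.b₄, WeierstrassCurve.b₆,
      WeierstrassCurve.b₈, dsc]
    push_cast
    ring
  rw [h1]
  exact_mod_cast mul_ne_zero (by norm_num) hD0

/-- The twists of `y² = f(x)` by products of silent primes have rank at most one. -/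
theorem silent_dep (h : OddCubic a b c) (hD : Squarefree (dsc a b c)) (hD0 : dsc a b c < 0)
    {d : ℤ} (hd : d ≠ 0) (hs : Silent a b c d) (P Q : (twc a b c d).toAffine.Point) :
    ∃ m n : ℤ, (m ≠ 0 ∨ n ≠ 0) ∧ m • P = n • Q := by
  obtain ⟨hirr, K, iF, iN, h3, ⟨θ, hθ⟩, hodd⟩ := h
  have hhalf : ∀ P Q : (twc a b c d).toAffine.Point,
      (∃ R, P = R + R) ∨ (∃ R, Q = R + R) ∨ ∃ R, P + Q = R + R :=
    half_twist (K := K) h3 hθ hirr hD hD0 hodd hd hs
  have hell : (twc a b c d).IsElliptic := by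
    have h4 : (twc a b c d).Δ = d ^ 6 * (⟨0, a, 0, b, c⟩ : WeierstrassCurve ℚ).Δ := by
      simp only [twc, WeierstrassCurve.Δ, WeierstrassCurve.b₂, WeierstrassCurve.b₄,
        WeierstrassCurve.b₆, WeierstrassCurve.b₈]
      ring
    refine ⟨isUnit_iff_ne_zero.2 ?_⟩
    rw [h4]
    exact mul_ne_zero (pow_ne_zero 6 (Int.cast_ne_zero.2 hd)) (disc_ne hD0.ne)
  exact dep_of_half (Pool.Agent.ZCQS.fg_of_index rfl rfl hell (finiteIndex_of_half hhalf)) hhalf
    P Q

/-- Let `f` be a monic cubic polynomial over `ℤ` with a squarefree negative discriminant and a zero in a cubic field with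
an odd class number, `E : y² = f(x)`, and `F` the field generated by the square roots of all integers `d ≠ 0` such that
`f` has no zero modulo any prime divisor of `d`. All zero-cycles over `ℚ` of degree zero and sum zero on `E × E` which are
supported on `F`-rational points are torsion. -/
theorem main_silent (h : OddCubic a b c) (hD : Squarefree (dsc a b c)) (hD0 : dsc a b c < 0)
    {E₀ : WeierstrassCurve ℚ} (hE₀ : E₀ = ⟨0, a, 0, b, c⟩)
    {L : IntermediateField ℚ (AlgebraicClosure ℚ)} (hL : L = ⊥)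
    {F : IntermediateField L (AlgebraicClosure ℚ)} (hF : F = IntermediateField.adjoin L
      {s : AlgebraicClosure ℚ | ∃ d : ℤ, d ≠ 0 ∧ Silent a b c d ∧ s ^ 2 = d})
    (z : Z0N fun _ : Fin 2 => (E₀⁄L)⁄(AlgebraicClosure ℚ))
    (hz : ∀ σ : AlgebraicClosure ℚ ≃ₐ[L] AlgebraicClosure ℚ,
      z.mapDomain (fun p i => galL (E₀⁄L) σ (p i)) = z)
    (hdeg : z.sum (fun _ n => n) = 0) (hsum : ∀ i, z.sum (fun p n => n • p i) = 0)
    (hsupp : ∀ p ∈ z.support, ∀ i x y h, p i = Affine.Point.some x y h → x ∈ F ∧ y ∈ F) :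
    ∃ M : ℕ, 0 < M ∧ M • z ∈ RatEqN fun _ : Fin 2 => (E₀⁄L)⁄(AlgebraicClosure ℚ) := by
  have hell : E₀.IsElliptic := by
    rw [hE₀]
    exact ⟨isUnit_iff_ne_zero.2 (disc_ne hD0.ne)⟩
  refine main_tw hE₀ hell hL {q : ℚ | ∃ d : ℤ, q = d ∧ d ≠ 0 ∧ Silent a b c d} ?_ ?_ ?_ ?_
    (F := F) ?_ z hz hdeg hsum hsupp
  · refine ⟨1, by simp, one_ne_zero, fun p hp hp1 => ?_⟩
    exact absurd (Int.isUnit_iff.2 (Or.inl rfl) : IsUnit (1 : ℤ)) fun hu =>
      (Nat.prime_iff_prime_int.1 hp).not_isUnit (isUnit_of_dvd_unit hp1 hu)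
  · rintro _ ⟨d, rfl, hd, -⟩
    exact Int.cast_ne_zero.2 hd
  · rintro _ ⟨d, rfl, hd, hs⟩ _ ⟨d', rfl, hd', hs'⟩
    refine ⟨d * d', by push_cast; rfl, mul_ne_zero hd hd', fun p hp hpd => ?_⟩
    rcases (Nat.prime_iff_prime_int.1 hp).dvd_or_dvd hpd with h1 | h1
    · exact hs p hp h1
    · exact hs' p hp h1
  · rintro _ ⟨d, rfl, hd, hs⟩ P Q
    exact silent_dep h hD hD0 hd hs P Q
  · rw [hF]
    congr 1
    ext s
    constructor
    · rintro ⟨d, hd, hs, e⟩
      exact ⟨d, ⟨d, rfl, hd, hs⟩, by rw [e]; simp⟩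
    · rintro ⟨_, ⟨d, rfl, hd, hs⟩, e⟩
      exact ⟨d, hd, hs, by rw [e]; simp⟩

end Pool.Agent.ZCS
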