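import Pool.Agent.ZCS.OrdGen
import Pool.Agent.ZCS.Dep
import Pool.Agent.ZCS.Basis
import Pool.Agent.ZCS.TwN
import Pool.Agent.ZCS.SelDefs

/-!
# Elliptic curves with a 2-Selmer group of at most two elements

`sel_dep`: the twists of `y² = f(x)` by the numbers `d` with `Quiet a b c d` have rank at most one if the 2-Selmer group of
`y² = f(x)` over `ℚ` has at most two elements. `main_sel`, `main_selN`: the theorems on zero-cycles.
-/

set_option autoImplicit false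

noncomputable section

namespace Pool.Agent.ZCS

open WeierstrassCurve NumberField Pool.Agent.ZC Pool.Agent.ZCQ Pool.Agent.ZCQK Pool.Agent.ZCQL
open scoped Classical

variable {a b c d : ℤ}

/-- one of `P`, `Q`, `P + Q` is a double -/
private theorem dv_halfS {K : Type} [Field K] [CharZero K] {W : WeierstrassCurve ℚ} {θ : K}
    (h : Cub W θ) {P Q : W.toAffine.Point} {u u' γ γ' : K} (e : dv θ P = u * γ ^ 2)
    (e' : dv θ Q = u' * γ' ^ 2) (hU : IsSquare u ∨ IsSquare u' ∨ IsSquare (u * u')) :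
    (∃ R, P = R + R) ∨ (∃ R, Q = R + R) ∨ ∃ R, P + Q = R + R := by
  rcases hU with h1 | h1 | h1
  · left
    refine dv_ker h P ?_
    rw [e]
    exact h1.mul ⟨γ, pow_two γ⟩
  · right
    left
    refine dv_ker h Q ?_
    rw [e']
    exact h1.mul ⟨γ', pow_two γ'⟩
  · right
    right
    refine dv_ker h _ ?_
    obtain ⟨s, hs⟩ := dv_add h P Q
    obtain ⟨t, ht⟩ := h1
    have hne : dv θ P * dv θ Q ≠ 0 := mul_ne_zero (h.dv_ne_zero P) (h.dv_ne_zero Q)
    have e2 : dv θ P * dv θ Q = (t * γ * γ') * (t * γ * γ') := by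
      rw [e, e']
      linear_combination (γ ^ 2 * γ' ^ 2) * ht
    rw [e2] at hne hs
    have hne' : t * γ * γ' ≠ 0 := left_ne_zero_of_mul hne
    refine ⟨s / (t * γ * γ'), ?_⟩
    rw [div_mul_div_comm, eq_div_iff (mul_ne_zero hne' hne')]
    linear_combination hs

/-- the local condition where `d` is a square -/
private theorem loc_of_square {F : Type} [Field F] [Algebra ℚ F] {m e w : ℤ} (he : e ≠ 0)
    (hw : w ≠ 0) (hd0 : d ≠ 0) (hn : frm a b c m (d * e ^ 2) = w ^ 2) (hd : IsSquare (d : F)) :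
    Loc a b c F (Polynomial.C (m : ℚ) - Polynomial.C ((d * e ^ 2 : ℤ) : ℚ) * Polynomial.X) := by
  have : CharZero F := charZero_of_injective_algebraMap (algebraMap ℚ F).injective
  obtain ⟨t, ht⟩ := hd
  have hdF : (d : F) ≠ 0 := Int.cast_ne_zero.2 hd0
  have ht0 : t ≠ 0 := by
    rintro rfl
    exact hdF (by rw [ht, mul_zero])
  have heF : (e : F) ≠ 0 := Int.cast_ne_zero.2 he
  have hte : t * e ≠ 0 := mul_ne_zero ht0 heF
  have hnF : (m : F) ^ 3 + a * m ^ 2 * (t * e) ^ 2 + b * m * (t * e) ^ 4 + c * (t * e) ^ 6 =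
      w ^ 2 := by
    have h1 := congrArg (Int.cast : ℤ → F) hn
    rw [frm] at h1
    push_cast at h1
    rw [ht] at h1
    linear_combination h1
  refine ⟨Polynomial.C (t * e) * (Polynomial.C ((m : F) / (t * e) ^ 2) - Polynomial.X),
    Or.inr ⟨(m : F) / (t * e) ^ 2, (w : F) / (t * e) ^ 3,
      div_ne_zero (Int.cast_ne_zero.2 hw) (pow_ne_zero 3 hte), ?_, ?_⟩⟩
  · field_simp
    linear_combination -hnF
  · have h2 : (Polynomial.map (algebraMap ℚ F)
        (Polynomial.C (m : ℚ) - Polynomial.C ((d * e ^ 2 : ℤ) : ℚ) * Polynomial.X)) *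
          (Polynomial.C ((m : F) / (t * e) ^ 2) - Polynomial.X) -
        (Polynomial.C (t * e) *
          (Polynomial.C ((m : F) / (t * e) ^ 2) - Polynomial.X)) ^ 2 = 0 := by
      have h5 : Polynomial.map (algebraMap ℚ F)
          (Polynomial.C (m : ℚ) - Polynomial.C ((d * e ^ 2 : ℤ) : ℚ) * Polynomial.X) =
          Polynomial.C (m : F) - Polynomial.C (((d * e ^ 2 : ℤ) : F)) * Polynomial.X := by
        rw [Polynomial.map_sub, Polynomial.map_mul, Polynomial.map_C, Polynomial.map_C,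
          Polynomial.map_X, map_intCast (algebraMap ℚ F), map_intCast (algebraMap ℚ F)]
      rw [h5]
      have h3 : (Polynomial.C (m : F)) =
          Polynomial.C (t * e) ^ 2 * Polynomial.C ((m : F) / (t * e) ^ 2) := by
        rw [← Polynomial.C_pow, ← Polynomial.C_mul, mul_div_cancel₀ _ (pow_ne_zero 2 hte)]
      have h4 : (Polynomial.C (((d * e ^ 2 : ℤ) : F))) = Polynomial.C (t * (e : F)) ^ 2 := by
        rw [← Polynomial.C_pow]
        congr 1
        push_cast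
        rw [ht]
        ring
      rw [h3, h4]
      ring
    rw [h2]
    exact dvd_zero _

/-- the discriminant is not zero -/
private theorem dsc_neS {K : Type} [Field K] [NumberField K] {θ : K}
    (h : Cub (⟨0, a, 0, b, c⟩) θ) : dsc a b c ≠ 0 := by
  intro e
  have h1 := h.norm_deriv
  have h2 : Algebra.norm ℚ (3 * (θ : K) ^ 2 + 2 * ((a : ℚ) : K) * θ + ((b : ℚ) : K)) = 0 := by
    refine h1.trans ?_
    change -((a : ℚ) ^ 2 * b ^ 2 - 4 * b ^ 3 - 4 * a ^ 3 * c - 27 * c ^ 2 + 18 * a * b * c) = 0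
    rw [dsc] at e
    have e' : ((a : ℚ) ^ 2 * b ^ 2 - 4 * b ^ 3 - 4 * a ^ 3 * c - 27 * c ^ 2 +
      18 * a * b * c) = 0 := by exact_mod_cast e
    rw [e', neg_zero]
  have h4 := Algebra.norm_eq_zero_iff.1 h2
  have h5 := (h.li b (2 * a) 3 (by push_cast at h4 ⊢; linear_combination h4)).2.2
  norm_num at h5

variable {K : Type} [Field K] [NumberField K]

/-- The values of the descent map of the twists are Selmer elements times squares. -/
private theorem dv_sel {θ : 𝓞 K} (hd : d ≠ 0) (h : Cub (⟨0, a, 0, b, c⟩) (θ : K))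
    (hroot : θ ^ 3 + a * θ ^ 2 + b * θ + c = 0)
    (hO : ∀ x : 𝓞 K, ∃ u v w : ℤ, (2 * dsc a b c : ℤ) * x = u + v * θ + w * θ ^ 2)
    (hq : Quiet a b c d) (P : (twc a b c d).toAffine.Point) :
    ∃ α ∈ Sel a b c θ, ∃ γ : K, dv (d * θ : K) P = (α : K) * γ ^ 2 := by
  obtain ⟨hpos, hs, hloc⟩ := hq
  rcases P with _ | ⟨X, Y, hXY⟩
  · refine ⟨1, ⟨one_ne_zero, ⟨1, by simp⟩, ⟨1, 1, 0, by
      rw [Ideal.span_singleton_one, ← Ideal.one_eq_top, one_pow, one_mul], one_dvd _⟩,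
      1, by simp, ⟨1, Or.inl (by simp)⟩, fun p _ _ => ⟨1, Or.inl (by simp)⟩⟩, 1, ?_⟩
    change (1 : K) = _
    simp
  have hY : Y ^ 2 = X ^ 3 + a * d * X ^ 2 + b * d ^ 2 * X + c * d ^ 3 := by
    have h1 := (Affine.equation_iff _ _).1 hXY.1
    simp only [twc] at h1
    linear_combination h1
  obtain ⟨m, e, w, hme, he, hX, hn⟩ := exists_coords hY
  have heK : (e : K) ≠ 0 := Int.cast_ne_zero.2 he
  set α : 𝓞 K := (m : 𝓞 K) - θ * (d * e ^ 2 : ℤ) with hα
  have hαK : (α : K) = (m : K) - θ * (d * e ^ 2) := by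
    change algebraMap (𝓞 K) K α = _
    rw [hα, map_sub, map_mul, map_intCast, map_intCast]
    push_cast
    ring
  have hαX : (X : K) - d * θ = α / e ^ 2 := by
    have h1 : (X : K) * e ^ 2 = m := by exact_mod_cast hX
    rw [hαK, eq_div_iff (pow_ne_zero 2 heK)]
    linear_combination h1
  have hα0 : α ≠ 0 := by
    intro e0
    rw [e0] at hαX
    have h2 := (cub_twist hd h).sub_ne_zero X
    apply h2
    rw [hαX]
    simp
  have hN : ∀ m z : ℤ, Algebra.norm ℤ ((m : 𝓞 K) - θ * z) = frm a b c m z := by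
    intro m z
    have h1 : ((Algebra.norm ℤ ((m : 𝓞 K) - θ * z) : ℤ) : ℚ) = ((frm a b c m z : ℤ) : ℚ) := by
      rw [Algebra.coe_norm_int]
      have h2 := h.norm_sub m z
      rw [frm]
      push_cast at h2 ⊢
      exact h2
    exact_mod_cast h1
  have hNα : Algebra.norm ℤ α = w ^ 2 := by
    rw [← hn]
    exact hN m _
  have hw : w ≠ 0 := by
    rintro rfl
    have h1 : Algebra.norm ℤ α = 0 := by rw [hNα]; norm_num
    exact hα0 (Algebra.norm_eq_zero_iff.1 h1)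
  refine ⟨α, ⟨hα0, ⟨w, by rw [hNα]; ring⟩, ideal_sq_gen hroot hO hN hme he hd hs hw hn,
    Polynomial.C (m : ℚ) - Polynomial.C ((d * e ^ 2 : ℤ) : ℚ) * Polynomial.X, ?_,
    loc_of_square he hw hd hn ?_, fun p _ hp => loc_of_square he hw hd hn (hloc p hp)⟩,
    1 / (e : K), ?_⟩
  · rw [hαK]
    simp only [map_sub, map_mul, Polynomial.aeval_X, map_intCast]
    push_cast
    ring
  · exact ⟨Real.sqrt d, (Real.mul_self_sqrt (by exact_mod_cast hpos.le)).symm⟩
  · change (X : K) - d * θ = _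
    rw [hαX]
    field_simp

/-- One of `P`, `Q`, `P + Q` is a double. -/
theorem sel_half (hg : SelTwo a b c) (hq : Quiet a b c d) (P Q : (twc a b c d).toAffine.Point) :
    dsc a b c ≠ 0 ∧ ((∃ R, P = R + R) ∨ (∃ R, Q = R + R) ∨ ∃ R, P + Q = R + R) := by
  obtain ⟨hirr, K, iF, iN, θ, h3, hroot, hS⟩ := hg
  have hrootK : (θ : K) ^ 3 + a * (θ : K) ^ 2 + b * θ + c = 0 := by
    have h1 := congrArg (algebraMap (𝓞 K) K) hroot
    simpa using h1
  have h := cub_of h3 hrootK hirr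
  have hd : d ≠ 0 := hq.1.ne'
  have ht : Cub (twc a b c d) (d * θ : K) := cub_twist hd h
  refine ⟨dsc_neS h, ?_⟩
  have hO : ∀ x : 𝓞 K, ∃ u v w : ℤ, (2 * dsc a b c : ℤ) * x = u + v * θ + w * θ ^ 2 := by
    obtain ⟨m, hm, hx⟩ := discr_span (θ := θ) (by
      rw [Fintype.linearIndependent_iff]
      intro g hg
      rw [Fin.sum_univ_three] at hg
      simp only [Algebra.smul_def, eq_ratCast] at hg
      have h1 := h.li (g 0) (g 1) (g 2) (by
        have q0 : (θ : K) ^ ((0 : Fin 3) : ℕ) = 1 := by simp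
        have q1 : (θ : K) ^ ((1 : Fin 3) : ℕ) = θ := by simp
        have q2 : (θ : K) ^ ((2 : Fin 3) : ℕ) = (θ : K) ^ 2 := rfl
        rw [q0, q1, q2, mul_one] at hg
        exact hg)
      intro i
      fin_cases i
      · exact h1.1
      · exact h1.2.1
      · exact h1.2.2) h3 a b c hroot
    intro x
    obtain ⟨u, v, w, e⟩ := hx x
    refine ⟨2 * m * discr K * u, 2 * m * discr K * v, 2 * m * discr K * w, ?_⟩
    have h5 : dsc a b c = m ^ 2 * discr K := hm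
    rw [h5]
    push_cast
    linear_combination (2 * (m : 𝓞 K) * (discr K : ℤ)) * e
  obtain ⟨α, hα, γ, e⟩ := dv_sel hd h hroot hO hq P
  obtain ⟨β, hβ, γ', e'⟩ := dv_sel hd h hroot hO hq Q
  exact dv_halfS ht e e' (hS α hα β hβ)

/-- The twists of `y² = f(x)` by quiet numbers have rank at most one. -/
theorem sel_dep (hg : SelTwo a b c) (hq : Quiet a b c d) (P Q : (twc a b c d).toAffine.Point) :
    ∃ m n : ℤ, (m ≠ 0 ∨ n ≠ 0) ∧ m • P = n • Q := by
  have hD := (sel_half hg hq P Q).1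
  have hell : (twc a b c d).IsElliptic := by
    have h4 : (twc a b c d).Δ = d ^ 6 * (⟨0, a, 0, b, c⟩ : WeierstrassCurve ℚ).Δ := by
      simp only [twc, WeierstrassCurve.Δ, WeierstrassCurve.b₂, WeierstrassCurve.b₄,
        WeierstrassCurve.b₆, WeierstrassCurve.b₈]
      ring
    refine ⟨isUnit_iff_ne_zero.2 ?_⟩
    rw [h4]
    exact mul_ne_zero (pow_ne_zero 6 (Int.cast_ne_zero.2 hq.1.ne')) (disc_ne hD)
  have hh : ∀ P Q : (twc a b c d).toAffine.Point,
      (∃ R, P = R + R) ∨ (∃ R, Q = R + R) ∨ ∃ R, P + Q = R + R :=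
    fun P Q => (sel_half hg hq P Q).2
  exact dep_of_half (Pool.Agent.ZCQS.fg_of_index rfl rfl hell (finiteIndex_of_half hh)) hh P Q

theorem quiet_one (a b c : ℤ) : Quiet a b c 1 := by
  refine ⟨one_pos, fun p hp hp1 => ?_, fun p _ _ => ⟨1, by simp⟩⟩
  exact absurd (Int.isUnit_iff.2 (Or.inl rfl) : IsUnit (1 : ℤ)) fun hu =>
    (Nat.prime_iff_prime_int.1 hp).not_isUnit (isUnit_of_dvd_unit hp1 hu)

theorem Quiet.mul {d d' : ℤ} (h : Quiet a b c d) (h' : Quiet a b c d') :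
    Quiet a b c (d * d') := by
  refine ⟨mul_pos h.1 h'.1, fun p hp hpd => ?_, fun p _ hp => ?_⟩
  · rcases (Nat.prime_iff_prime_int.1 hp).dvd_or_dvd hpd with h1 | h1
    · exact h.2.1 p hp h1
    · exact h'.2.1 p hp h1
  · rw [Int.cast_mul]
    exact (h.2.2 p hp).mul (h'.2.2 p hp)

theorem SelTwo.dsc_ne (hg : SelTwo a b c) : dsc a b c ≠ 0 :=
  (sel_half hg (quiet_one a b c) 0 0).1

/-- Zero-cycles over `ℚ` of degree zero and sum zero on `E × E` supported on points over the field generated by the square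
roots of the quiet numbers. -/
theorem main_sel (hg : SelTwo a b c) {E₀ : WeierstrassCurve ℚ} (hE₀ : E₀ = ⟨0, a, 0, b, c⟩)
    {L : IntermediateField ℚ (AlgebraicClosure ℚ)} (hL : L = ⊥)
    {F : IntermediateField L (AlgebraicClosure ℚ)} (hF : F = IntermediateField.adjoin L
      {s : AlgebraicClosure ℚ | ∃ d : ℤ, Quiet a b c d ∧ s ^ 2 = d})
    (z : Z0N fun _ : Fin 2 => (E₀⁄L)⁄(AlgebraicClosure ℚ))
    (hz : ∀ σ : AlgebraicClosure ℚ ≃ₐ[L] AlgebraicClosure ℚ,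
      z.mapDomain (fun p i => galL (E₀⁄L) σ (p i)) = z)
    (hdeg : z.sum (fun _ n => n) = 0) (hsum : ∀ i, z.sum (fun p n => n • p i) = 0)
    (hsupp : ∀ p ∈ z.support, ∀ i x y h, p i = Affine.Point.some x y h → x ∈ F ∧ y ∈ F) :
    ∃ M : ℕ, 0 < M ∧ M • z ∈ RatEqN fun _ : Fin 2 => (E₀⁄L)⁄(AlgebraicClosure ℚ) := by
  have hell : E₀.IsElliptic := by
    rw [hE₀]
    exact ⟨isUnit_iff_ne_zero.2 (disc_ne hg.dsc_ne)⟩
  refine main_tw hE₀ hell hL {q : ℚ | ∃ d : ℤ, q = d ∧ Quiet a b c d}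
    ⟨1, by simp, quiet_one a b c⟩ ?_ ?_ ?_ (F := F) ?_ z hz hdeg hsum hsupp
  · rintro _ ⟨d, rfl, hd⟩
    exact Int.cast_ne_zero.2 hd.1.ne'
  · rintro _ ⟨d, rfl, hd⟩ _ ⟨d', rfl, hd'⟩
    exact ⟨d * d', by push_cast; rfl, hd.mul hd'⟩
  · rintro _ ⟨d, rfl, hd⟩ P Q
    exact sel_dep hg hd P Q
  · rw [hF]
    congr 1
    ext s
    constructor
    · rintro ⟨d, hd, e⟩
      exact ⟨d, ⟨d, rfl, hd⟩, by rw [e]; simp⟩
    · rintro ⟨_, ⟨d, rfl, hd⟩, e⟩
      exact ⟨d, hd, by rw [e]; simp⟩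

/-- Zero-cycles over `ℚ` of degree zero and sum zero on `E ^ N`, every point of the support of which is over some `ℚ(√d)`
with a quiet number `d`. -/
theorem main_selN (hg : SelTwo a b c) {E₀ : WeierstrassCurve ℚ} (hE₀ : E₀ = ⟨0, a, 0, b, c⟩)
    {L : IntermediateField ℚ (AlgebraicClosure ℚ)} (hL : L = ⊥) (N : ℕ)
    (z : Z0N fun _ : Fin N => (E₀⁄L)⁄(AlgebraicClosure ℚ))
    (hz : ∀ σ : AlgebraicClosure ℚ ≃ₐ[L] AlgebraicClosure ℚ,
      z.mapDomain (fun p i => galL (E₀⁄L) σ (p i)) = z)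
    (hdeg : z.sum (fun _ n => n) = 0) (hsum : ∀ i, z.sum (fun p n => n • p i) = 0)
    (hsupp : ∀ p ∈ z.support, ∃ (s : AlgebraicClosure ℚ) (d : ℤ), Quiet a b c d ∧
      s ^ 2 = d ∧ ∀ i x y h, p i = Affine.Point.some x y h →
        x ∈ IntermediateField.adjoin L {s} ∧ y ∈ IntermediateField.adjoin L {s}) :
    ∃ M : ℕ, 0 < M ∧ M • z ∈ RatEqN fun _ : Fin N => (E₀⁄L)⁄(AlgebraicClosure ℚ) := by
  have hell : E₀.IsElliptic := by
    rw [hE₀]
    exact ⟨isUnit_iff_ne_zero.2 (disc_ne hg.dsc_ne)⟩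
  refine main_twN hE₀ hell hL {q : ℚ | ∃ d : ℤ, q = d ∧ Quiet a b c d}
    ⟨1, by simp, quiet_one a b c⟩ ?_ ?_ ?_ N z hz hdeg hsum fun p hp => ?_
  · rintro _ ⟨d, rfl, hd⟩
    exact Int.cast_ne_zero.2 hd.1.ne'
  · rintro _ ⟨d, rfl, hd⟩ _ ⟨d', rfl, hd'⟩
    exact ⟨d * d', by push_cast; rfl, hd.mul hd'⟩
  · rintro _ ⟨d, rfl, hd⟩ P Q
    exact sel_dep hg hd P Q
  · obtain ⟨s, d, hd, e, h⟩ := hsupp p hp
    exact ⟨s, ⟨d, ⟨d, rfl, hd⟩, by rw [e]; simp⟩, h⟩

end Pool.Agent.ZCS
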