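import Pool.Agent.SLow.Dens

/-!
# Primes of higher degree do not contribute to the density

`bounded_deg`: the sums `∑ N q ^ (-s)` over primes whose norm is not a prime number or in a finite
set are bounded. `exists_deg_one`: in the density theorem one finds infinitely many primes of
degree one.
-/

set_option autoImplicit false

noncomputable section

namespace Pool.Agent.ZCS

open NumberField Pool.Agent.StarkRQ Pool.Agent.StarkU Pool.Agent.SLow

section

variable {k : Type} [Field k] [NumberField k]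

set_option linter.deprecated false
set_option linter.unusedSectionVars false

/-- The prime number below a prime ideal. -/
private def und (q : Ideal (𝓞 k)) : ℕ := Ideal.absNorm (q.under ℤ)

private theorem und_prime {q : Ideal (𝓞 k)} (hq : q.IsPrime) (h0 : q ≠ ⊥) : (und q).Prime := by
  have : NeZero q := ⟨h0⟩
  exact Nat.absNorm_under_prime q

private theorem exists_pow {q : Ideal (𝓞 k)} (hq : q.IsPrime) (h0 : q ≠ ⊥) :
    ∃ f : ℕ, f ≠ 0 ∧ Ideal.absNorm q = und q ^ f := by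
  have : q.LiesOver (Ideal.span {((und q : ℕ) : ℤ)}) :=
    inferInstanceAs (q.LiesOver (Ideal.span {((Ideal.absNorm (q.under ℤ) : ℕ) : ℤ)}))
  have h1 := Ideal.absNorm_eq_pow_inertiaDeg' q (und_prime hq h0)
  refine ⟨_, ?_, h1⟩
  intro h2
  rw [h2, pow_zero] at h1
  exact hq.ne_top (Ideal.absNorm_eq_one_iff.1 h1)

/-- Each prime number lies below boundedly many prime ideals. -/
private theorem exists_enum (k : Type) [Field k] [NumberField k] :
    ∃ (n : ℕ) (F : Ideal (𝓞 k) → ℕ × Fin n), (∀ q, q.IsPrime → q ≠ ⊥ → (F q).1 = und q) ∧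
      Set.InjOn F {q | q.IsPrime ∧ q ≠ ⊥} := by
  classical
  set n : ℕ := Module.finrank ℚ k + 1 with hn
  have h : ∀ p : ℕ, ∃ e : Ideal (𝓞 k) → Fin n,
      Set.InjOn e {q | (q.IsPrime ∧ q ≠ ⊥) ∧ und q = p} := by
    intro p
    by_cases hp : p.Prime
    · have hp' : Prime (p : ℤ) := Nat.prime_iff_prime_int.1 hp
      have hpI : (Ideal.span {(p : ℤ)}).IsPrime := by
        rwa [Ideal.span_singleton_prime hp'.ne_zero]
      have hp0 : Ideal.span {(p : ℤ)} ≠ ⊥ := by simpa using hp'.ne_zero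
      have hmax : (Ideal.span {(p : ℤ)}).IsMaximal := hpI.isMaximal hp0
      set S := IsDedekindDomain.primesOverFinset (Ideal.span {(p : ℤ)}) (𝓞 k) with hS
      have hcard : S.card ≤ Module.finrank ℚ k :=
        Ideal.card_primesOverFinset_le_finrank (𝓞 k) ℚ k hp0
      have hsub : {q : Ideal (𝓞 k) | (q.IsPrime ∧ q ≠ ⊥) ∧ und q = p} ⊆ S := by
        rintro q ⟨⟨hq, hq0⟩, rfl⟩
        rw [Finset.mem_coe, hS, IsDedekindDomain.mem_primesOverFinset_iff hp0]
        exact ⟨hq, inferInstanceAs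
          (q.LiesOver (Ideal.span {((Ideal.absNorm (q.under ℤ) : ℕ) : ℤ)}))⟩
      have e : S ↪ Fin n := by
        refine (Fintype.equivFin S).toEmbedding.trans (Fin.castLEEmb ?_)
        rw [Fintype.card_coe]
        omega
      refine ⟨fun q => if hq : q ∈ S then e ⟨q, hq⟩ else 0, ?_⟩
      intro q hq q' hq' hqq
      have h1 := hsub hq
      have h2 := hsub hq'
      rw [Finset.mem_coe] at h1 h2
      simp only [dif_pos h1, dif_pos h2] at hqq
      exact congrArg Subtype.val (e.injective hqq)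
    · refine ⟨fun _ => 0, ?_⟩
      rintro q ⟨⟨hq, hq0⟩, rfl⟩
      exact absurd (und_prime hq hq0) hp
  choose e he using h
  refine ⟨n, fun q => (und q, e (und q) q), fun q _ _ => rfl, ?_⟩
  rintro q hq q' hq' hqq
  have h1 := (Prod.mk.injEq .. ▸ hqq).1
  have h2 := (Prod.mk.injEq .. ▸ hqq).2
  rw [← h1] at h2
  exact he _ ⟨hq, rfl⟩ ⟨hq', h1.symm⟩ h2

theorem bounded_deg (T : Finset ℕ) (P : Ideal (𝓞 k) → Prop)
    (hP : ∀ q : Ideal (𝓞 k), q.IsPrime → q ≠ ⊥ → P q →
      (Ideal.absNorm q).Prime → Ideal.absNorm q ∈ T) :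
    ∃ C : ℝ, ∀ s : ℝ, 1 < s → s < 2 →
      ∑' q : {q : Ideal (𝓞 k) // (q.IsPrime ∧ q ≠ ⊥) ∧ P q},
        (Ideal.absNorm (q : Ideal (𝓞 k)) : ℝ) ^ (-s) ≤ C := by
  classical
  obtain ⟨n, F, hF, hinj⟩ := exists_enum k
  set g : ℕ → ℝ := fun p => 1 / (p : ℝ) ^ 2 + if p ∈ T then 1 else 0 with hg
  have hgs : Summable g := by
    refine (Real.summable_one_div_nat_pow.2 one_lt_two).add ?_
    exact summable_of_finite_support (T.finite_toSet.subset fun p hp => by
      by_contra h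
      apply hp
      exact if_neg h)
  have hg0 : ∀ p, 0 ≤ g p := by
    intro p
    simp only [hg]
    split_ifs <;> positivity
  have hGs : Summable fun x : ℕ × Fin n => g x.1 := by
    have h1 : Summable fun x : ℕ × Fin n => g x.1 * (1 : ℝ) :=
      Summable.mul_of_nonneg hgs (f := g) (g := fun _ : Fin n => (1 : ℝ))
        (summable_of_finite_support (Set.toFinite _)) (fun p => hg0 p) (fun _ => zero_le_one)
    simpa using h1
  have hFi : Function.Injective fun q : {q : Ideal (𝓞 k) // (q.IsPrime ∧ q ≠ ⊥) ∧ P q} =>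
      F q := by
    intro q q' h
    exact Subtype.ext (hinj q.2.1 q'.2.1 h)
  have hcomp := hGs.comp_injective hFi
  refine ⟨∑' q : {q : Ideal (𝓞 k) // (q.IsPrime ∧ q ≠ ⊥) ∧ P q}, g (F q).1, fun s hs hs' => ?_⟩
  refine (summable_primes P hs).tsum_le_tsum (fun q => ?_) hcomp
  obtain ⟨q, ⟨hq, hq0⟩, hPq⟩ := q
  change (Ideal.absNorm q : ℝ) ^ (-s) ≤ g (F q).1
  rw [hF q hq hq0]
  have hp := und_prime hq hq0
  obtain ⟨f, hf, hN⟩ := exists_pow hq hq0
  have hp1 : (1 : ℝ) < und q := by exact_mod_cast hp.one_lt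
  rcases Nat.lt_or_ge f 2 with h2 | h2
  · have hf1 : f = 1 := by omega
    rw [hf1, pow_one] at hN
    have h3 := hP q hq hq0 hPq (by rw [hN]; exact hp)
    rw [hN] at h3
    simp only [hg]
    rw [if_pos h3, hN]
    have h4 : ((und q : ℕ) : ℝ) ^ (-s) ≤ 1 :=
      Real.rpow_le_one_of_one_le_of_nonpos hp1.le (by linarith)
    have h5 : (0 : ℝ) ≤ 1 / ((und q : ℕ) : ℝ) ^ 2 := by positivity
    linarith
  · have h3 : ((und q : ℕ) : ℝ) ^ 2 ≤ (Ideal.absNorm q : ℝ) := by
      rw [hN]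
      push_cast
      exact pow_le_pow_right₀ hp1.le h2
    have h4 : (1 : ℝ) ≤ (Ideal.absNorm q : ℝ) := by
      nlinarith
    have h5 : (Ideal.absNorm q : ℝ) ^ (-s) ≤ (Ideal.absNorm q : ℝ) ^ (-1 : ℝ) :=
      Real.rpow_le_rpow_of_exponent_le h4 (by linarith)
    rw [Real.rpow_neg_one] at h5
    have h6 : (Ideal.absNorm q : ℝ)⁻¹ ≤ 1 / ((und q : ℕ) : ℝ) ^ 2 := by
      rw [inv_eq_one_div]
      exact one_div_le_one_div_of_le (by positivity) h3
    have h7 : (0 : ℝ) ≤ if und q ∈ T then 1 else 0 := by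
      split_ifs <;> norm_num
    simp only [hg]
    linarith

end

/-- For a nontrivial abelian extension there are infinitely many prime numbers which are norms of
primes with a nontrivial Frobenius element (outside any modulus). -/
theorem exists_deg_one {K L : Type} [Field K] [NumberField K] [Field L] [NumberField L]
    [Algebra K L] [IsAbelianGalois K L] {m : Ideal (𝓞 K)} (h0 : m ≠ ⊥)
    (hur : ∀ 𝔮 : Ideal (𝓞 K), 𝔮.IsPrime → 𝔮 ≠ ⊥ → IsCoprime 𝔮 m → UnrAt L 𝔮)
    {U : Subgroup Gal(L/K)} (hU : U ≠ ⊤) (T : Finset ℕ) :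
    ∃ q : Ideal (𝓞 K), q.IsPrime ∧ q ≠ ⊥ ∧ ¬ m ≤ q ∧ (∀ φ : Gal(L/K), IsFrob q φ → φ ∉ U) ∧
      (Ideal.absNorm q).Prime ∧ Ideal.absNorm q ∉ T := by
  by_contra hcon
  push Not at hcon
  obtain ⟨C, hC⟩ := density h0 hur hU
  obtain ⟨C', hC'⟩ := bounded_deg (k := K) T (fun q => ¬ m ≤ q ∧
    ∀ φ : Gal(L/K), IsFrob q φ → φ ∉ U) fun q hq hq0 h hN => hcon q hq hq0 h.1 h.2 hN
  have h1 : ∀ s : ℝ, 1 < s → s < 2 → 1 / 2 * Real.log (1 / (s - 1)) ≤ C + C' := by
    intro s hs hs'
    have h2 := hC s hs hs'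
    have h3 := hC' s hs hs'
    linarith
  have h2 := h1 (1 + Real.exp (-(2 * (|C + C'| + 1)))) (by
      have := Real.exp_pos (-(2 * (|C + C'| + 1)))
      linarith) (by
      have : Real.exp (-(2 * (|C + C'| + 1))) < 1 := by
        rw [Real.exp_lt_one_iff]
        have := abs_nonneg (C + C')
        linarith
      linarith)
  rw [add_sub_cancel_left, one_div (Real.exp _), ← Real.exp_neg, Real.log_exp] at h2
  have := le_abs_self (C + C')
  linarith

end Pool.Agent.ZCS
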