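import Mathlib

/-!
# The descent by two for curves `y² = g(x)` with an irreducible cubic polynomial `g`

`dv θ`: the map `(x, y) ↦ x - θ`. `dv_add`: it is a homomorphism up to squares. `dv_ker`: its kernel is the group of the
doubles. `dv_half`: if the values are in a group with at most two square classes, then one of `P`, `Q`, `P + Q` is a
double.
-/

set_option autoImplicit false

noncomputable section

namespace Pool.Agent.ZCS

open WeierstrassCurve
open scoped Classical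

variable {K : Type} [Field K] [CharZero K] {W : WeierstrassCurve ℚ}

/-- `(x, y) ↦ x - θ` -/
def dv (θ : K) (P : W.toAffine.Point) : K :=
  match P with
  | .zero => 1
  | .some x _ _ => (x : K) - θ

/-- `θ` is a root of the cubic polynomial of the curve, and `1, θ, θ²` are linearly independent over `ℚ` and generate
`K`. -/
structure Cub (W : WeierstrassCurve ℚ) (θ : K) : Prop where
  a1 : W.a₁ = 0
  a3 : W.a₃ = 0
  root : θ ^ 3 + (W.a₂ : K) * θ ^ 2 + (W.a₄ : K) * θ + (W.a₆ : K) = 0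
  li : ∀ u v w : ℚ, (u : K) + v * θ + w * θ ^ 2 = 0 → u = 0 ∧ v = 0 ∧ w = 0
  span : ∀ γ : K, ∃ u v w : ℚ, γ = (u : K) + v * θ + w * θ ^ 2

theorem Cub.sub_ne_zero {θ : K} (h : Cub W θ) (x : ℚ) : (x : K) - θ ≠ 0 := by
  intro e
  have h1 := h.li x (-1) 0 (by push_cast; linear_combination e)
  exact absurd h1.2.1 (by norm_num)

theorem Cub.no_root {θ : K} (h : Cub W θ) (s : ℚ) :
    s ^ 3 + W.a₂ * s ^ 2 + W.a₄ * s + W.a₆ ≠ 0 := by
  intro e
  have e' : (s : K) ^ 3 + W.a₂ * s ^ 2 + W.a₄ * s + W.a₆ = 0 := by exact_mod_cast e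
  have h1 : ((s : K) - θ) * (((s ^ 2 + W.a₂ * s + W.a₄ : ℚ) : K) + ((s + W.a₂ : ℚ) : K) * θ +
      ((1 : ℚ) : K) * θ ^ 2) = 0 := by
    push_cast
    linear_combination e' - h.root
  have h2 := h.li _ _ _ ((mul_eq_zero.1 h1).resolve_left (h.sub_ne_zero s))
  exact absurd h2.2.2 one_ne_zero

theorem Cub.dv_ne_zero {θ : K} (h : Cub W θ) (P : W.toAffine.Point) : dv θ P ≠ 0 := by
  rcases P with _ | ⟨x, y, hxy⟩
  · exact one_ne_zero
  · exact h.sub_ne_zero x

/-- The relations between the abscissas of three collinear points. -/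
private theorem collinear (a1 : W.a₁ = 0) (a3 : W.a₃ = 0) {x₁ x₂ y₁ y₂ : ℚ}
    (h₁ : W.toAffine.Equation x₁ y₁)
    (h₂ : W.toAffine.Equation x₂ y₂) (hxy : ¬(x₁ = x₂ ∧ y₁ = W.toAffine.negY x₂ y₂)) :
    ∃ l n : ℚ, x₁ + x₂ + W.toAffine.addX x₁ x₂ (W.toAffine.slope x₁ x₂ y₁ y₂) =
        -W.a₂ + l ^ 2 ∧
      x₁ * x₂ + x₁ * W.toAffine.addX x₁ x₂ (W.toAffine.slope x₁ x₂ y₁ y₂) +
        x₂ * W.toAffine.addX x₁ x₂ (W.toAffine.slope x₁ x₂ y₁ y₂) =
        W.a₄ - 2 * l * n ∧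
      x₁ * x₂ * W.toAffine.addX x₁ x₂ (W.toAffine.slope x₁ x₂ y₁ y₂) =
        -W.a₆ + n ^ 2 := by
  have h3 := Affine.addPolynomial_slope h₁ h₂ hxy
  rw [Affine.addPolynomial_eq, neg_inj, Cubic.prod_X_sub_C_eq, Cubic.toPoly_injective,
    a1, a3] at h3
  simp only [Cubic.mk.injEq] at h3
  obtain ⟨-, h4, h5, h6⟩ := h3
  refine ⟨W.toAffine.slope x₁ x₂ y₁ y₂, y₁ - W.toAffine.slope x₁ x₂ y₁ y₂ * x₁, ?_, ?_, ?_⟩
  · linear_combination h4
  · linear_combination -h5
  · linear_combination h6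

/-- The map `x - θ` is a homomorphism up to squares. -/
theorem dv_add {θ : K} (h : Cub W θ) (P Q : W.toAffine.Point) :
    IsSquare (dv θ P * dv θ Q * dv θ (P + Q)) := by
  match P, Q with
  | 0, Q =>
    rw [zero_add]
    refine ⟨dv θ Q, ?_⟩
    change 1 * _ * _ = _
    ring
  | .some x₁ y₁ h₁, 0 =>
    rw [add_zero]
    refine ⟨dv θ (.some x₁ y₁ h₁ : W.toAffine.Point), ?_⟩
    change _ * 1 * _ = _
    ring
  | .some x₁ y₁ h₁, .some x₂ y₂ h₂ =>
    by_cases hxy : x₁ = x₂ ∧ y₁ = W.toAffine.negY x₂ y₂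
    · rw [Affine.Point.add_of_Y_eq hxy.1 hxy.2]
      refine ⟨(x₁ : K) - θ, ?_⟩
      change ((x₁ : K) - θ) * ((x₂ : K) - θ) * 1 = _
      rw [hxy.1]
      ring
    · rw [Affine.Point.add_some hxy]
      obtain ⟨l, n, s1, s2, s3⟩ := collinear h.a1 h.a3 h₁.1 h₂.1 hxy
      set x₃ := W.toAffine.addX x₁ x₂ (W.toAffine.slope x₁ x₂ y₁ y₂) with hx3
      refine ⟨(l : K) * θ + n, ?_⟩
      change ((x₁ : K) - θ) * ((x₂ : K) - θ) * ((x₃ : K) - θ) = _
      have s1' : (x₁ : K) + x₂ + x₃ = -W.a₂ + l ^ 2 := by exact_mod_cast s1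
      have s2' : (x₁ : K) * x₂ + x₁ * x₃ + x₂ * x₃ = W.a₄ - 2 * l * n := by exact_mod_cast s2
      have s3' : (x₁ : K) * x₂ * x₃ = -W.a₆ + n ^ 2 := by exact_mod_cast s3
      linear_combination θ ^ 2 * s1' - θ * s2' + s3' - h.root

private theorem point_ext {x y x' y' : ℚ} {hP : W.toAffine.Nonsingular x y}
    {hP' : W.toAffine.Nonsingular x' y'} (hx : x = x') (hy : y = y') :
    Affine.Point.some x y hP = Affine.Point.some x' y' hP' := by
  subst hx
  subst hy
  rfl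

/-- The kernel of the descent map is the group of the doubles. -/
theorem dv_ker {θ : K} (h : Cub W θ) (P : W.toAffine.Point) (hP : IsSquare (dv θ P)) :
    ∃ R, P = R + R := by
  rcases P with _ | ⟨x, y, hxy⟩
  · exact ⟨0, (add_zero _).symm⟩
  obtain ⟨γ, hγ⟩ := hP
  change (x : K) - θ = γ * γ at hγ
  obtain ⟨u, v, w, rfl⟩ := h.span γ
  have hr := h.root
  have e1 := h.li (u ^ 2 - 2 * v * w * W.a₆ + w ^ 2 * W.a₂ * W.a₆ - x)
    (2 * u * v - 2 * v * w * W.a₄ + w ^ 2 * (W.a₂ * W.a₄ - W.a₆) + 1)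
    (v ^ 2 + 2 * u * w - 2 * v * w * W.a₂ + w ^ 2 * (W.a₂ ^ 2 - W.a₄)) (by
      push_cast
      linear_combination -hγ - (2 * v * w + w ^ 2 * θ - w ^ 2 * W.a₂) * hr)
  obtain ⟨-, e2, e3⟩ := e1
  have hw : w ≠ 0 := by
    rintro rfl
    have hv : v = 0 := by
      have : v ^ 2 = 0 := by linear_combination e3
      exact pow_eq_zero_iff two_ne_zero |>.1 this
    rw [hv] at e2
    norm_num at e2
  obtain ⟨s, hs⟩ : ∃ s : ℚ, s * w = v - w * W.a₂ := ⟨(v - w * W.a₂) / w, div_mul_cancel₀ _ hw⟩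
  have hs' : (s : K) * w = v - w * W.a₂ := by exact_mod_cast hs
  set r₁ : ℚ := s * v - u + w * W.a₄ with hr1
  set r₀ : ℚ := s * u + w * W.a₆ with hr0
  have k1 : ((s : K) - θ) * ((u : K) + v * θ + w * θ ^ 2) = r₁ * θ + r₀ := by
    rw [hr1, hr0]
    push_cast
    linear_combination θ ^ 2 * hs' - w * hr
  have k2 : ((s : K) - θ) ^ 2 * ((x : K) - θ) = (r₁ * θ + r₀) ^ 2 := by
    rw [← k1, hγ]
    ring
  have e4 := h.li (s ^ 2 * x - r₀ ^ 2 + W.a₆) (-(s ^ 2) - 2 * s * x - 2 * r₁ * r₀ + W.a₄)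
    (x + 2 * s - r₁ ^ 2 + W.a₂) (by
      push_cast
      linear_combination k2 + hr)
  obtain ⟨f0, f1, f2⟩ := e4
  set t : ℚ := r₁ * s + r₀ with ht
  have hts : t ^ 2 = s ^ 3 + W.a₂ * s ^ 2 + W.a₄ * s + W.a₆ := by
    rw [ht]
    linear_combination -f0 - s * f1 - s ^ 2 * f2
  have ht0 : t ≠ 0 := by
    intro e
    apply h.no_root s
    rw [← hts, e]
    ring
  have hns : W.toAffine.Nonsingular s t := by
    rw [Affine.nonsingular_iff]
    constructor
    · rw [Affine.equation_iff, h.a1, h.a3]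
      linear_combination hts
    · right
      rw [h.a1, h.a3]
      intro e
      apply ht0
      linarith
  have hneg : W.toAffine.negY s t = -t := by
    rw [Affine.negY, h.a1, h.a3]
    ring
  have hne : ¬ (s = s ∧ t = W.toAffine.negY s t) := by
    rintro ⟨-, e⟩
    rw [hneg] at e
    apply ht0
    linarith
  have hsl : W.toAffine.slope s s t t = r₁ := by
    rw [Affine.slope_of_Y_ne rfl (fun e => hne ⟨rfl, e⟩), hneg, h.a1,
      div_eq_iff (by
        intro e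
        apply ht0
        linarith)]
    rw [ht]
    linear_combination f1 + 2 * s * f2
  have hX : W.toAffine.addX s s (W.toAffine.slope s s t t) = x := by
    rw [hsl, Affine.addX, h.a1]
    linear_combination -f2
  have hY : W.toAffine.addY s s t (W.toAffine.slope s s t t) = -(r₁ * x + r₀) := by
    rw [Affine.addY, hX, Affine.negAddY, hX, hsl, Affine.negY, h.a1, h.a3, ht]
    ring
  have hyx : y ^ 2 = (r₁ * x + r₀) ^ 2 := by
    have h2 := (Affine.equation_iff _ _).1 hxy.1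
    rw [h.a1, h.a3] at h2
    linear_combination h2 + f0 + x * f1 + x ^ 2 * f2
  rcases sq_eq_sq_iff_eq_or_eq_neg.1 hyx with hy | hy
  · refine ⟨-(.some s t hns), ?_⟩
    rw [← neg_add, Affine.Point.add_some hne, Affine.Point.neg_some]
    refine point_ext hX.symm ?_
    rw [Affine.negY, h.a1, h.a3, hY, hy]
    ring
  · refine ⟨.some s t hns, ?_⟩
    rw [Affine.Point.add_some hne]
    exact point_ext hX.symm (hy.trans hY.symm)

/-- If the values of the descent map are in a group `U` modulo squares in which one of `u`, `u'`, `u * u'` is always a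
square, then one of `P`, `Q`, `P + Q` is a double. -/
theorem dv_half {θ : K} (h : Cub W θ) (U : Set K)
    (hU : ∀ u ∈ U, ∀ u' ∈ U, IsSquare u ∨ IsSquare u' ∨ IsSquare (u * u'))
    (hd : ∀ P : W.toAffine.Point, ∃ u ∈ U, ∃ γ : K, dv θ P = u * γ ^ 2)
    (P Q : W.toAffine.Point) :
    (∃ R, P = R + R) ∨ (∃ R, Q = R + R) ∨ ∃ R, P + Q = R + R := by
  obtain ⟨u, hu, γ, e⟩ := hd P
  obtain ⟨u', hu', γ', e'⟩ := hd Q
  rcases hU u hu u' hu' with h1 | h1 | h1
  · left
    refine dv_ker h P ?_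
    rw [e]
    exact h1.mul ⟨γ, pow_two γ⟩
  · right
    left
    refine dv_ker h Q ?_
    rw [e']
    exact h1.mul ⟨γ', pow_two γ'⟩
  · right
    right
    refine dv_ker h _ ?_
    obtain ⟨s, hs⟩ := dv_add h P Q
    obtain ⟨t, ht⟩ := h1
    have hne : dv θ P * dv θ Q ≠ 0 := mul_ne_zero (h.dv_ne_zero P) (h.dv_ne_zero Q)
    have e2 : dv θ P * dv θ Q = (t * γ * γ') * (t * γ * γ') := by
      rw [e, e']
      linear_combination (γ ^ 2 * γ' ^ 2) * ht
    rw [e2] at hne hs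
    have hne' : t * γ * γ' ≠ 0 := left_ne_zero_of_mul hne
    refine ⟨s / (t * γ * γ'), ?_⟩
    rw [div_mul_div_comm, eq_div_iff (mul_ne_zero hne' hne')]
    linear_combination hs

end Pool.Agent.ZCS
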