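import Mathlib

/-!
# Discriminants of cubic fields
-/

namespace Pool.Agent.ZCS

open Module NumberField

section

variable {K : Type*} [Field K] [NumberField K]

/-- The basis `1, θ, θ ^ 2`. -/
noncomputable def cb (θ : K) (h : LinearIndependent ℚ (fun i : Fin 3 => θ ^ (i : ℕ)))
    (hd : finrank ℚ K = 3) : Basis (Fin 3) ℚ K :=
  basisOfLinearIndependentOfCardEqFinrank h (by rw [hd, Fintype.card_fin])

theorem cb_apply (θ : K) (h : LinearIndependent ℚ (fun i : Fin 3 => θ ^ (i : ℕ)))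
    (hd : finrank ℚ K = 3) (i : Fin 3) : cb θ h hd i = θ ^ (i : ℕ) := by
  unfold cb
  rw [coe_basisOfLinearIndependentOfCardEqFinrank]

theorem cb_repr (θ : K) (h : LinearIndependent ℚ (fun i : Fin 3 => θ ^ (i : ℕ)))
    (hd : finrank ℚ K = 3) (x : K) (u v w : ℚ)
    (hx : x = algebraMap ℚ K u + algebraMap ℚ K v * θ + algebraMap ℚ K w * θ ^ 2) (i : Fin 3) :
    (cb θ h hd).repr x i = ![u, v, w] i := by
  have h1 : x = ∑ j : Fin 3, ![u, v, w] j • cb θ h hd j := by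
    rw [Fin.sum_univ_three, cb_apply, cb_apply, cb_apply, hx]
    simp [Algebra.smul_def]
  rw [h1, Basis.repr_sum_self]

theorem trace_one' (hd : finrank ℚ K = 3) : Algebra.trace ℚ K 1 = 3 := by
  have h := Algebra.trace_algebraMap (R := ℚ) (S := K) (1 : ℚ)
  rw [map_one] at h
  rw [h, hd]
  norm_num

theorem trace_cubic (θ : K) (h : LinearIndependent ℚ (fun i : Fin 3 => θ ^ (i : ℕ)))
    (hd : finrank ℚ K = 3) (a b c : ℚ)
    (hθ : θ ^ 3 = -(algebraMap ℚ K a * θ ^ 2 + algebraMap ℚ K b * θ + algebraMap ℚ K c)) :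
    Algebra.trace ℚ K θ = -a ∧ Algebra.trace ℚ K (θ ^ 2) = a ^ 2 - 2 * b := by
  have h0 : ∀ i, (cb θ h hd).repr θ i = ![0, 1, 0] i := cb_repr θ h hd θ 0 1 0 (by simp)
  have h2 : ∀ i, (cb θ h hd).repr (θ ^ 2) i = ![0, 0, 1] i :=
    cb_repr θ h hd (θ ^ 2) 0 0 1 (by simp)
  have h3 : ∀ i, (cb θ h hd).repr (θ ^ 3) i = ![-c, -b, -a] i :=
    cb_repr θ h hd (θ ^ 3) (-c) (-b) (-a) (by rw [hθ]; simp only [map_neg]; ring)
  have h4 : ∀ i, (cb θ h hd).repr (θ ^ 4) i = ![a * c, a * b - c, a ^ 2 - b] i :=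
    cb_repr θ h hd (θ ^ 4) _ _ _ (by
      have h5 : θ ^ 4 = θ * θ ^ 3 := by ring
      rw [h5, hθ]
      have h6 : θ * -(algebraMap ℚ K a * θ ^ 2 + algebraMap ℚ K b * θ + algebraMap ℚ K c) =
          -(algebraMap ℚ K a * θ ^ 3 + algebraMap ℚ K b * θ ^ 2 + algebraMap ℚ K c * θ) := by
        ring
      rw [h6, hθ]
      simp only [map_mul, map_sub, map_pow]
      ring)
  constructor
  · rw [Algebra.trace_eq_matrix_trace (cb θ h hd), Matrix.trace_fin_three,
      Algebra.leftMulMatrix_eq_repr_mul, Algebra.leftMulMatrix_eq_repr_mul,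
      Algebra.leftMulMatrix_eq_repr_mul, cb_apply, cb_apply, cb_apply]
    have e0 : θ * θ ^ ((0 : Fin 3) : ℕ) = θ := by simp
    have e1 : θ * θ ^ ((1 : Fin 3) : ℕ) = θ ^ 2 := by simp [sq]
    have e2 : θ * θ ^ ((2 : Fin 3) : ℕ) = θ ^ 3 := by
      change θ * θ ^ 2 = θ ^ 3
      ring
    rw [e0, e1, e2, h0, h2, h3]
    simp
  · rw [Algebra.trace_eq_matrix_trace (cb θ h hd), Matrix.trace_fin_three,
      Algebra.leftMulMatrix_eq_repr_mul, Algebra.leftMulMatrix_eq_repr_mul,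
      Algebra.leftMulMatrix_eq_repr_mul, cb_apply, cb_apply, cb_apply]
    have e0 : θ ^ 2 * θ ^ ((0 : Fin 3) : ℕ) = θ ^ 2 := by simp
    have e1 : θ ^ 2 * θ ^ ((1 : Fin 3) : ℕ) = θ ^ 3 := by
      change θ ^ 2 * θ ^ 1 = θ ^ 3
      ring
    have e2 : θ ^ 2 * θ ^ ((2 : Fin 3) : ℕ) = θ ^ 4 := by
      change θ ^ 2 * θ ^ 2 = θ ^ 4
      ring
    rw [e0, e1, e2, h2, h3, h4]
    simp
    ring

/-- The discriminant of `1, θ, θ ^ 2`. -/
theorem discr_cb (θ : K) (h : LinearIndependent ℚ (fun i : Fin 3 => θ ^ (i : ℕ)))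
    (hd : finrank ℚ K = 3) (a b c : ℚ)
    (hθ : θ ^ 3 = -(algebraMap ℚ K a * θ ^ 2 + algebraMap ℚ K b * θ + algebraMap ℚ K c)) :
    Algebra.discr ℚ (cb θ h hd) =
      a ^ 2 * b ^ 2 - 4 * b ^ 3 - 4 * a ^ 3 * c - 27 * c ^ 2 + 18 * a * b * c := by
  obtain ⟨t1, t2⟩ := trace_cubic θ h hd a b c hθ
  have t0 := trace_one' (K := K) hd
  have t3 : Algebra.trace ℚ K (θ ^ 3) = -a * (a ^ 2 - 2 * b) - b * -a - c * 3 := by
    rw [hθ, map_neg, map_add, map_add, ← Algebra.smul_def, ← Algebra.smul_def, map_smul,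
      map_smul, t1, t2, Algebra.trace_algebraMap, hd]
    simp only [smul_eq_mul, nsmul_eq_mul]
    push_cast
    ring
  have t4 : Algebra.trace ℚ K (θ ^ 4) =
      -a * (-a * (a ^ 2 - 2 * b) - b * -a - c * 3) - b * (a ^ 2 - 2 * b) - c * -a := by
    have h5 : θ ^ 4 = -(algebraMap ℚ K a * θ ^ 3 + algebraMap ℚ K b * θ ^ 2 +
        algebraMap ℚ K c * θ) := by
      have h6 : θ ^ 4 = θ * θ ^ 3 := by ring
      rw [h6, hθ]
      ring_nf
      have h7 : θ ^ 3 = -(algebraMap ℚ K a * θ ^ 2 + algebraMap ℚ K b * θ +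
        algebraMap ℚ K c) := hθ
      rw [h7]
      ring
    rw [h5, map_neg, map_add, map_add, ← Algebra.smul_def, ← Algebra.smul_def,
      ← Algebra.smul_def, map_smul, map_smul, map_smul, t1, t2, t3]
    simp only [smul_eq_mul]
    ring
  rw [Algebra.discr_def, Matrix.det_fin_three]
  simp only [Algebra.traceMatrix_apply, Algebra.traceForm_apply, cb_apply]
  have e : ∀ i j : ℕ, θ ^ i * θ ^ j = θ ^ (i + j) := fun i j => (pow_add θ i j).symm
  simp only [e]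
  have q0 : ((0 : Fin 3) : ℕ) = 0 := rfl
  have q1 : ((1 : Fin 3) : ℕ) = 1 := rfl
  have q2 : ((2 : Fin 3) : ℕ) = 2 := rfl
  simp only [q0, q1, q2]
  norm_num [t0, t1, t2, t3, t4]
  ring

/-- The discriminant of the field differs from the discriminant of the polynomial by a square. -/
theorem discr_dvd {θ : K} (h : LinearIndependent ℚ (fun i : Fin 3 => θ ^ (i : ℕ)))
    (hd : finrank ℚ K = 3) (a b c : ℤ) (hθ : θ ^ 3 + a * θ ^ 2 + b * θ + c = 0) :
    ∃ m : ℤ, a ^ 2 * b ^ 2 - 4 * b ^ 3 - 4 * a ^ 3 * c - 27 * c ^ 2 + 18 * a * b * c =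
      m ^ 2 * discr K := by
  classical
  have hint : IsIntegral ℤ θ := by
    refine ⟨Polynomial.X ^ 3 + (Polynomial.C a * Polynomial.X ^ 2 + Polynomial.C b * Polynomial.X
      + Polynomial.C c), ?_, ?_⟩
    · monicity!
    · simp only [Polynomial.eval₂_add, Polynomial.eval₂_pow, Polynomial.eval₂_X,
        Polynomial.eval₂_mul, Polynomial.eval₂_C, algebraMap_int_eq, Int.coe_castRingHom]
      rw [← hθ]
      ring
  have hcard : Fintype.card (Free.ChooseBasisIndex ℤ (𝓞 K)) = 3 := by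
    rw [← finrank_eq_card_basis (integralBasis K), hd]
  let e : Free.ChooseBasisIndex ℤ (𝓞 K) ≃ Fin 3 :=
    Fintype.equivOfCardEq (by rw [hcard, Fintype.card_fin])
  let ω : Basis (Fin 3) ℚ K := (integralBasis K).reindex e
  let v : Fin 3 → K := cb θ h hd
  let t : 𝓞 K := ⟨θ, hint⟩
  let Q : Matrix (Fin 3) (Fin 3) ℤ :=
    fun i j => (RingOfIntegers.basis K).repr (t ^ (j : ℕ)) (e.symm i)
  have hQ : ω.toMatrix v = Q.map (Int.cast : ℤ → ℚ) := by
    ext i j
    rw [Basis.toMatrix_apply, Matrix.map_apply]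
    change ((integralBasis K).reindex e).repr (cb θ h hd j) i = _
    rw [Basis.repr_reindex_apply, cb_apply]
    have h1 := integralBasis_repr_apply K (t ^ (j : ℕ)) (e.symm i)
    have h2 : (algebraMap (𝓞 K) K) (t ^ (j : ℕ)) = θ ^ (j : ℕ) := by
      rw [map_pow]
      rfl
    rw [h2] at h1
    exact h1
  refine ⟨Q.det, ?_⟩
  have h3 : Algebra.discr ℚ v = (ω.toMatrix v).det ^ 2 * Algebra.discr ℚ ω := by
    have h4 := Algebra.discr_of_matrix_vecMul (A := ℚ) ω (ω.toMatrix v)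
    rwa [Basis.toMatrix_map_vecMul] at h4
  have h4 : Algebra.discr ℚ ω = (discr K : ℚ) := by
    rw [coe_discr]
    change Algebra.discr ℚ ((integralBasis K).reindex e) = _
    rw [Basis.coe_reindex, Algebra.discr_reindex]
  have h5 : (ω.toMatrix v).det = (Q.det : ℚ) := by
    rw [hQ]
    exact (RingHom.map_det (Int.castRingHom ℚ) Q).symm
  have h6 := discr_cb θ h hd a b c (by
    rw [map_intCast, map_intCast, map_intCast]
    linear_combination hθ)
  rw [h4, h5] at h3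
  change Algebra.discr ℚ (cb θ h hd) = _ at h3
  rw [h6] at h3
  exact_mod_cast h3

end

end Pool.Agent.ZCS
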