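import Pool.Agent.ZCS.Dep
import Pool.Agent.ZCS.Ex23

/-!
# The hypotheses of the general theorem hold for `x ^ 3 - x + 1`
-/

namespace Pool.Agent.ZCS

open NumberField

theorem ex23 : OddCubic 0 (-1) 1 ∧ dsc 0 (-1) 1 = -23 := by
  refine ⟨⟨fun x hx => no_zero23 x ?_, K23, inferInstance, nf23, finrank23, ⟨t23, root23⟩, ?_⟩, ?_⟩
  · push_cast at hx
    linear_combination hx
  · rw [class23]
    exact odd_one
  · unfold dsc
    norm_num

end Pool.Agent.ZCS
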