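import Pool.Agent.ZCS.Mono
import Pool.Agent.ZCS.Dep

/-!
# Silent primes for all monogenic cubic fields of odd (narrow) class number

`Good a b c`: `f = x³ + a x² + b x + c` has no rational zero and a zero `θ` in a cubic field with the ring of integers
`ℤ[θ]` and an odd class number, and if the discriminant is positive, then all totally positive units are squares.
`good_dep`: the twists of `y² = f(x)` by products of silent primes have rank at most one. `main_good`: the theorem on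
zero-cycles.
-/

set_option autoImplicit false

noncomputable section

namespace Pool.Agent.ZCS

open WeierstrassCurve NumberField Pool.Agent.ZC Pool.Agent.ZCQ Pool.Agent.ZCQK Pool.Agent.ZCQL
open scoped Classical

/-- one of `P`, `Q`, `P + Q` is a double -/
private theorem dv_half' {K : Type} [Field K] [CharZero K] {W : WeierstrassCurve ℚ} {θ : K}
    (h : Cub W θ) {P Q : W.toAffine.Point} {u u' γ γ' : K} (e : dv θ P = u * γ ^ 2)
    (e' : dv θ Q = u' * γ' ^ 2) (hU : IsSquare u ∨ IsSquare u' ∨ IsSquare (u * u')) :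
    (∃ R, P = R + R) ∨ (∃ R, Q = R + R) ∨ ∃ R, P + Q = R + R := by
  rcases hU with h1 | h1 | h1
  · left
    refine dv_ker h P ?_
    rw [e]
    exact h1.mul ⟨γ, pow_two γ⟩
  · right
    left
    refine dv_ker h Q ?_
    rw [e']
    exact h1.mul ⟨γ', pow_two γ'⟩
  · right
    right
    refine dv_ker h _ ?_
    obtain ⟨s, hs⟩ := dv_add h P Q
    obtain ⟨t, ht⟩ := h1
    have hne : dv θ P * dv θ Q ≠ 0 := mul_ne_zero (h.dv_ne_zero P) (h.dv_ne_zero Q)
    have e2 : dv θ P * dv θ Q = (t * γ * γ') * (t * γ * γ') := by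
      rw [e, e']
      linear_combination (γ ^ 2 * γ' ^ 2) * ht
    rw [e2] at hne hs
    have hne' : t * γ * γ' ≠ 0 := left_ne_zero_of_mul hne
    refine ⟨s / (t * γ * γ'), ?_⟩
    rw [div_mul_div_comm, eq_div_iff (mul_ne_zero hne' hne')]
    linear_combination hs

variable {K : Type} [Field K] [NumberField K]

/-- Three real zeros. -/
private theorem real_roots {W : WeierstrassCurve ℚ} {θ : K} (h : Cub W θ)
    (hD : 0 < W.a₂ ^ 2 * W.a₄ ^ 2 - 4 * W.a₄ ^ 3 - 4 * W.a₂ ^ 3 * W.a₆ - 27 * W.a₆ ^ 2 +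
        18 * W.a₂ * W.a₄ * W.a₆) : ∃ r₁ r₂ r₃ : ℝ, (W.a₂ : ℝ) = -(r₁ + r₂ + r₃) ∧
      (W.a₄ : ℝ) = r₁ * r₂ + r₁ * r₃ + r₂ * r₃ ∧ (W.a₆ : ℝ) = -(r₁ * r₂ * r₃) := by
  have h3 := h.finrank
  have hodd : Odd (Module.finrank ℚ K) := by
    rw [h3]
    decide
  have hreal := InfinitePlace.nrRealPlaces_pos_of_odd_finrank hodd
  obtain ⟨w⟩ : Nonempty {w : InfinitePlace K // InfinitePlace.IsReal w} :=
    Fintype.card_pos_iff.1 hreal
  set φ₀ : K →+* ℝ := InfinitePlace.embedding_of_isReal w.2 with hφ₀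
  set r : ℝ := φ₀ θ with hr
  have hroot : r ^ 3 + W.a₂ * r ^ 2 + W.a₄ * r + W.a₆ = 0 := by
    have h4 := congrArg φ₀ h.root
    simpa using h4
  set p : ℝ := r + W.a₂ with hp
  set q : ℝ := r ^ 2 + W.a₂ * r + W.a₄ with hq
  have hD' : 0 < ((W.a₂ ^ 2 * W.a₄ ^ 2 - 4 * W.a₄ ^ 3 - 4 * W.a₂ ^ 3 * W.a₆ - 27 * W.a₆ ^ 2 +
        18 * W.a₂ * W.a₄ * W.a₆ : ℚ) : ℝ) := by exact_mod_cast hD
  have hpos : 0 ≤ p ^ 2 - 4 * q := by
    by_contra hlt
    push Not at hlt
    have h5 : ((W.a₂ ^ 2 * W.a₄ ^ 2 - 4 * W.a₄ ^ 3 - 4 * W.a₂ ^ 3 * W.a₆ - 27 * W.a₆ ^ 2 +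
        18 * W.a₂ * W.a₄ * W.a₆ : ℚ) : ℝ) = (p ^ 2 - 4 * q) * (r ^ 2 + p * r + q) ^ 2 := by
      have h6 : (W.a₆ : ℝ) = -(r ^ 3 + W.a₂ * r ^ 2 + W.a₄ * r) := by linear_combination hroot
      push_cast
      rw [h6, hp, hq]
      ring
    rw [h5] at hD'
    exact absurd hD' (not_lt.2 (mul_nonpos_of_nonpos_of_nonneg hlt.le (sq_nonneg _)))
  set s : ℝ := Real.sqrt (p ^ 2 - 4 * q) with hs
  have hs2 : s ^ 2 = p ^ 2 - 4 * q := Real.sq_sqrt hpos
  refine ⟨r, (-p + s) / 2, (-p - s) / 2, ?_, ?_, ?_⟩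
  · rw [hp]
    ring
  · have h7 : (-p + s) / 2 * ((-p - s) / 2) = q := by linear_combination (-1 / 4) * hs2
    rw [h7, hp, hq]
    ring
  · have h7 : (-p + s) / 2 * ((-p - s) / 2) = q := by linear_combination (-1 / 4) * hs2
    have h8 : r * ((-p + s) / 2) * ((-p - s) / 2) = r * q := by rw [mul_assoc, h7]
    rw [h8, hq]
    linear_combination hroot

/-- signs of three factors with a positive product -/
private theorem signs {e₁ e₂ e₃ X : ℝ} (h12 : e₁ ≤ e₂) (h23 : e₂ ≤ e₃)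
    (h : 0 < (X - e₁) * (X - e₂) * (X - e₃)) :
    0 < X - e₁ ∧ ((0 < X - e₂ ∧ 0 < X - e₃) ∨ (X - e₂ < 0 ∧ X - e₃ < 0)) := by
  have h1 : 0 < X - e₁ := by
    by_contra hle
    push Not at hle
    have h2 : X - e₂ ≤ 0 := by linarith
    have h3 : X - e₃ ≤ 0 := by linarith
    have h4 : 0 ≤ (X - e₁) * (X - e₂) := mul_nonneg_of_nonpos_of_nonpos hle h2
    exact absurd h (not_lt.2 (mul_nonpos_of_nonneg_of_nonpos h4 h3))
  refine ⟨h1, ?_⟩
  have h2 : 0 < (X - e₂) * (X - e₃) := by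
    rw [mul_assoc] at h
    exact (mul_pos_iff_of_pos_left h1).1 h
  rcases mul_pos_iff.1 h2 with h3 | h3
  · exact Or.inl h3
  · exact Or.inr h3

/-- The signs of the conjugates for two points. -/
private theorem signs_two {e₁ e₂ e₃ X X' : ℝ} (h12 : e₁ ≤ e₂) (h23 : e₂ ≤ e₃)
    (h : 0 < (X - e₁) * (X - e₂) * (X - e₃)) (h' : 0 < (X' - e₁) * (X' - e₂) * (X' - e₃)) :
    (∀ e, e = e₁ ∨ e = e₂ ∨ e = e₃ → 0 < X - e) ∨ (∀ e, e = e₁ ∨ e = e₂ ∨ e = e₃ → 0 < X' - e) ∨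
      ∀ e, e = e₁ ∨ e = e₂ ∨ e = e₃ → 0 < (X - e) * (X' - e) := by
  obtain ⟨a1, a2⟩ := signs h12 h23 h
  obtain ⟨b1, b2⟩ := signs h12 h23 h'
  rcases a2 with a2 | a2
  · left
    rintro e (rfl | rfl | rfl)
    · exact a1
    · exact a2.1
    · exact a2.2
  · rcases b2 with b2 | b2
    · right
      left
      rintro e (rfl | rfl | rfl)
      · exact b1
      · exact b2.1
      · exact b2.2
    · right
      right
      rintro e (rfl | rfl | rfl)
      · exact mul_pos a1 b1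
      · exact mul_pos_of_neg_of_neg a2.1 b2.1
      · exact mul_pos_of_neg_of_neg a2.2 b2.2

/-- the same without an order -/
private theorem signs_three (r : Fin 3 → ℝ) {X X' : ℝ}
    (h : 0 < (X - r 0) * (X - r 1) * (X - r 2))
    (h' : 0 < (X' - r 0) * (X' - r 1) * (X' - r 2)) :
    (∀ i, 0 < X - r i) ∨ (∀ i, 0 < X' - r i) ∨ ∀ i, 0 < (X - r i) * (X' - r i) := by
  obtain ⟨σ, hσ⟩ : ∃ σ : Equiv.Perm (Fin 3), Monotone (r ∘ σ) := ⟨Tuple.sort r, Tuple.monotone_sort r⟩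
  have hprod : ∀ Y : ℝ, (Y - r (σ 0)) * (Y - r (σ 1)) * (Y - r (σ 2)) =
      (Y - r 0) * (Y - r 1) * (Y - r 2) := by
    intro Y
    have h1 := Equiv.prod_comp σ fun i => Y - r i
    rw [Fin.prod_univ_three, Fin.prod_univ_three] at h1
    exact h1
  have hmem : ∀ i : Fin 3, r i = r (σ 0) ∨ r i = r (σ 1) ∨ r i = r (σ 2) := by
    intro i
    obtain ⟨j, rfl⟩ := σ.surjective i
    fin_cases j
    · exact Or.inl rfl
    · exact Or.inr (Or.inl rfl)
    · exact Or.inr (Or.inr rfl)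
  rw [← hprod] at h h'
  have h12 : r (σ 0) ≤ r (σ 1) := hσ (by decide : (0 : Fin 3) ≤ 1)
  have h23 : r (σ 1) ≤ r (σ 2) := hσ (by decide : (1 : Fin 3) ≤ 2)
  rcases signs_two h12 h23 h h' with h1 | h1 | h1
  · exact Or.inl fun i => h1 _ (hmem i)
  · exact Or.inr (Or.inl fun i => h1 _ (hmem i))
  · exact Or.inr (Or.inr fun i => h1 _ (hmem i))

variable {a b c d : ℤ}

/-- The values of the descent map of the twist are norm one units times squares. -/
private theorem dv_good {θ : 𝓞 K} (hd : d ≠ 0) (h : Cub (⟨0, a, 0, b, c⟩) (θ : K))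
    (hroot : θ ^ 3 + a * θ ^ 2 + b * θ + c = 0)
    (hO : ∀ x : 𝓞 K, ∃ u v w : ℤ, x = u + v * θ + w * θ ^ 2)
    (hodd : Odd (classNumber K)) (hs : Silent a b c d)
    (P : (twc a b c d).toAffine.Point) :
    ∃ u : (𝓞 K)ˣ, Algebra.norm ℤ (u : 𝓞 K) = 1 ∧ ∃ γ : K,
      dv (d * θ : K) P = ((u : 𝓞 K) : K) * γ ^ 2 := by
  rcases P with _ | ⟨X, Y, hXY⟩
  · refine ⟨1, by simp, 1, ?_⟩
    change (1 : K) = _
    simp
  have hY : Y ^ 2 = X ^ 3 + a * d * X ^ 2 + b * d ^ 2 * X + c * d ^ 3 := by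
    have h1 := (Affine.equation_iff _ _).1 hXY.1
    simp only [twc] at h1
    linear_combination h1
  obtain ⟨m, e, w, hme, he, hX, hn⟩ := exists_coords hY
  have heK : (e : K) ≠ 0 := Int.cast_ne_zero.2 he
  set α : 𝓞 K := (m : 𝓞 K) - θ * (d * e ^ 2 : ℤ) with hα
  have hαK : (α : K) = (m : K) - θ * (d * e ^ 2) := by
    change algebraMap (𝓞 K) K α = _
    rw [hα, map_sub, map_mul, map_intCast, map_intCast]
    push_cast
    ring
  have hαX : (X : K) - d * θ = α / e ^ 2 := by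
    have h1 : (X : K) * e ^ 2 = m := by exact_mod_cast hX
    rw [hαK, eq_div_iff (pow_ne_zero 2 heK)]
    linear_combination h1
  have hα0 : α ≠ 0 := by
    intro e0
    rw [e0] at hαX
    have h2 := (cub_twist hd h).sub_ne_zero X
    apply h2
    rw [hαX]
    simp
  have hN : ∀ m z : ℤ, Algebra.norm ℤ ((m : 𝓞 K) - θ * z) = frm a b c m z := by
    intro m z
    have h1 : ((Algebra.norm ℤ ((m : 𝓞 K) - θ * z) : ℤ) : ℚ) = ((frm a b c m z : ℤ) : ℚ) := by
      rw [Algebra.coe_norm_int]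
      have h2 := h.norm_sub m z
      rw [frm]
      push_cast at h2 ⊢
      exact h2
    exact_mod_cast h1
  have hNα : Algebra.norm ℤ α = w ^ 2 := by
    rw [← hn]
    exact hN m _
  have hw : w ≠ 0 := by
    rintro rfl
    have h1 : Algebra.norm ℤ α = 0 := by rw [hNα]; norm_num
    exact hα0 (Algebra.norm_eq_zero_iff.1 h1)
  obtain ⟨𝔟, h𝔟⟩ := ideal_sq_mono hroot hO hN hme he hd hs hw hn
  obtain ⟨u, γ, huγ⟩ := exists_unit hα0 h𝔟 hodd
  refine ⟨u, ?_, (γ : K) / e, ?_⟩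
  · have h1 : Algebra.norm ℤ (u : 𝓞 K) * (Algebra.norm ℤ γ) ^ 2 = w ^ 2 := by
      rw [← hNα, huγ, map_mul, map_pow]
    have h2 : Algebra.norm ℤ (u : 𝓞 K) = 1 ∨ Algebra.norm ℤ (u : 𝓞 K) = -1 :=
      Int.isUnit_iff.1 (u.isUnit.map (Algebra.norm ℤ))
    rcases h2 with h2 | h2
    · exact h2
    · exfalso
      rw [h2] at h1
      have h3 : 0 < w ^ 2 := by positivity
      nlinarith [sq_nonneg (Algebra.norm ℤ γ)]
  · change (X : K) - d * θ = _
    rw [hαX, huγ]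
    push_cast
    field_simp

/-- One of `P`, `Q`, `P + Q` is a double. -/
theorem good_half (hg : Good a b c) (hd : d ≠ 0) (hs : Silent a b c d)
    (hD : dsc a b c ≠ 0) (P Q : (twc a b c d).toAffine.Point) :
    (∃ R, P = R + R) ∨ (∃ R, Q = R + R) ∨ ∃ R, P + Q = R + R := by
  obtain ⟨hirr, K, iF, iN, θ, h3, hroot, hO, hodd, hTP⟩ := hg
  have hrootK : (θ : K) ^ 3 + a * (θ : K) ^ 2 + b * θ + c = 0 := by
    have h1 := congrArg (algebraMap (𝓞 K) K) hroot
    simpa using h1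
  have h := cub_of h3 hrootK hirr
  have ht : Cub (twc a b c d) (d * θ : K) := cub_twist hd h
  obtain ⟨u, hu, γ, e⟩ := dv_good hd h hroot hO hodd hs P
  obtain ⟨u', hu', γ', e'⟩ := dv_good hd h hroot hO hodd hs Q
  have hsq : ∀ x v : (𝓞 K)ˣ, x = v ^ 2 → IsSquare (((x : 𝓞 K)) : K) := by
    rintro _ v rfl
    refine ⟨((v : 𝓞 K) : K), ?_⟩
    rw [pow_two]
    push_cast
    rfl
  refine dv_half' ht e e' ?_
  have hmulK : (((u * u' : (𝓞 K)ˣ) : 𝓞 K) : K) = ((u : 𝓞 K) : K) * ((u' : 𝓞 K) : K) := by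
    push_cast
    rfl
  rcases lt_or_gt_of_ne hD with hD0 | hD0
  · have hr : Units.rank K = 1 := rank_one h (by
      change (a : ℚ) ^ 2 * b ^ 2 - 4 * b ^ 3 - 4 * a ^ 3 * c - 27 * c ^ 2 + 18 * a * b * c < 0
      rw [dsc] at hD0
      exact_mod_cast hD0)
    rcases unit_sq h3 hr u u' hu hu' with ⟨v, hv⟩ | ⟨v, hv⟩ | ⟨v, hv⟩
    · exact Or.inl (hsq u v hv)
    · exact Or.inr (Or.inl (hsq u' v hv))
    · right
      right
      rw [← hmulK]
      exact hsq _ v hv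
  · rcases P with _ | ⟨X, Y, hXY⟩
    · left
      change (1 : K) = _ at e
      have hγ : γ ≠ 0 := by
        rintro rfl
        simp at e
      refine ⟨1 / γ, ?_⟩
      field_simp
      linear_combination -e
    rcases Q with _ | ⟨X', Y', hXY'⟩
    · right
      left
      change (1 : K) = _ at e'
      have hγ : γ' ≠ 0 := by
        rintro rfl
        simp at e'
      refine ⟨1 / γ', ?_⟩
      field_simp
      linear_combination -e'
    obtain ⟨r₁, r₂, r₃, q2, q4, q6⟩ := real_roots h (by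
      change 0 < (a : ℚ) ^ 2 * b ^ 2 - 4 * b ^ 3 - 4 * a ^ 3 * c - 27 * c ^ 2 + 18 * a * b * c
      rw [dsc] at hD0
      exact_mod_cast hD0)
    change (((a : ℤ) : ℚ) : ℝ) = _ at q2
    change (((b : ℤ) : ℚ) : ℝ) = _ at q4
    change (((c : ℤ) : ℚ) : ℝ) = _ at q6
    push_cast at q2 q4 q6
    have hφr : ∀ φ : K →+* ℝ, ∃ i : Fin 3, φ (d * θ) = ![d * r₁, d * r₂, d * r₃] i := by
      intro φ
      have h1 := congrArg φ hrootK
      simp only [map_add, map_mul, map_pow, map_intCast, map_zero] at h1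
      rw [q2, q4, q6] at h1
      have h2 : (φ θ - r₁) * ((φ θ - r₂) * (φ θ - r₃)) = 0 := by linear_combination h1
      rw [map_mul, map_intCast]
      rcases mul_eq_zero.1 h2 with h2 | h2
      · exact ⟨0, by rw [sub_eq_zero.1 h2]; rfl⟩
      · rcases mul_eq_zero.1 h2 with h2 | h2
        · exact ⟨1, by rw [sub_eq_zero.1 h2]; rfl⟩
        · exact ⟨2, by rw [sub_eq_zero.1 h2]; rfl⟩
    have hpos : ∀ {X Y : ℚ} (hXY : (twc a b c d).toAffine.Nonsingular X Y),
        0 < ((X : ℝ) - ![d * r₁, d * r₂, d * r₃] 0) * ((X : ℝ) - ![d * r₁, d * r₂, d * r₃] 1) *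
          ((X : ℝ) - ![d * r₁, d * r₂, d * r₃] 2) := by
      intro X Y hXY
      have hY : Y ^ 2 = X ^ 3 + a * d * X ^ 2 + b * d ^ 2 * X + c * d ^ 3 := by
        have h1 := (Affine.equation_iff _ _).1 hXY.1
        simp only [twc] at h1
        linear_combination h1
      have hY0 : Y ≠ 0 := by
        rintro rfl
        apply ht.no_root X
        simp only [twc]
        linear_combination -hY
      have hYR : (Y : ℝ) ^ 2 = X ^ 3 + a * d * X ^ 2 + b * d ^ 2 * X + c * d ^ 3 := by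
        exact_mod_cast hY
      have h4 : ((X : ℝ) - ![d * r₁, d * r₂, d * r₃] 0) *
          ((X : ℝ) - ![d * r₁, d * r₂, d * r₃] 1) *
          ((X : ℝ) - ![d * r₁, d * r₂, d * r₃] 2) = (Y : ℝ) ^ 2 := by
        rw [hYR, q2, q4, q6]
        simp only [Matrix.cons_val_zero, Matrix.cons_val_one, Matrix.cons_val]
        ring
      rw [h4]
      have : (Y : ℝ) ≠ 0 := Rat.cast_ne_zero.2 hY0
      positivity
    have hsgn : ∀ {X : ℚ} {u : (𝓞 K)ˣ} {γ : K} (φ : K →+* ℝ),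
        (X : K) - d * θ = ((u : 𝓞 K) : K) * γ ^ 2 →
        (X : ℝ) - φ (d * θ) = φ ((u : 𝓞 K) : K) * φ γ ^ 2 := by
      intro X u γ φ e
      have h5 := congrArg φ e
      simp only [map_sub, map_mul, map_pow, map_intCast, map_ratCast] at h5 ⊢
      exact h5
    change (X : K) - d * θ = _ at e
    change (X' : K) - d * θ = _ at e'
    rcases signs_three ![d * r₁, d * r₂, d * r₃] (hpos hXY) (hpos hXY') with h6 | h6 | h6
    · left
      obtain ⟨v, hv⟩ := hTP hD0 u fun φ => by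
        obtain ⟨i, hi⟩ := hφr φ
        have h7 := h6 i
        rw [← hi, hsgn φ e] at h7
        exact (pos_iff_pos_of_mul_pos h7).2 (lt_of_le_of_ne (sq_nonneg _) fun h8 => by
          rw [← h8, mul_zero] at h7
          exact lt_irrefl _ h7)
      exact hsq u v hv
    · right
      left
      obtain ⟨v, hv⟩ := hTP hD0 u' fun φ => by
        obtain ⟨i, hi⟩ := hφr φ
        have h7 := h6 i
        rw [← hi, hsgn φ e'] at h7
        exact (pos_iff_pos_of_mul_pos h7).2 (lt_of_le_of_ne (sq_nonneg _) fun h8 => by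
          rw [← h8, mul_zero] at h7
          exact lt_irrefl _ h7)
      exact hsq u' v hv
    · right
      right
      rw [← hmulK]
      obtain ⟨v, hv⟩ := hTP hD0 (u * u') fun φ => by
        obtain ⟨i, hi⟩ := hφr φ
        have h7 := h6 i
        rw [← hi, hsgn φ e, hsgn φ e'] at h7
        have h8 : φ ((u : 𝓞 K) : K) * φ γ ^ 2 * (φ ((u' : 𝓞 K) : K) * φ γ' ^ 2) =
            φ (((u * u' : (𝓞 K)ˣ) : 𝓞 K) : K) * (φ γ * φ γ') ^ 2 := by
          rw [hmulK, map_mul]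
          ring
        rw [h8] at h7
        exact (pos_iff_pos_of_mul_pos h7).2 (lt_of_le_of_ne (sq_nonneg _) fun h8 => by
          rw [← h8, mul_zero] at h7
          exact lt_irrefl _ h7)
      exact hsq _ v hv

/-- the discriminant is not zero -/
theorem Good.dsc_ne (hg : Good a b c) : dsc a b c ≠ 0 := by
  obtain ⟨hirr, K, iF, iN, θ, h3, hroot, hO, hodd, hTP⟩ := hg
  have hrootK : (θ : K) ^ 3 + a * (θ : K) ^ 2 + b * θ + c = 0 := by
    have h1 := congrArg (algebraMap (𝓞 K) K) hroot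
    simpa using h1
  have h := cub_of h3 hrootK hirr
  intro e
  have h1 := h.norm_deriv
  have h2 : Algebra.norm ℚ (3 * (θ : K) ^ 2 + 2 * ((a : ℚ) : K) * θ + ((b : ℚ) : K)) = 0 := by
    refine h1.trans ?_
    change -((a : ℚ) ^ 2 * b ^ 2 - 4 * b ^ 3 - 4 * a ^ 3 * c - 27 * c ^ 2 + 18 * a * b * c) = 0
    rw [dsc] at e
    have e' : ((a : ℚ) ^ 2 * b ^ 2 - 4 * b ^ 3 - 4 * a ^ 3 * c - 27 * c ^ 2 +
      18 * a * b * c) = 0 := by exact_mod_cast e
    rw [e', neg_zero]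
  have h4 := Algebra.norm_eq_zero_iff.1 h2
  have h5 := (h.li b (2 * a) 3 (by push_cast at h4 ⊢; linear_combination h4)).2.2
  norm_num at h5

/-- The twists of `y² = f(x)` by products of silent primes have rank at most one. -/
theorem good_dep (hg : Good a b c) (hd : d ≠ 0) (hs : Silent a b c d)
    (P Q : (twc a b c d).toAffine.Point) : ∃ m n : ℤ, (m ≠ 0 ∨ n ≠ 0) ∧ m • P = n • Q := by
  have hD := hg.dsc_ne
  have hell : (twc a b c d).IsElliptic := by
    have h4 : (twc a b c d).Δ = d ^ 6 * (⟨0, a, 0, b, c⟩ : WeierstrassCurve ℚ).Δ := by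
      simp only [twc, WeierstrassCurve.Δ, WeierstrassCurve.b₂, WeierstrassCurve.b₄,
        WeierstrassCurve.b₆, WeierstrassCurve.b₈]
      ring
    refine ⟨isUnit_iff_ne_zero.2 ?_⟩
    rw [h4]
    exact mul_ne_zero (pow_ne_zero 6 (Int.cast_ne_zero.2 hd)) (disc_ne hD)
  exact dep_of_half (Pool.Agent.ZCQS.fg_of_index rfl rfl hell
    (finiteIndex_of_half (good_half hg hd hs hD))) (good_half hg hd hs hD) P Q

/-- All zero-cycles over `ℚ` of degree zero and sum zero on `E × E` which are supported on `F`-rational points are torsion,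
for the field `F` generated by the square roots of all integers `d ≠ 0` such that `f` has no zero modulo any prime divisor
of `d`. -/
theorem main_good (hg : Good a b c) {E₀ : WeierstrassCurve ℚ} (hE₀ : E₀ = ⟨0, a, 0, b, c⟩)
    {L : IntermediateField ℚ (AlgebraicClosure ℚ)} (hL : L = ⊥)
    {F : IntermediateField L (AlgebraicClosure ℚ)} (hF : F = IntermediateField.adjoin L
      {s : AlgebraicClosure ℚ | ∃ d : ℤ, d ≠ 0 ∧ Silent a b c d ∧ s ^ 2 = d})
    (z : Z0N fun _ : Fin 2 => (E₀⁄L)⁄(AlgebraicClosure ℚ))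
    (hz : ∀ σ : AlgebraicClosure ℚ ≃ₐ[L] AlgebraicClosure ℚ,
      z.mapDomain (fun p i => galL (E₀⁄L) σ (p i)) = z)
    (hdeg : z.sum (fun _ n => n) = 0) (hsum : ∀ i, z.sum (fun p n => n • p i) = 0)
    (hsupp : ∀ p ∈ z.support, ∀ i x y h, p i = Affine.Point.some x y h → x ∈ F ∧ y ∈ F) :
    ∃ M : ℕ, 0 < M ∧ M • z ∈ RatEqN fun _ : Fin 2 => (E₀⁄L)⁄(AlgebraicClosure ℚ) := by
  have hell : E₀.IsElliptic := by
    rw [hE₀]
    exact ⟨isUnit_iff_ne_zero.2 (disc_ne hg.dsc_ne)⟩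
  refine main_tw hE₀ hell hL {q : ℚ | ∃ d : ℤ, q = d ∧ d ≠ 0 ∧ Silent a b c d} ?_ ?_ ?_ ?_
    (F := F) ?_ z hz hdeg hsum hsupp
  · refine ⟨1, by simp, one_ne_zero, fun p hp hp1 => ?_⟩
    exact absurd (Int.isUnit_iff.2 (Or.inl rfl) : IsUnit (1 : ℤ)) fun hu =>
      (Nat.prime_iff_prime_int.1 hp).not_isUnit (isUnit_of_dvd_unit hp1 hu)
  · rintro _ ⟨d, rfl, hd, -⟩
    exact Int.cast_ne_zero.2 hd
  · rintro _ ⟨d, rfl, hd, hs⟩ _ ⟨d', rfl, hd', hs'⟩
    refine ⟨d * d', by push_cast; rfl, mul_ne_zero hd hd', fun p hp hpd => ?_⟩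
    rcases (Nat.prime_iff_prime_int.1 hp).dvd_or_dvd hpd with h1 | h1
    · exact hs p hp h1
    · exact hs' p hp h1
  · rintro _ ⟨d, rfl, hd, hs⟩ P Q
    exact good_dep hg hd hs P Q
  · rw [hF]
    congr 1
    ext s
    constructor
    · rintro ⟨d, hd, hs, e⟩
      exact ⟨d, ⟨d, rfl, hd, hs⟩, by rw [e]; simp⟩
    · rintro ⟨_, ⟨d, rfl, hd, hs⟩, e⟩
      exact ⟨d, hd, hs, by rw [e]; simp⟩

end Pool.Agent.ZCS
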