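import Pool.Agent.ZCS.Norm

/-!
# The ideal of `m - θ z` is a square

`exists_odd_part`: a nonzero ideal is a square times the product of the primes of odd multiplicity. `ideal_sq`: if `f` is
a monic cubic polynomial with a squarefree discriminant, `z = d e²` with coprime `m`, `e`, where `f` has no zero modulo the
primes which divide `d`, and the norm of `m - θ z` is a nonzero square, then the ideal of `m - θ z` is a square.
-/

set_option autoImplicit false

noncomputable section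

namespace Pool.Agent.ZCS

open WeierstrassCurve NumberField UniqueFactorizationMonoid
open scoped Classical

section general

variable {R : Type} [CommRing R] [IsDedekindDomain R]

/-- A nonzero ideal is a square times the product of the primes of odd multiplicity. -/
theorem exists_odd_part {I : Ideal R} (hI : I ≠ ⊥) : ∃ J b : Ideal R, I = J * b ^ 2 ∧
    ∀ D : Ideal R, (∀ p : Ideal R, Prime p → Odd ((normalizedFactors I).count p) → p ∣ D) →
      J ∣ D := by
  set S := (normalizedFactors I).toFinset with hS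
  refine ⟨∏ p ∈ S.filter (fun p => Odd ((normalizedFactors I).count p)), p,
    ∏ p ∈ S, p ^ ((normalizedFactors I).count p / 2), ?_, ?_⟩
  · conv_lhs => rw [← Ideal.prod_normalizedFactors_eq_self hI, Finset.prod_multiset_count]
    rw [Finset.prod_filter, ← Finset.prod_pow, ← Finset.prod_mul_distrib]
    refine Finset.prod_congr rfl fun p _ => ?_
    by_cases h : Odd ((normalizedFactors I).count p)
    · rw [if_pos h, ← pow_mul, ← pow_succ']
      congr 1
      have := Nat.div_add_mod ((normalizedFactors I).count p) 2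
      rw [Nat.odd_iff.1 h] at this
      omega
    · rw [if_neg h, one_mul, ← pow_mul]
      congr 1
      have := Nat.div_mul_cancel (even_iff_two_dvd.1 (Nat.not_odd_iff_even.1 h))
      exact this.symm
  · intro D hD
    refine Finset.prod_primes_dvd D (fun p hp => ?_) fun p hp => ?_
    · exact prime_of_normalized_factor p (Multiset.mem_toFinset.1 (Finset.mem_filter.1 hp).1)
    · obtain ⟨h1, h2⟩ := Finset.mem_filter.1 hp
      exact hD p (prime_of_normalized_factor p (Multiset.mem_toFinset.1 h1)) h2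

/-- The multiplicities in a product. -/
theorem count_mul' {I J : Ideal R} (hI : I ≠ ⊥) (hJ : J ≠ ⊥) (p : Ideal R) :
    (normalizedFactors (I * J)).count p =
      (normalizedFactors I).count p + (normalizedFactors J).count p := by
  rw [normalizedFactors_mul hI hJ, Multiset.count_add]

theorem count_pow' (I : Ideal R) (k : ℕ) (p : Ideal R) :
    (normalizedFactors (I ^ k)).count p = k * (normalizedFactors I).count p := by
  rw [normalizedFactors_pow, Multiset.count_nsmul]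

theorem dvd_of_count {I : Ideal R} {p : Ideal R} (h : (normalizedFactors I).count p ≠ 0) :
    p ∣ I :=
  dvd_of_mem_normalizedFactors (Multiset.count_ne_zero.1 h)

theorem count_zero_of {I : Ideal R} {p : Ideal R} (h : ¬ p ∣ I) :
    (normalizedFactors I).count p = 0 := by
  by_contra hne
  exact h (dvd_of_count hne)

end general

/-- an integer square dividing a squarefree number -/
theorem sq_dvd_sqfree {n k w D : ℕ} (hw : w ≠ 0) (h : n * k ^ 2 = w ^ 2) (hn : n ∣ D)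
    (hD : Squarefree D) : n = 1 := by
  have hk : k ^ 2 ∣ w ^ 2 := ⟨n, by rw [← h]; ring⟩
  have hk' : k ∣ w := (Nat.pow_dvd_pow_iff two_ne_zero).1 hk
  obtain ⟨l, rfl⟩ := hk'
  have hk0 : k ≠ 0 := left_ne_zero_of_mul hw
  have hn2 : n = l * l := by
    have h1 : n * k ^ 2 = (l * l) * k ^ 2 := by
      rw [h]
      ring
    exact Nat.eq_of_mul_eq_mul_right (by positivity) h1
  have h3 := hD l (by rw [← hn2]; exact hn)
  rw [Nat.isUnit_iff] at h3
  rw [hn2, h3]

/-- the form `z³ f(m / z)` -/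
def frm (a b c m z : ℤ) : ℤ := m ^ 3 + a * m ^ 2 * z + b * m * z ^ 2 + c * z ^ 3

/-- two integers with the common power of `p` removed -/
theorem exists_prim {p : ℕ} (hp : p.Prime) {m z : ℤ} (hz : z ≠ 0) : ∃ (k : ℕ) (m' z' : ℤ),
    m = p ^ k * m' ∧ z = p ^ k * z' ∧ ¬ ((p : ℤ) ∣ m' ∧ (p : ℤ) ∣ z') := by
  have key : ∀ n : ℕ, ∀ m z : ℤ, z ≠ 0 → z.natAbs ≤ n → ∃ (k : ℕ) (m' z' : ℤ),
      m = p ^ k * m' ∧ z = p ^ k * z' ∧ ¬ ((p : ℤ) ∣ m' ∧ (p : ℤ) ∣ z') := by
    intro n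
    induction n with
    | zero =>
      intro m z hz h
      exact absurd (Int.natAbs_eq_zero.1 (Nat.le_zero.1 h)) hz
    | succ n ih =>
      intro m z hz h
      by_cases hd : (p : ℤ) ∣ m ∧ (p : ℤ) ∣ z
      · obtain ⟨⟨m₁, rfl⟩, ⟨z₁, rfl⟩⟩ := hd
        have hz1 : z₁ ≠ 0 := right_ne_zero_of_mul hz
        have h2 : z₁.natAbs ≤ n := by
          rw [Int.natAbs_mul, Int.natAbs_natCast] at h
          have h3 := Int.natAbs_pos.2 hz1
          have h4 : 2 * z₁.natAbs ≤ p * z₁.natAbs := Nat.mul_le_mul_right _ hp.two_le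
          omega
        obtain ⟨k, m', z', e1, e2, e3⟩ := ih m₁ z₁ hz1 h2
        refine ⟨k + 1, m', z', ?_, ?_, e3⟩
        · rw [e1]
          ring
        · rw [e2]
          ring
      · exact ⟨0, m, z, by simp, by simp, hd⟩
  exact key _ m z hz le_rfl

/-- The form is prime to `p` if `f` has no zero modulo `p`. -/
theorem frm_prime {a b c : ℤ} {p : ℕ} (hp : p.Prime)
    (hf : ∀ x : ℤ, ¬ (p : ℤ) ∣ x ^ 3 + a * x ^ 2 + b * x + c) {m z : ℤ}
    (h : ¬ ((p : ℤ) ∣ m ∧ (p : ℤ) ∣ z)) : ¬ (p : ℤ) ∣ frm a b c m z := by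
  intro hd
  have hpp : Prime (p : ℤ) := Nat.prime_iff_prime_int.1 hp
  have hz : ¬ (p : ℤ) ∣ z := by
    intro hz
    apply h
    refine ⟨?_, hz⟩
    have h1 : (p : ℤ) ∣ m ^ 3 := by
      have h2 : m ^ 3 = frm a b c m z - z * (a * m ^ 2 + b * m * z + c * z ^ 2) := by
        rw [frm]
        ring
      rw [h2]
      exact dvd_sub hd (hz.mul_right _)
    exact hpp.dvd_of_dvd_pow h1
  have hcop : IsCoprime (p : ℤ) z := (hpp.coprime_iff_not_dvd).2 hz
  obtain ⟨s, t, hst⟩ := hcop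
  -- `t z = 1` modulo `p`
  apply hf (m * t)
  have h3 : (m * t) ^ 3 + a * (m * t) ^ 2 + b * (m * t) + c =
      t ^ 3 * frm a b c m z + p * (s * (a * m ^ 2 * t ^ 2 + b * m * t * (1 + t * z) +
        c * (1 + t * z + (t * z) ^ 2))) := by
    rw [frm]
    have h4 : (p : ℤ) * s = 1 - t * z := by linear_combination hst
    linear_combination (-(a * m ^ 2 * t ^ 2 + b * m * t * (1 + t * z) +
        c * (1 + t * z + (t * z) ^ 2))) * h4
  rw [h3]
  exact dvd_add (hd.mul_left _) (dvd_mul_right _ _)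

/-- the exponent is even -/
theorem even_exp {p : ℕ} (hp : p.Prime) {k : ℕ} {n w : ℤ} (hn : ¬ (p : ℤ) ∣ n)
    (h : (p : ℤ) ^ (3 * k) * n = w ^ 2) : Even k := by
  have hpp : Prime (p : ℤ) := Nat.prime_iff_prime_int.1 hp
  have hn0 : n ≠ 0 := by
    rintro rfl
    exact hn (dvd_zero _)
  have hw : w ≠ 0 := by
    rintro rfl
    have : (p : ℤ) ^ (3 * k) * n ≠ 0 := mul_ne_zero (pow_ne_zero _ hpp.ne_zero) hn0
    rw [h] at this
    exact this (by ring)
  haveI : Fact p.Prime := ⟨hp⟩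
  have h1 := congrArg (padicValInt p) h
  rw [padicValInt.mul (pow_ne_zero _ hpp.ne_zero) hn0, pow_two, padicValInt.mul hw hw,
    padicValInt.eq_zero_of_not_dvd hn] at h1
  have h2 : padicValInt p ((p : ℤ) ^ (3 * k)) = 3 * k := by
    have : padicValInt p (((p ^ (3 * k) : ℕ) : ℤ)) = 3 * k := by
      rw [padicValInt.of_nat, padicValNat.prime_pow]
    rwa [Nat.cast_pow] at this
  rw [h2] at h1
  rw [Nat.even_iff]
  omega

variable {K : Type} [Field K] [NumberField K] {W : WeierstrassCurve ℚ}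

/-- The ideal of `m - θ z` is a square. -/
theorem ideal_sq {a b c : ℤ} {θ : 𝓞 K} (hW : W = ⟨0, a, 0, b, c⟩) (h : Cub W (θ : K))
    (hD : Squarefree (a ^ 2 * b ^ 2 - 4 * b ^ 3 - 4 * a ^ 3 * c - 27 * c ^ 2 + 18 * a * b * c))
    {m e d w : ℤ} (hme : IsCoprime m e) (he : e ≠ 0) (hd : d ≠ 0)
    (hs : ∀ p : ℕ, p.Prime → (p : ℤ) ∣ d → ∀ x : ℤ, ¬ (p : ℤ) ∣ x ^ 3 + a * x ^ 2 + b * x + c)
    (hw : w ≠ 0) (hn : frm a b c m (d * e ^ 2) = w ^ 2) :
    ∃ 𝔟 : Ideal (𝓞 K), Ideal.span {(m : 𝓞 K) - θ * (d * e ^ 2 : ℤ)} = 𝔟 ^ 2 := by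
  set z : ℤ := d * e ^ 2 with hz
  have hz0 : z ≠ 0 := mul_ne_zero hd (pow_ne_zero 2 he)
  set α : 𝓞 K := (m : 𝓞 K) - θ * (z : 𝓞 K) with hα
  set β : 𝓞 K := (m : 𝓞 K) ^ 2 + (θ + a) * m * z + (θ ^ 2 + a * θ + b) * z ^ 2 with hβ
  have hroot : θ ^ 3 + a * θ ^ 2 + b * θ + c = 0 := by
    have h1 := h.root
    rw [hW] at h1
    apply RingOfIntegers.coe_injective
    push_cast at h1 ⊢
    exact h1
  have hfact : ∀ m z : ℤ, ((m : 𝓞 K) - θ * z) *
      ((m : 𝓞 K) ^ 2 + (θ + a) * m * z + (θ ^ 2 + a * θ + b) * z ^ 2) = (frm a b c m z : ℤ) := by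
    intro m z
    rw [frm]
    push_cast
    linear_combination (-(z : 𝓞 K) ^ 3) * hroot
  have hαβ : α * β = ((w ^ 2 : ℤ) : 𝓞 K) := by
    rw [← hn]
    exact hfact m z
  have hw' : ((w : ℤ) : 𝓞 K) ≠ 0 := Int.cast_ne_zero.2 hw
  have hαβ0 : α * β ≠ 0 := by
    rw [hαβ]
    push_cast
    exact pow_ne_zero 2 hw'
  have hα0 : α ≠ 0 := left_ne_zero_of_mul hαβ0
  have hβ0 : β ≠ 0 := right_ne_zero_of_mul hαβ0
  have hIα : Ideal.span {α} ≠ ⊥ := by rwa [Ne, Ideal.span_singleton_eq_bot]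
  have hIβ : Ideal.span {β} ≠ ⊥ := by rwa [Ne, Ideal.span_singleton_eq_bot]
  obtain ⟨J, 𝔟, hJ, hJD⟩ := exists_odd_part hIα
  -- the primes of odd multiplicity divide the derivative
  have hdvd : J ∣ Ideal.span {3 * θ ^ 2 + 2 * a * θ + b} := by
    refine hJD _ fun 𝔭 h𝔭 hodd => ?_
    have hcα : (normalizedFactors (Ideal.span {α})).count 𝔭 ≠ 0 := fun e0 => by
      rw [e0] at hodd
      exact absurd hodd (by decide)
    have hcβ : (normalizedFactors (Ideal.span {β})).count 𝔭 ≠ 0 := by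
      intro e0
      have h1 := count_mul' hIα hIβ 𝔭
      rw [e0, add_zero, Ideal.span_singleton_mul_span_singleton, hαβ, Int.cast_pow,
        ← Ideal.span_singleton_pow, count_pow'] at h1
      rw [← h1] at hodd
      exact (Nat.not_even_iff_odd.2 hodd) (even_two_mul _)
    have hmα : α ∈ 𝔭 := Ideal.dvd_span_singleton.1 (dvd_of_count hcα)
    have hmβ : β ∈ 𝔭 := Ideal.dvd_span_singleton.1 (dvd_of_count hcβ)
    have h𝔭p : 𝔭.IsPrime := Ideal.isPrime_of_prime h𝔭
    rw [Ideal.dvd_span_singleton]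
    by_cases hz𝔭 : (z : 𝓞 K) ∈ 𝔭
    · exfalso
      have hm𝔭 : (m : 𝓞 K) ∈ 𝔭 := by
        have h1 : (m : 𝓞 K) = α + θ * z := by
          rw [hα]
          ring
        rw [h1]
        exact 𝔭.add_mem hmα (𝔭.mul_mem_left _ hz𝔭)
      -- the prime number under `𝔭`
      obtain ⟨p, hp, hpm⟩ : ∃ p : ℕ, p.Prime ∧ ∀ x : ℤ, (x : 𝓞 K) ∈ 𝔭 ↔ (p : ℤ) ∣ x := by
        set P : Ideal ℤ := 𝔭.comap (Int.castRingHom (𝓞 K)) with hP
        have hPp : P.IsPrime := Ideal.comap_isPrime _ _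
        obtain ⟨g, hg⟩ := IsPrincipalIdealRing.principal P
        have hPm : ∀ x : ℤ, (x : 𝓞 K) ∈ 𝔭 ↔ g ∣ x := by
          intro x
          have h1 : (x : 𝓞 K) ∈ 𝔭 ↔ x ∈ P := Iff.rfl
          rw [h1, hg, ← Ideal.span, Ideal.mem_span_singleton]
        have hg0 : g ≠ 0 := by
          rintro rfl
          exact hz0 (zero_dvd_iff.1 ((hPm z).1 hz𝔭))
        have hgp : Prime g := by
          rw [← Ideal.span_singleton_prime hg0]
          have h2 : Ideal.span {g} = P := hg.symm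
          rw [h2]
          exact hPp
        refine ⟨g.natAbs, Int.prime_iff_natAbs_prime.1 hgp, fun x => ?_⟩
        rw [hPm, Int.natAbs_dvd]
      have hpp : Prime (p : ℤ) := Nat.prime_iff_prime_int.1 hp
      have hpmm : (p : ℤ) ∣ m := (hpm m).1 hm𝔭
      have hpd : (p : ℤ) ∣ d := by
        rcases hpp.dvd_or_dvd ((hpm z).1 hz𝔭) with h1 | h1
        · exact h1
        · exfalso
          have h2 := hpp.dvd_of_dvd_pow h1
          exact hpp.not_unit (hme.isUnit_of_dvd' hpmm h2)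
      obtain ⟨k, m', z', e1, e2, e3⟩ := exists_prim hp (m := m) hz0
      have hn' := frm_prime hp (hs p hp hpd) e3
      have hk : Even k := by
        refine even_exp hp hn' (w := w) ?_
        rw [← hn, e1, e2, frm, frm]
        ring
      have hα' : α = ((p : ℤ) : 𝓞 K) ^ k * ((m' : 𝓞 K) - θ * z') := by
        rw [hα, e1, e2]
        push_cast
        ring
      have hnot : ((m' : 𝓞 K) - θ * z') ∉ 𝔭 := by
        intro h1
        apply hn'
        rw [← hpm, ← hfact m' z']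
        exact 𝔭.mul_mem_right _ h1
      have hne' : ((m' : 𝓞 K) - θ * z') ≠ 0 := fun h1 => hnot (h1 ▸ 𝔭.zero_mem)
      have hp0 : ((p : ℤ) : 𝓞 K) ≠ 0 := Int.cast_ne_zero.2 hpp.ne_zero
      rw [hα', ← Ideal.span_singleton_mul_span_singleton, count_mul'
        (by rw [Ne, Ideal.span_singleton_eq_bot]; exact pow_ne_zero _ hp0)
        (by rwa [Ne, Ideal.span_singleton_eq_bot]), ← Ideal.span_singleton_pow, count_pow',
        count_zero_of (fun h1 => hnot (Ideal.dvd_span_singleton.1 h1)), add_zero] at hodd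
      exact (Nat.not_even_iff_odd.2 hodd) (hk.mul_right _)
    · have h1 : (3 * θ ^ 2 + 2 * a * θ + b) * (z : 𝓞 K) ^ 2 ∈ 𝔭 := by
        have h2 : (3 * θ ^ 2 + 2 * a * θ + b) * (z : 𝓞 K) ^ 2 =
            β - α * ((m : 𝓞 K) + (2 * θ + a) * z) := by
          rw [hα, hβ]
          ring
        rw [h2]
        exact 𝔭.sub_mem hmβ (𝔭.mul_mem_right _ hmα)
      exact (h𝔭p.mem_or_mem h1).resolve_right fun h2 => hz𝔭 (h𝔭p.mem_of_pow_mem _ h2)
  -- norms
  have hNα : Algebra.norm ℤ α = w ^ 2 := by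
    have h1 : ((Algebra.norm ℤ α : ℤ) : ℚ) = ((w ^ 2 : ℤ) : ℚ) := by
      rw [Algebra.coe_norm_int, ← hn]
      have h2 := h.norm_sub m z
      rw [hW] at h2
      rw [frm]
      push_cast
      rw [hα]
      push_cast at h2 ⊢
      exact h2
    exact_mod_cast h1
  have hNf : Algebra.norm ℤ (3 * θ ^ 2 + 2 * a * θ + b : 𝓞 K) =
      -(a ^ 2 * b ^ 2 - 4 * b ^ 3 - 4 * a ^ 3 * c - 27 * c ^ 2 + 18 * a * b * c) := by
    have h1 : ((Algebra.norm ℤ (3 * θ ^ 2 + 2 * a * θ + b : 𝓞 K) : ℤ) : ℚ) =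
        ((-(a ^ 2 * b ^ 2 - 4 * b ^ 3 - 4 * a ^ 3 * c - 27 * c ^ 2 + 18 * a * b * c) : ℤ) : ℚ) := by
      rw [Algebra.coe_norm_int]
      have h2 := h.norm_deriv
      rw [hW] at h2
      push_cast at h2 ⊢
      exact h2
    exact_mod_cast h1
  have hJ1 : Ideal.absNorm J = 1 := by
    have h1 : Ideal.absNorm J * (Ideal.absNorm 𝔟) ^ 2 = w.natAbs ^ 2 := by
      rw [← map_pow, ← map_mul, ← hJ, Ideal.absNorm_span_singleton, hNα, Int.natAbs_pow]
    refine sq_dvd_sqfree (Int.natAbs_ne_zero.2 hw) h1 ?_ (Int.squarefree_natAbs.2 hD)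
    have h2 := map_dvd Ideal.absNorm hdvd
    rwa [Ideal.absNorm_span_singleton, hNf, Int.natAbs_neg] at h2
  rw [Ideal.absNorm_eq_one_iff] at hJ1
  refine ⟨𝔟, ?_⟩
  rw [hJ, hJ1, ← Ideal.one_eq_top, one_mul]

end Pool.Agent.ZCS
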