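import Pool.Agent.ZCS.Dep
import Pool.Agent.ZCQS.Prime7

/-!
# Fields of infinite degree

`infinite_of_primes`: a field which contains the square roots of infinitely many primes has infinite degree over `ℚ`.
`F7`: the field generated by the square roots of `-1` and of the primes which are not `0`, `1`, `6` modulo `7`.
`infinite_seven`: this field has infinite degree; `F7_le`: it is contained in the field generated by the square roots of
the integers `d` such that `x³ + x² - 2 x - 1` has no zero modulo any prime which divides `d`.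
-/

set_option autoImplicit false

noncomputable section

namespace Pool.Agent.ZCS

open WeierstrassCurve Pool.Agent.ZC Pool.Agent.ZCQ Pool.Agent.ZCQK Pool.Agent.ZCQL
open scoped Classical

/-- Kummer theory over the rational numbers -/
theorem kummer_bot {L : IntermediateField ℚ (AlgebraicClosure ℚ)} (hL : L = ⊥) (D : Set ℚ)
    (h1D : (1 : ℚ) ∈ D) (hD0 : ∀ d ∈ D, d ≠ 0) (hDm : ∀ d ∈ D, ∀ d' ∈ D, d * d' ∈ D)
    {y : AlgebraicClosure ℚ} (hy : y ∈ IntermediateField.adjoin L
      {s : AlgebraicClosure ℚ | ∃ d ∈ D, s ^ 2 = algebraMap ℚ (AlgebraicClosure ℚ) d})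
    (hy2 : ∃ q : ℚ, y ^ 2 = algebraMap ℚ (AlgebraicClosure ℚ) q) :
    ∃ d ∈ D, ∃ r : ℚ, y ^ 2 = algebraMap ℚ (AlgebraicClosure ℚ) (r ^ 2 * d) := by
  set f := algebraMap ℚ (AlgebraicClosure ℚ) with hf
  have hfL : ∀ r : ℚ, f r = algebraMap L (AlgebraicClosure ℚ) (algebraMap ℚ L r) := fun r =>
    IsScalarTower.algebraMap_apply ℚ L (AlgebraicClosure ℚ) r
  have halg : Algebra.IsAlgebraic L (AlgebraicClosure ℚ) := by
    have h0 : Algebra.IsAlgebraic ℚ (AlgebraicClosure ℚ) := AlgebraicClosure.isAlgebraic ℚ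
    exact Algebra.IsAlgebraic.tower_top (K := ℚ) L
  obtain ⟨q, hq⟩ := hy2
  obtain ⟨s, ⟨d, hd, hs⟩, r, hr⟩ := kummer (k := L) two_ne_zero
    {s : AlgebraicClosure ℚ | ∃ d ∈ D, s ^ 2 = f d} ⟨1, h1D, by rw [map_one]; ring⟩
    (fun s ⟨d, hd, e⟩ t ⟨d', hd', e'⟩ => ⟨d * d', hDm d hd d' hd', by
      rw [mul_pow, e, e', map_mul]⟩)
    (fun s ⟨d, _, e⟩ => ⟨algebraMap ℚ L d, by rw [e, hfL]⟩)
    (by
      rintro s ⟨d, hd, hs⟩ rfl
      apply hD0 d hd
      apply f.injective
      rw [← hs, map_zero]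
      ring) hy ⟨algebraMap ℚ L q, by rw [hq, hfL]⟩
  obtain ⟨r', hr'⟩ : ∃ r' : ℚ, algebraMap L (AlgebraicClosure ℚ) r = f r' := by
    obtain ⟨l, hl⟩ := r
    rw [hL] at hl
    obtain ⟨r, hr⟩ := IntermediateField.mem_bot.1 hl
    exact ⟨r, hr.symm⟩
  refine ⟨d, hd, r', ?_⟩
  rw [hr, hr', mul_pow, hs, map_mul, map_pow]

/-- The square root of a prime is not in the field generated by the square roots of the rational numbers of even
valuation. -/
theorem sqrt_notMem {L : IntermediateField ℚ (AlgebraicClosure ℚ)} (hL : L = ⊥) {p : ℕ}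
    (hp : p.Prime) {y : AlgebraicClosure ℚ} (hy : y ^ 2 = p) :
    y ∉ IntermediateField.adjoin L {s : AlgebraicClosure ℚ | ∃ d ∈ {q : ℚ | q ≠ 0 ∧
      Even (padicValRat p q)}, s ^ 2 = algebraMap ℚ (AlgebraicClosure ℚ) d} := by
  intro h
  haveI : Fact p.Prime := ⟨hp⟩
  obtain ⟨d, ⟨hd0, hd⟩, r, hr⟩ := kummer_bot hL {q : ℚ | q ≠ 0 ∧ Even (padicValRat p q)}
    ⟨one_ne_zero, by simp⟩ (fun d hd => hd.1)
    (fun d hd d' hd' => ⟨mul_ne_zero hd.1 hd'.1, by
      rw [padicValRat.mul hd.1 hd'.1]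
      exact hd.2.add hd'.2⟩) h ⟨p, by rw [hy]; simp⟩
  have h1 : (p : ℚ) = r ^ 2 * d := by
    apply (algebraMap ℚ (AlgebraicClosure ℚ)).injective
    rw [← hr, hy]
    simp
  have hr0 : r ≠ 0 := by
    rintro rfl
    have : (p : ℚ) ≠ 0 := Nat.cast_ne_zero.2 hp.ne_zero
    apply this
    rw [h1]
    ring
  have h2 := congrArg (padicValRat p) h1
  rw [padicValRat.mul (pow_ne_zero 2 hr0) hd0, pow_two, padicValRat.mul hr0 hr0,
    padicValRat.self hp.one_lt] at h2
  obtain ⟨k, hk⟩ := hd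
  rw [hk] at h2
  omega

/-- A field which contains the square roots of infinitely many primes has infinite degree. -/
theorem infinite_of_primes {L : IntermediateField ℚ (AlgebraicClosure ℚ)} (hL : L = ⊥) {T : Set ℕ}
    (hTinf : T.Infinite) (hTp : ∀ p ∈ T, p.Prime)
    {F : IntermediateField L (AlgebraicClosure ℚ)}
    (hF : ∀ p ∈ T, ∀ s : AlgebraicClosure ℚ, s ^ 2 = p → s ∈ F) : ¬ FiniteDimensional L F := by
  intro hfin
  -- square roots
  have hsq : ∀ p : ℕ, ∃ s : AlgebraicClosure ℚ, s ^ 2 = p := fun p =>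
    IsAlgClosed.exists_pow_nat_eq _ two_pos
  choose s hs using hsq
  have hsF : ∀ p ∈ T, s p ∈ F := fun p hp => hF p hp _ (hs p)
  have hli : ∀ U : Finset ℕ, (U : Set ℕ) ⊆ T → LinearIndepOn L s (U : Set ℕ) := by
    intro U
    induction U using Finset.induction_on with
    | empty =>
      intro _
      rw [Finset.coe_empty]
      exact linearIndepOn_empty L s
    | insert p U hpU ih =>
      intro hU
      rw [Finset.coe_insert] at hU ⊢
      have hpT : p ∈ T := hU (Set.mem_insert _ _)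
      have hUT : (U : Set ℕ) ⊆ T := fun x hx => hU (Set.mem_insert_of_mem _ hx)
      refine (ih hUT).insert fun hmem => ?_
      refine sqrt_notMem hL (hTp p hpT) (hs p) ?_
      have hle : Submodule.span L (s '' (U : Set ℕ)) ≤
          Subalgebra.toSubmodule (IntermediateField.adjoin L {s : AlgebraicClosure ℚ |
            ∃ d ∈ {q : ℚ | q ≠ 0 ∧ Even (padicValRat p q)},
              s ^ 2 = algebraMap ℚ (AlgebraicClosure ℚ) d}).toSubalgebra := by
        rw [Submodule.span_le]
        rintro _ ⟨q, hq, rfl⟩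
        refine IntermediateField.subset_adjoin L _ ⟨q, ⟨?_, ?_⟩, by rw [hs]; simp⟩
        · exact Nat.cast_ne_zero.2 (hTp q (hUT hq)).ne_zero
        · have hpq : p ≠ q := by
            rintro rfl
            exact hpU hq
          have h3 : padicValNat p q = 0 :=
            padicValNat.eq_zero_of_not_dvd fun h4 =>
              hpq ((Nat.prime_dvd_prime_iff_eq (hTp p hpT) (hTp q (hUT hq))).1 h4)
          rw [padicValRat.of_nat, h3]
          simp
      exact hle hmem
  -- a large finite set of primes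
  obtain ⟨U, hU, hUc⟩ := hTinf.exists_subset_card_eq (Module.finrank L F + 1)
  have h1 := hli U hU
  have h2 : LinearIndependent L fun p : U => (⟨s p, hsF p (hU p.2)⟩ : F) := by
    refine LinearIndependent.of_comp F.val.toLinearMap ?_
    exact h1
  have h3 := h2.fintype_card_le_finrank
  rw [Fintype.card_coe, hUc] at h3
  omega

/-- The field `F7` has infinite degree. -/
theorem infinite_seven {L : IntermediateField ℚ (AlgebraicClosure ℚ)} (hL : L = ⊥) :
    ¬ FiniteDimensional L (F7 L) := by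
  refine infinite_of_primes hL (T := {p : ℕ | p.Prime ∧ p % 7 ≠ 0 ∧ p % 7 ≠ 1 ∧ p % 7 ≠ 6}) ?_
    (fun p hp => hp.1) fun p hp s hs => IntermediateField.subset_adjoin L _
      (Or.inr ⟨p, hp.1, hp.2.1, hp.2.2.1, hp.2.2.2, hs⟩)
  have h7 : IsUnit (3 : ZMod 7) := by decide
  have h1 := Nat.infinite_setOfPred_prime_and_eq_mod h7
  refine h1.mono ?_
  rintro p ⟨hp, hp3⟩
  have h2 : p % 7 = 3 := by
    have h3 : (p : ZMod 7) = ((3 : ℕ) : ZMod 7) := hp3
    have h4 := (ZMod.natCast_eq_natCast_iff' _ _ _).1 h3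
    exact h4
  exact ⟨hp, by omega, by omega, by omega⟩

/-- `f = x³ + x² - 2 x - 1` has no zero modulo the primes which are not `0`, `1`, `6` modulo `7`. -/
theorem F7_le (L : IntermediateField ℚ (AlgebraicClosure ℚ)) :
    F7 L ≤ IntermediateField.adjoin L
      {s : AlgebraicClosure ℚ | ∃ d : ℤ, d ≠ 0 ∧ Silent 1 (-2) (-1) d ∧ s ^ 2 = d} := by
  rw [F7, IntermediateField.adjoin_le_iff]
  rintro s (h | ⟨p, hp, h0, h1, h6, h⟩)
  · refine IntermediateField.subset_adjoin L _ ⟨-1, by norm_num, ?_, by rw [h]; simp⟩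
    intro q hq hq1
    exact absurd (isUnit_of_dvd_unit hq1 (by norm_num : IsUnit (-1 : ℤ)))
      (Nat.prime_iff_prime_int.1 hq).not_isUnit
  · refine IntermediateField.subset_adjoin L _ ⟨p, ?_, ?_, by rw [h]; simp⟩
    · exact_mod_cast hp.ne_zero
    · intro q hq hqp x hx
      have h2 : q = p := (Nat.prime_dvd_prime_iff_eq hq hp).1 (by exact_mod_cast hqp)
      subst h2
      refine Pool.Agent.ZCQS.no_root hq h0 h1 h6 (x : ZMod q) ?_
      have h3 := (ZMod.intCast_zmod_eq_zero_iff_dvd _ q).2 hx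
      push_cast at h3
      linear_combination h3

end Pool.Agent.ZCS
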