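import Pool.Agent.ZCS.SilInf
import Pool.Agent.ZCS.Seven

/-!
# The field of the general theorem has infinite degree

`infinite_silent`: for every cubic polynomial without rational zeros the field generated by the
square roots of the integers whose prime divisors are silent has infinite degree.
-/

set_option autoImplicit false

noncomputable section

namespace Pool.Agent.ZCS

open scoped Classical

/-- The field generated by the square roots of the integers all of whose prime divisors are silent
for a given cubic polynomial without rational zeros has infinite degree. -/
theorem infinite_silent {a b c : ℤ} (hirr : ∀ x : ℚ, x ^ 3 + a * x ^ 2 + b * x + c ≠ 0)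
    {L : IntermediateField ℚ (AlgebraicClosure ℚ)} (hL : L = ⊥)
    {F : IntermediateField L (AlgebraicClosure ℚ)} (hF : F = IntermediateField.adjoin L
      {s : AlgebraicClosure ℚ | ∃ d : ℤ, d ≠ 0 ∧ Silent a b c d ∧ s ^ 2 = d}) :
    ¬ FiniteDimensional L F := by
  refine infinite_of_primes hL (silent_infinite hirr) (fun p hp => hp.1) fun p hp s hs => ?_
  rw [hF]
  refine IntermediateField.subset_adjoin L _ ⟨p, ?_, hp.2, by rw [hs]; simp⟩
  exact_mod_cast hp.1.ne_zero

end Pool.Agent.ZCS
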