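import Pool.Agent.ZCS.Ideal

/-!
# The ideal of `m - θ z` if `1, θ, θ²` generate the ring of integers

`ideal_sq_mono`: if the ring of integers is `ℤ[θ]`, `z = d e²` with coprime `m`, `e`, where `f` has no zero modulo the
primes which divide `d`, and the norm of `m - θ z` is a nonzero square, then the ideal of `m - θ z` is a square.
-/

set_option autoImplicit false

noncomputable section

namespace Pool.Agent.ZCS

open WeierstrassCurve NumberField UniqueFactorizationMonoid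
open scoped Classical

section general

variable {R : Type} [CommRing R] [IsDedekindDomain R]

/-- A nonzero ideal is a square times the product of the primes of odd multiplicity. -/
theorem exists_odd_prod {I : Ideal R} (hI : I ≠ ⊥) : ∃ (S : Finset (Ideal R)) (b : Ideal R),
    I = (∏ p ∈ S, p) * b ^ 2 ∧ ∀ p ∈ S, Prime p ∧ Odd ((normalizedFactors I).count p) := by
  set S := (normalizedFactors I).toFinset with hS
  refine ⟨S.filter (fun p => Odd ((normalizedFactors I).count p)),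
    ∏ p ∈ S, p ^ ((normalizedFactors I).count p / 2), ?_, ?_⟩
  · conv_lhs => rw [← Ideal.prod_normalizedFactors_eq_self hI, Finset.prod_multiset_count]
    rw [Finset.prod_filter, ← Finset.prod_pow, ← Finset.prod_mul_distrib]
    refine Finset.prod_congr rfl fun p _ => ?_
    by_cases h : Odd ((normalizedFactors I).count p)
    · rw [if_pos h, ← pow_mul, ← pow_succ']
      congr 1
      have := Nat.div_add_mod ((normalizedFactors I).count p) 2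
      rw [Nat.odd_iff.1 h] at this
      omega
    · rw [if_neg h, one_mul, ← pow_mul]
      congr 1
      have := Nat.div_mul_cancel (even_iff_two_dvd.1 (Nat.not_odd_iff_even.1 h))
      exact this.symm
  · intro p hp
    obtain ⟨h1, h2⟩ := Finset.mem_filter.1 hp
    exact ⟨prime_of_normalized_factor p (Multiset.mem_toFinset.1 h1), h2⟩

end general

variable {K : Type} [Field K] [NumberField K]

/-- the prime number under a prime ideal -/
theorem exists_under {𝔭 : Ideal (𝓞 K)} (h𝔭 : 𝔭.IsPrime) {z : ℤ} (hz0 : z ≠ 0)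
    (hz : (z : 𝓞 K) ∈ 𝔭) : ∃ p : ℕ, p.Prime ∧ ∀ x : ℤ, (x : 𝓞 K) ∈ 𝔭 ↔ (p : ℤ) ∣ x := by
  set P : Ideal ℤ := 𝔭.comap (Int.castRingHom (𝓞 K)) with hP
  have hPp : P.IsPrime := Ideal.comap_isPrime _ _
  obtain ⟨g, hg⟩ := IsPrincipalIdealRing.principal P
  have hPm : ∀ x : ℤ, (x : 𝓞 K) ∈ 𝔭 ↔ g ∣ x := by
    intro x
    have h1 : (x : 𝓞 K) ∈ 𝔭 ↔ x ∈ P := Iff.rfl
    rw [h1, hg, ← Ideal.span, Ideal.mem_span_singleton]
  have hg0 : g ≠ 0 := by
    rintro rfl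
    exact hz0 (zero_dvd_iff.1 ((hPm z).1 hz))
  have hgp : Prime g := by
    rw [← Ideal.span_singleton_prime hg0]
    have h2 : Ideal.span {g} = P := hg.symm
    rw [h2]
    exact hPp
  refine ⟨g.natAbs, Int.prime_iff_natAbs_prime.1 hgp, fun x => ?_⟩
  rw [hPm, Int.natAbs_dvd]

/-- The prime ideals which contain `m - θ z` but not `z` have degree one and are determined by their norm. -/
theorem degree_one {θ : 𝓞 K} (hO : ∀ x : 𝓞 K, ∃ u v w : ℤ, x = u + v * θ + w * θ ^ 2) {m z : ℤ}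
    {𝔭 : Ideal (𝓞 K)} {p : ℕ} (hp : p.Prime)
    (hpm : ∀ x : ℤ, (x : 𝓞 K) ∈ 𝔭 ↔ (p : ℤ) ∣ x) (h𝔭 : 𝔭.IsPrime)
    (hα : (m : 𝓞 K) - θ * z ∈ 𝔭) (hz : (z : 𝓞 K) ∉ 𝔭) {t : ℤ} (ht : (p : ℤ) ∣ m - z * t) :
    Ideal.absNorm 𝔭 = p ∧ ∀ u v w : ℤ, ((u : 𝓞 K) + v * θ + w * θ ^ 2 ∈ 𝔭 ↔
      (p : ℤ) ∣ u + v * t + w * t ^ 2) := by
  have hθt : θ - (t : 𝓞 K) ∈ 𝔭 := by
    have h1 : (z : 𝓞 K) * (θ - t) ∈ 𝔭 := by
      have h2 : (z : 𝓞 K) * (θ - t) = ((m - z * t : ℤ) : 𝓞 K) - ((m : 𝓞 K) - θ * z) := by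
        push_cast
        ring
      rw [h2]
      exact 𝔭.sub_mem ((hpm _).2 ht) hα
    exact (h𝔭.mem_or_mem h1).resolve_left hz
  have key : ∀ u v w : ℤ, (u : 𝓞 K) + v * θ + w * θ ^ 2 -
      ((u + v * t + w * t ^ 2 : ℤ) : 𝓞 K) ∈ 𝔭 := by
    intro u v w
    have h2 : (u : 𝓞 K) + v * θ + w * θ ^ 2 - ((u + v * t + w * t ^ 2 : ℤ) : 𝓞 K) =
        ((v : 𝓞 K) + w * (θ + t)) * (θ - t) := by
      push_cast
      ring
    rw [h2]
    exact 𝔭.mul_mem_left _ hθt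
  have hmem : ∀ u v w : ℤ, ((u : 𝓞 K) + v * θ + w * θ ^ 2 ∈ 𝔭 ↔
      (p : ℤ) ∣ u + v * t + w * t ^ 2) := by
    intro u v w
    rw [← hpm]
    constructor
    · intro h1
      have h2 := 𝔭.sub_mem h1 (key u v w)
      rwa [sub_sub_cancel] at h2
    · intro h1
      have h2 := 𝔭.add_mem (key u v w) h1
      rwa [sub_add_cancel] at h2
  refine ⟨?_, hmem⟩
  set φ : ℤ →+* 𝓞 K ⧸ 𝔭 := (Ideal.Quotient.mk 𝔭).comp (Int.castRingHom (𝓞 K)) with hφ
  have hsurj : Function.Surjective φ := by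
    intro y
    obtain ⟨x, rfl⟩ := Ideal.Quotient.mk_surjective y
    obtain ⟨u, v, w, rfl⟩ := hO x
    refine ⟨u + v * t + w * t ^ 2, ?_⟩
    exact (Ideal.Quotient.eq.2 (key u v w)).symm
  have hker : RingHom.ker φ = Ideal.span {(p : ℤ)} := by
    ext x
    rw [RingHom.mem_ker, Ideal.mem_span_singleton, ← hpm]
    exact Ideal.Quotient.eq_zero_iff_mem
  have e := (Ideal.quotEquivOfEq hker.symm).trans (RingHom.quotientKerEquivOfSurjective hsurj)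
  rw [Ideal.absNorm_apply, Submodule.cardQuot_apply, ← Nat.card_congr e.toEquiv,
    Int.card_ideal_quot]

/-- The ideal of `m - θ z` is a square. -/
theorem ideal_sq_mono {a b c : ℤ} {θ : 𝓞 K} (hroot : θ ^ 3 + a * θ ^ 2 + b * θ + c = 0)
    (hO : ∀ x : 𝓞 K, ∃ u v w : ℤ, x = u + v * θ + w * θ ^ 2)
    (hN : ∀ m z : ℤ, Algebra.norm ℤ ((m : 𝓞 K) - θ * z) = frm a b c m z)
    {m e d w : ℤ} (hme : IsCoprime m e) (he : e ≠ 0) (hd : d ≠ 0)
    (hs : ∀ p : ℕ, p.Prime → (p : ℤ) ∣ d → ∀ x : ℤ, ¬ (p : ℤ) ∣ x ^ 3 + a * x ^ 2 + b * x + c)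
    (hw : w ≠ 0) (hn : frm a b c m (d * e ^ 2) = w ^ 2) :
    ∃ 𝔟 : Ideal (𝓞 K), Ideal.span {(m : 𝓞 K) - θ * (d * e ^ 2 : ℤ)} = 𝔟 ^ 2 := by
  set z : ℤ := d * e ^ 2 with hz
  have hz0 : z ≠ 0 := mul_ne_zero hd (pow_ne_zero 2 he)
  set α : 𝓞 K := (m : 𝓞 K) - θ * (z : 𝓞 K) with hα
  have hfact : ∀ m z : ℤ, ((m : 𝓞 K) - θ * z) *
      ((m : 𝓞 K) ^ 2 + (θ + a) * m * z + (θ ^ 2 + a * θ + b) * z ^ 2) = (frm a b c m z : ℤ) := by
    intro m z
    rw [frm]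
    push_cast
    linear_combination (-(z : 𝓞 K) ^ 3) * hroot
  have hNα : Algebra.norm ℤ α = w ^ 2 := by
    rw [← hn]
    exact hN m z
  have hα0 : α ≠ 0 := by
    intro e0
    rw [e0, Algebra.norm_zero] at hNα
    exact (pow_ne_zero 2 hw) hNα.symm
  have hIα : Ideal.span {α} ≠ ⊥ := by rwa [Ne, Ideal.span_singleton_eq_bot]
  obtain ⟨S, 𝔟, hJ, hS⟩ := exists_odd_prod hIα
  have hαS : ∀ 𝔭 ∈ S, α ∈ 𝔭 := by
    intro 𝔭 h
    refine Ideal.dvd_span_singleton.1 (dvd_of_count fun e0 => ?_)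
    have := (hS 𝔭 h).2
    rw [e0] at this
    exact absurd this (by decide)
  have hNS : ∀ 𝔭 ∈ S, ((w ^ 2 : ℤ) : 𝓞 K) ∈ 𝔭 := by
    intro 𝔭 h
    have h1 := hfact m z
    rw [hn] at h1
    rw [← h1]
    exact 𝔭.mul_mem_right _ (hαS 𝔭 h)
  have hzS : ∀ 𝔭 ∈ S, (z : 𝓞 K) ∉ 𝔭 := by
    intro 𝔭 h hz𝔭
    have hodd := (hS 𝔭 h).2
    have h𝔭p : 𝔭.IsPrime := Ideal.isPrime_of_prime (hS 𝔭 h).1
    have hm𝔭 : (m : 𝓞 K) ∈ 𝔭 := by
      have h1 : (m : 𝓞 K) = α + θ * z := by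
        rw [hα]
        ring
      rw [h1]
      exact 𝔭.add_mem (hαS 𝔭 h) (𝔭.mul_mem_left _ hz𝔭)
    obtain ⟨p, hp, hpm⟩ := exists_under h𝔭p hz0 hz𝔭
    have hpp : Prime (p : ℤ) := Nat.prime_iff_prime_int.1 hp
    have hpmm : (p : ℤ) ∣ m := (hpm m).1 hm𝔭
    have hpd : (p : ℤ) ∣ d := by
      rcases hpp.dvd_or_dvd ((hpm z).1 hz𝔭) with h1 | h1
      · exact h1
      · exfalso
        have h2 := hpp.dvd_of_dvd_pow h1
        exact hpp.not_isUnit (hme.isUnit_of_dvd' hpmm h2)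
    obtain ⟨k, m', z', e1, e2, e3⟩ := exists_prim hp (m := m) hz0
    have hn' := frm_prime hp (hs p hp hpd) e3
    have hk : Even k := by
      refine even_exp hp hn' (w := w) ?_
      rw [← hn, e1, e2, frm, frm]
      ring
    have hα' : α = ((p : ℤ) : 𝓞 K) ^ k * ((m' : 𝓞 K) - θ * z') := by
      rw [hα, e1, e2]
      push_cast
      ring
    have hnot : ((m' : 𝓞 K) - θ * z') ∉ 𝔭 := by
      intro h1
      apply hn'
      rw [← hpm, ← hfact m' z']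
      exact 𝔭.mul_mem_right _ h1
    have hne' : ((m' : 𝓞 K) - θ * z') ≠ 0 := fun h1 => hnot (h1 ▸ 𝔭.zero_mem)
    have hp0 : ((p : ℤ) : 𝓞 K) ≠ 0 := Int.cast_ne_zero.2 hpp.ne_zero
    rw [hα', ← Ideal.span_singleton_mul_span_singleton, count_mul'
      (by rw [Ne, Ideal.span_singleton_eq_bot]; exact pow_ne_zero _ hp0)
      (by rwa [Ne, Ideal.span_singleton_eq_bot]), ← Ideal.span_singleton_pow, count_pow',
      count_zero_of (fun h1 => hnot (Ideal.dvd_span_singleton.1 h1)), add_zero] at hodd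
    exact (Nat.not_even_iff_odd.2 hodd) (hk.mul_right _)
  -- the primes of odd multiplicity have degree one
  have hdeg : ∀ 𝔭 ∈ S, ∃ (p : ℕ) (t : ℤ), p.Prime ∧ (p : ℤ) ∣ m - z * t ∧
      (∀ t' : ℤ, (p : ℤ) ∣ m - z * t' → (p : ℤ) ∣ t - t') ∧ Ideal.absNorm 𝔭 = p ∧
      ∀ u v w : ℤ, ((u : 𝓞 K) + v * θ + w * θ ^ 2 ∈ 𝔭 ↔ (p : ℤ) ∣ u + v * t + w * t ^ 2) := by
    intro 𝔭 h
    have h𝔭p : 𝔭.IsPrime := Ideal.isPrime_of_prime (hS 𝔭 h).1
    obtain ⟨p, hp, hpm⟩ := exists_under h𝔭p (pow_ne_zero 2 hw) (hNS 𝔭 h)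
    have hpp : Prime (p : ℤ) := Nat.prime_iff_prime_int.1 hp
    have hpz : ¬ (p : ℤ) ∣ z := fun h1 => hzS 𝔭 h ((hpm z).2 h1)
    obtain ⟨r, s, hrs⟩ := (hpp.coprime_iff_not_dvd).2 hpz
    have ht : (p : ℤ) ∣ m - z * (m * s) := ⟨m * r, by linear_combination (-m) * hrs⟩
    obtain ⟨h2, h3⟩ := degree_one hO hp hpm h𝔭p (hαS 𝔭 h) (hzS 𝔭 h) ht
    refine ⟨p, m * s, hp, ht, fun t' ht' => ?_, h2, h3⟩
    have h4 : (p : ℤ) ∣ z * (m * s - t') := by
      have h5 : z * (m * s - t') = (m - z * t') - (m - z * (m * s)) := by ring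
      rw [h5]
      exact dvd_sub ht' ht
    exact (hpp.dvd_or_dvd h4).resolve_left hpz
  have hsqf : Squarefree (Ideal.absNorm (∏ p ∈ S, p)) := by
    rw [map_prod]
    refine Finset.squarefree_prod_of_pairwise_isCoprime (fun 𝔭 h 𝔮 h' hne => ?_) fun 𝔭 h => ?_
    · obtain ⟨p, t, hp, ht, -, hNp, hmem⟩ := hdeg 𝔭 h
      obtain ⟨q, t', hq, ht', huni, hNq, hmem'⟩ := hdeg 𝔮 h'
      change IsRelPrime (Ideal.absNorm 𝔭) (Ideal.absNorm 𝔮)
      rw [hNp, hNq, ← Nat.coprime_iff_isRelPrime, Nat.coprime_primes hp hq]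
      rintro rfl
      apply hne
      obtain ⟨k, hk⟩ := huni t ht
      ext x
      obtain ⟨u, v, w, rfl⟩ := hO x
      rw [hmem, hmem']
      have h5 : u + v * t' + w * t' ^ 2 = u + v * t + w * t ^ 2 + p * (k * (v + w * (t' + t))) := by
        linear_combination (v + w * (t' + t)) * hk
      rw [h5]
      exact (dvd_add_left (dvd_mul_right _ _)).symm
    · obtain ⟨p, t, hp, -, -, hNp, -⟩ := hdeg 𝔭 h
      change Squarefree (Ideal.absNorm 𝔭)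
      rw [hNp]
      exact hp.prime.squarefree
  have hJ1 : Ideal.absNorm (∏ p ∈ S, p) = 1 := by
    have h1 : Ideal.absNorm (∏ p ∈ S, p) * (Ideal.absNorm 𝔟) ^ 2 = w.natAbs ^ 2 := by
      rw [← map_pow, ← map_mul, ← hJ, Ideal.absNorm_span_singleton, hNα, Int.natAbs_pow]
    exact sq_dvd_sqfree (Int.natAbs_ne_zero.2 hw) h1 (dvd_refl _) hsqf
  rw [Ideal.absNorm_eq_one_iff] at hJ1
  refine ⟨𝔟, ?_⟩
  rw [hJ, hJ1, ← Ideal.one_eq_top, one_mul]

end Pool.Agent.ZCS
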