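import Pool.Agent.ZCS.Desc

/-!
# Norms in cubic fields

`Cub.norm_eq`: the norm of `u + v θ + w θ²`. `Cub.norm_sub`, `Cub.norm_deriv`: the norms of `m - θ z` and of the derivative
at `θ`.
-/

set_option autoImplicit false

noncomputable section

namespace Pool.Agent.ZCS

open WeierstrassCurve
open scoped Classical

variable {K : Type} [Field K] [CharZero K] {W : WeierstrassCurve ℚ} {θ : K}

/-- the powers of `θ` -/
private def bv (θ : K) : Fin 3 → K := ![1, θ, θ ^ 2]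

private theorem sum_bv (θ : K) (u : Fin 3 → ℚ) :
    ∑ i, u i • bv θ i = (u 0 : K) + u 1 * θ + u 2 * θ ^ 2 := by
  rw [Fin.sum_univ_three]
  simp only [bv, Matrix.cons_val_zero, Matrix.cons_val_one, Matrix.cons_val, Rat.smul_def]
  ring

/-- the basis `1, θ, θ²` -/
def Cub.basis (h : Cub W θ) : Module.Basis (Fin 3) ℚ K :=
  Module.Basis.mk (v := bv θ)
    (by
      rw [Fintype.linearIndependent_iff]
      intro g hg
      rw [sum_bv] at hg
      obtain ⟨h0, h1, h2⟩ := h.li _ _ _ hg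
      intro i
      fin_cases i
      · exact h0
      · exact h1
      · exact h2)
    (by
      intro γ _
      obtain ⟨u, v, w, rfl⟩ := h.span γ
      have e := sum_bv θ ![u, v, w]
      simp only [Matrix.cons_val_zero, Matrix.cons_val_one, Matrix.cons_val] at e
      rw [← e]
      exact Submodule.sum_mem _ fun i _ =>
        Submodule.smul_mem _ _ (Submodule.subset_span ⟨i, rfl⟩))

theorem Cub.basis_apply (h : Cub W θ) (i : Fin 3) : h.basis i = bv θ i := by
  rw [Cub.basis, Module.Basis.mk_apply]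

theorem Cub.repr_eq (h : Cub W θ) (u : Fin 3 → ℚ) {x : K}
    (hx : x = (u 0 : K) + u 1 * θ + u 2 * θ ^ 2) (i : Fin 3) : h.basis.repr x i = u i := by
  rw [hx, ← sum_bv]
  have h1 : ∑ i, u i • bv θ i = ∑ i, u i • h.basis i :=
    Finset.sum_congr rfl fun i _ => by rw [h.basis_apply]
  rw [h1, Module.Basis.repr_sum_self]

/-- The norm of `u + v θ + w θ²`. -/
theorem Cub.norm_eq (h : Cub W θ) (u v w : ℚ) :
    Algebra.norm ℚ ((u : K) + v * θ + w * θ ^ 2) =
      u * ((u - w * W.a₄) * (u - w * W.a₄ - W.a₂ * (v - w * W.a₂)) -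
        (v - w * W.a₂) * (-(w * W.a₆) - W.a₄ * (v - w * W.a₂))) -
      (-(w * W.a₆)) * (v * (u - w * W.a₄ - W.a₂ * (v - w * W.a₂)) -
        (-(w * W.a₆) - W.a₄ * (v - w * W.a₂)) * w) +
      (-(W.a₆ * (v - w * W.a₂))) * (v * (v - w * W.a₂) - (u - w * W.a₄) * w) := by
  rw [Algebra.norm_eq_matrix_det h.basis, Matrix.det_fin_three]
  have hr := h.root
  have c0 : ∀ i, Algebra.leftMulMatrix h.basis ((u : K) + v * θ + w * θ ^ 2) i 0 =
      ![u, v, w] i := by
    intro i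
    rw [Algebra.leftMulMatrix_eq_repr_mul, h.basis_apply]
    refine h.repr_eq ![u, v, w] ?_ i
    simp only [bv, Matrix.cons_val_zero, Matrix.cons_val_one, Matrix.cons_val]
    ring
  have c1 : ∀ i, Algebra.leftMulMatrix h.basis ((u : K) + v * θ + w * θ ^ 2) i 1 =
      ![-(w * W.a₆), u - w * W.a₄, v - w * W.a₂] i := by
    intro i
    rw [Algebra.leftMulMatrix_eq_repr_mul, h.basis_apply]
    refine h.repr_eq ![-(w * W.a₆), u - w * W.a₄, v - w * W.a₂] ?_ i
    simp only [bv, Matrix.cons_val_zero, Matrix.cons_val_one, Matrix.cons_val]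
    push_cast
    linear_combination w * hr
  have c2 : ∀ i, Algebra.leftMulMatrix h.basis ((u : K) + v * θ + w * θ ^ 2) i 2 =
      ![-(W.a₆ * (v - w * W.a₂)), -(w * W.a₆) - W.a₄ * (v - w * W.a₂),
        u - w * W.a₄ - W.a₂ * (v - w * W.a₂)] i := by
    intro i
    rw [Algebra.leftMulMatrix_eq_repr_mul, h.basis_apply]
    refine h.repr_eq ![-(W.a₆ * (v - w * W.a₂)), -(w * W.a₆) - W.a₄ * (v - w * W.a₂),
        u - w * W.a₄ - W.a₂ * (v - w * W.a₂)] ?_ i
    simp only [bv, Matrix.cons_val_zero, Matrix.cons_val_one, Matrix.cons_val]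
    push_cast
    linear_combination (v + w * θ - w * W.a₂) * hr
  rw [c0, c0, c0, c1, c1, c1, c2, c2, c2]
  simp only [Matrix.cons_val_zero, Matrix.cons_val_one, Matrix.cons_val]
  ring

/-- The norm of `m - θ z`. -/
theorem Cub.norm_sub (h : Cub W θ) (m z : ℚ) : Algebra.norm ℚ ((m : K) - θ * z) =
    m ^ 3 + W.a₂ * m ^ 2 * z + W.a₄ * m * z ^ 2 + W.a₆ * z ^ 3 := by
  have e : (m : K) - θ * z = ((m : ℚ) : K) + ((-z : ℚ) : K) * θ + ((0 : ℚ) : K) * θ ^ 2 := by
    push_cast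
    ring
  rw [e, h.norm_eq]
  ring

/-- The norm of the derivative at `θ`. -/
theorem Cub.norm_deriv (h : Cub W θ) :
    Algebra.norm ℚ (3 * θ ^ 2 + 2 * W.a₂ * θ + W.a₄ : K) =
      -(W.a₂ ^ 2 * W.a₄ ^ 2 - 4 * W.a₄ ^ 3 - 4 * W.a₂ ^ 3 * W.a₆ - 27 * W.a₆ ^ 2 +
        18 * W.a₂ * W.a₄ * W.a₆) := by
  have e : (3 * θ ^ 2 + 2 * W.a₂ * θ + W.a₄ : K) =
      ((W.a₄ : ℚ) : K) + ((2 * W.a₂ : ℚ) : K) * θ + ((3 : ℚ) : K) * θ ^ 2 := by
    push_cast
    ring
  rw [e, h.norm_eq]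
  ring

end Pool.Agent.ZCS
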