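import Pool.Agent.ZCS.Mono

/-!
# The ideal of `m - θ z` outside the discriminant

`ideal_sq_gen`: let `D` be a nonzero integer such that `D x` is an integral combination of `1, θ, θ²` for all algebraic
integers `x`, `z = d e²` with coprime `m`, `e`, where `f` has no zero modulo the primes which divide `d`, and let the norm
of `m - θ z` be a nonzero square. Then the ideal of `m - θ z` is a square times an ideal which divides a power of `D`.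
-/

set_option autoImplicit false

noncomputable section

namespace Pool.Agent.ZCS

open WeierstrassCurve NumberField UniqueFactorizationMonoid
open scoped Classical

variable {K : Type} [Field K] [NumberField K]

/-- The prime ideals which contain `m - θ z` but not `z` and `D` have degree one and are determined by their norm. -/
theorem degree_one_gen {θ : 𝓞 K} {D : ℤ}
    (hO : ∀ x : 𝓞 K, ∃ u v w : ℤ, D * x = u + v * θ + w * θ ^ 2) {m z : ℤ}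
    {𝔭 : Ideal (𝓞 K)} {p : ℕ} (hp : p.Prime)
    (hpm : ∀ x : ℤ, (x : 𝓞 K) ∈ 𝔭 ↔ (p : ℤ) ∣ x) (h𝔭 : 𝔭.IsPrime)
    (hα : (m : 𝓞 K) - θ * z ∈ 𝔭) (hz : (z : 𝓞 K) ∉ 𝔭) (hD : (D : 𝓞 K) ∉ 𝔭) {t : ℤ}
    (ht : (p : ℤ) ∣ m - z * t) :
    Ideal.absNorm 𝔭 = p ∧ ∀ (x : 𝓞 K) (u v w : ℤ), (D : 𝓞 K) * x = u + v * θ + w * θ ^ 2 →
      (x ∈ 𝔭 ↔ (p : ℤ) ∣ u + v * t + w * t ^ 2) := by
  have hθt : θ - (t : 𝓞 K) ∈ 𝔭 := by
    have h1 : (z : 𝓞 K) * (θ - t) ∈ 𝔭 := by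
      have h2 : (z : 𝓞 K) * (θ - t) = ((m - z * t : ℤ) : 𝓞 K) - ((m : 𝓞 K) - θ * z) := by
        push_cast
        ring
      rw [h2]
      exact 𝔭.sub_mem ((hpm _).2 ht) hα
    exact (h𝔭.mem_or_mem h1).resolve_left hz
  have key : ∀ u v w : ℤ, (u : 𝓞 K) + v * θ + w * θ ^ 2 -
      ((u + v * t + w * t ^ 2 : ℤ) : 𝓞 K) ∈ 𝔭 := by
    intro u v w
    have h2 : (u : 𝓞 K) + v * θ + w * θ ^ 2 - ((u + v * t + w * t ^ 2 : ℤ) : 𝓞 K) =
        ((v : 𝓞 K) + w * (θ + t)) * (θ - t) := by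
      push_cast
      ring
    rw [h2]
    exact 𝔭.mul_mem_left _ hθt
  have hmem : ∀ u v w : ℤ, ((u : 𝓞 K) + v * θ + w * θ ^ 2 ∈ 𝔭 ↔
      (p : ℤ) ∣ u + v * t + w * t ^ 2) := by
    intro u v w
    rw [← hpm]
    constructor
    · intro h1
      have h2 := 𝔭.sub_mem h1 (key u v w)
      rwa [sub_sub_cancel] at h2
    · intro h1
      have h2 := 𝔭.add_mem (key u v w) h1
      rwa [sub_add_cancel] at h2
  have hpp : Prime (p : ℤ) := Nat.prime_iff_prime_int.1 hp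
  have hpD : ¬ (p : ℤ) ∣ D := fun h => hD ((hpm D).2 h)
  obtain ⟨r, s, hrs⟩ := (hpp.coprime_iff_not_dvd).2 hpD
  refine ⟨?_, fun x u v w e => ?_⟩
  · set φ : ℤ →+* 𝓞 K ⧸ 𝔭 := (Ideal.Quotient.mk 𝔭).comp (Int.castRingHom (𝓞 K)) with hφ
    have hsurj : Function.Surjective φ := by
      intro y
      obtain ⟨x, rfl⟩ := Ideal.Quotient.mk_surjective y
      obtain ⟨u, v, w, e⟩ := hO x
      refine ⟨s * (u + v * t + w * t ^ 2), ?_⟩
      refine (Ideal.Quotient.eq.2 ?_).symm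
      have h3 : x - (Int.castRingHom (𝓞 K)) (s * (u + v * t + w * t ^ 2)) =
          (r : 𝓞 K) * ((p : ℤ) : 𝓞 K) * x + (s : 𝓞 K) * ((u : 𝓞 K) + v * θ + w * θ ^ 2 -
            ((u + v * t + w * t ^ 2 : ℤ) : 𝓞 K)) := by
        have h4 : ((r : 𝓞 K) * ((p : ℤ) : 𝓞 K) + s * D) = 1 := by exact_mod_cast congrArg (Int.cast : ℤ → 𝓞 K) hrs
        rw [eq_intCast]
        push_cast at h4 ⊢
        linear_combination (-x) * h4 + (s : 𝓞 K) * e
      rw [h3]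
      exact 𝔭.add_mem (𝔭.mul_mem_right _ (𝔭.mul_mem_left _ ((hpm _).2 (dvd_refl _))))
        (𝔭.mul_mem_left _ (key u v w))
    have hker : RingHom.ker φ = Ideal.span {(p : ℤ)} := by
      ext x
      rw [RingHom.mem_ker, Ideal.mem_span_singleton, ← hpm]
      exact Ideal.Quotient.eq_zero_iff_mem
    have e := (Ideal.quotEquivOfEq hker.symm).trans (RingHom.quotientKerEquivOfSurjective hsurj)
    rw [Ideal.absNorm_apply, Submodule.cardQuot_apply, ← Nat.card_congr e.toEquiv,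
      Int.card_ideal_quot]
  · rw [← hmem, ← e]
    constructor
    · exact fun h => 𝔭.mul_mem_left _ h
    · exact fun h => (h𝔭.mem_or_mem h).resolve_left hD

/-- a squarefree number coprime to the rest of a square -/
theorem sqfree_coprime {n k l w : ℕ} (hl : l ≠ 0) (h : n * k * l ^ 2 = w ^ 2)
    (hn : Squarefree n) (hk : n.Coprime k) : n = 1 := by
  have h1 : l ^ 2 ∣ w ^ 2 := ⟨n * k, by rw [← h]; ring⟩
  obtain ⟨j, rfl⟩ := (Nat.pow_dvd_pow_iff two_ne_zero).1 h1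
  have h2 : n * k = j ^ 2 := by
    have h3 : (n * k) * l ^ 2 = j ^ 2 * l ^ 2 := by
      rw [h]
      ring
    exact Nat.eq_of_mul_eq_mul_right (by positivity) h3
  by_contra hne
  obtain ⟨q, hq, hqn⟩ := Nat.exists_prime_and_dvd hne
  have h4 : q ∣ j := hq.dvd_of_dvd_pow (h2 ▸ hqn.mul_right k)
  have h5 : q * q ∣ n * k := by
    rw [h2, pow_two]
    exact mul_dvd_mul h4 h4
  have h6 : (q * q).Coprime k := Nat.Coprime.mul_left (hk.coprime_dvd_left hqn)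
    (hk.coprime_dvd_left hqn)
  have h7 := hn q (h6.dvd_of_dvd_mul_right h5)
  exact hq.one_lt.ne' (Nat.isUnit_iff.1 h7)

/-- The ideal of `m - θ z` is a square outside `D`. -/
theorem ideal_sq_gen {a b c D : ℤ} {θ : 𝓞 K} (hroot : θ ^ 3 + a * θ ^ 2 + b * θ + c = 0)
    (hO : ∀ x : 𝓞 K, ∃ u v w : ℤ, D * x = u + v * θ + w * θ ^ 2)
    (hN : ∀ m z : ℤ, Algebra.norm ℤ ((m : 𝓞 K) - θ * z) = frm a b c m z)
    {m e d w : ℤ} (hme : IsCoprime m e) (he : e ≠ 0) (hd : d ≠ 0)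
    (hs : ∀ p : ℕ, p.Prime → (p : ℤ) ∣ d → ∀ x : ℤ, ¬ (p : ℤ) ∣ x ^ 3 + a * x ^ 2 + b * x + c)
    (hw : w ≠ 0) (hn : frm a b c m (d * e ^ 2) = w ^ 2) :
    ∃ (J 𝔟 : Ideal (𝓞 K)) (n : ℕ),
      Ideal.span {(m : 𝓞 K) - θ * (d * e ^ 2 : ℤ)} = J * 𝔟 ^ 2 ∧
        J ∣ Ideal.span {((D ^ n : ℤ) : 𝓞 K)} := by
  set z : ℤ := d * e ^ 2 with hz
  have hz0 : z ≠ 0 := mul_ne_zero hd (pow_ne_zero 2 he)
  set α : 𝓞 K := (m : 𝓞 K) - θ * (z : 𝓞 K) with hα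
  have hfact : ∀ m z : ℤ, ((m : 𝓞 K) - θ * z) *
      ((m : 𝓞 K) ^ 2 + (θ + a) * m * z + (θ ^ 2 + a * θ + b) * z ^ 2) = (frm a b c m z : ℤ) := by
    intro m z
    rw [frm]
    push_cast
    linear_combination (-(z : 𝓞 K) ^ 3) * hroot
  have hNα : Algebra.norm ℤ α = w ^ 2 := by
    rw [← hn]
    exact hN m z
  have hα0 : α ≠ 0 := by
    intro e0
    rw [e0, Algebra.norm_zero] at hNα
    exact (pow_ne_zero 2 hw) hNα.symm
  have hIα : Ideal.span {α} ≠ ⊥ := by rwa [Ne, Ideal.span_singleton_eq_bot]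
  obtain ⟨S₀, 𝔟, hJ, hS₀⟩ := exists_odd_prod hIα
  set S := S₀.filter fun 𝔭 => (D : 𝓞 K) ∉ 𝔭 with hSdef
  set B := S₀.filter fun 𝔭 => ¬ (D : 𝓞 K) ∉ 𝔭 with hBdef
  have hsplit : ∏ 𝔭 ∈ S₀, 𝔭 = (∏ 𝔭 ∈ S, 𝔭) * ∏ 𝔭 ∈ B, 𝔭 :=
    (Finset.prod_filter_mul_prod_filter_not S₀ _ _).symm
  have hS : ∀ 𝔭 ∈ S, Prime 𝔭 ∧ Odd ((normalizedFactors (Ideal.span {α})).count 𝔭) :=
    fun 𝔭 h => hS₀ 𝔭 (Finset.mem_filter.1 h).1
  have hSD : ∀ 𝔭 ∈ S, (D : 𝓞 K) ∉ 𝔭 := fun 𝔭 h => (Finset.mem_filter.1 h).2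
  have hαS : ∀ 𝔭 ∈ S, α ∈ 𝔭 := by
    intro 𝔭 h
    refine Ideal.dvd_span_singleton.1 (dvd_of_count fun e0 => ?_)
    have := (hS 𝔭 h).2
    rw [e0] at this
    exact absurd this (by decide)
  have hNS : ∀ 𝔭 ∈ S, ((w ^ 2 : ℤ) : 𝓞 K) ∈ 𝔭 := by
    intro 𝔭 h
    have h1 := hfact m z
    rw [hn] at h1
    rw [← h1]
    exact 𝔭.mul_mem_right _ (hαS 𝔭 h)
  have hzS : ∀ 𝔭 ∈ S, (z : 𝓞 K) ∉ 𝔭 := by
    intro 𝔭 h hz𝔭
    have hodd := (hS 𝔭 h).2
    have h𝔭p : 𝔭.IsPrime := Ideal.isPrime_of_prime (hS 𝔭 h).1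
    have hm𝔭 : (m : 𝓞 K) ∈ 𝔭 := by
      have h1 : (m : 𝓞 K) = α + θ * z := by
        rw [hα]
        ring
      rw [h1]
      exact 𝔭.add_mem (hαS 𝔭 h) (𝔭.mul_mem_left _ hz𝔭)
    obtain ⟨p, hp, hpm⟩ := exists_under h𝔭p hz0 hz𝔭
    have hpp : Prime (p : ℤ) := Nat.prime_iff_prime_int.1 hp
    have hpmm : (p : ℤ) ∣ m := (hpm m).1 hm𝔭
    have hpd : (p : ℤ) ∣ d := by
      rcases hpp.dvd_or_dvd ((hpm z).1 hz𝔭) with h1 | h1
      · exact h1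
      · exfalso
        have h2 := hpp.dvd_of_dvd_pow h1
        exact hpp.not_isUnit (hme.isUnit_of_dvd' hpmm h2)
    obtain ⟨k, m', z', e1, e2, e3⟩ := exists_prim hp (m := m) hz0
    have hn' := frm_prime hp (hs p hp hpd) e3
    have hk : Even k := by
      refine even_exp hp hn' (w := w) ?_
      rw [← hn, e1, e2, frm, frm]
      ring
    have hα' : α = ((p : ℤ) : 𝓞 K) ^ k * ((m' : 𝓞 K) - θ * z') := by
      rw [hα, e1, e2]
      push_cast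
      ring
    have hnot : ((m' : 𝓞 K) - θ * z') ∉ 𝔭 := by
      intro h1
      apply hn'
      rw [← hpm, ← hfact m' z']
      exact 𝔭.mul_mem_right _ h1
    have hne' : ((m' : 𝓞 K) - θ * z') ≠ 0 := fun h1 => hnot (h1 ▸ 𝔭.zero_mem)
    have hp0 : ((p : ℤ) : 𝓞 K) ≠ 0 := Int.cast_ne_zero.2 hpp.ne_zero
    rw [hα', ← Ideal.span_singleton_mul_span_singleton, count_mul'
      (by rw [Ne, Ideal.span_singleton_eq_bot]; exact pow_ne_zero _ hp0)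
      (by rwa [Ne, Ideal.span_singleton_eq_bot]), ← Ideal.span_singleton_pow, count_pow',
      count_zero_of (fun h1 => hnot (Ideal.dvd_span_singleton.1 h1)), add_zero] at hodd
    exact (Nat.not_even_iff_odd.2 hodd) (hk.mul_right _)
  -- the primes of odd multiplicity have degree one
  have hdeg : ∀ 𝔭 ∈ S, ∃ (p : ℕ) (t : ℤ), p.Prime ∧ (p : ℤ) ∣ m - z * t ∧
      (∀ t' : ℤ, (p : ℤ) ∣ m - z * t' → (p : ℤ) ∣ t - t') ∧ Ideal.absNorm 𝔭 = p ∧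
      (¬ (p : ℤ) ∣ D) ∧
      ∀ (x : 𝓞 K) (u v w : ℤ), (D : 𝓞 K) * x = u + v * θ + w * θ ^ 2 →
        (x ∈ 𝔭 ↔ (p : ℤ) ∣ u + v * t + w * t ^ 2) := by
    intro 𝔭 h
    have h𝔭p : 𝔭.IsPrime := Ideal.isPrime_of_prime (hS 𝔭 h).1
    obtain ⟨p, hp, hpm⟩ := exists_under h𝔭p (pow_ne_zero 2 hw) (hNS 𝔭 h)
    have hpp : Prime (p : ℤ) := Nat.prime_iff_prime_int.1 hp
    have hpz : ¬ (p : ℤ) ∣ z := fun h1 => hzS 𝔭 h ((hpm z).2 h1)
    obtain ⟨r, s, hrs⟩ := (hpp.coprime_iff_not_dvd).2 hpz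
    have ht : (p : ℤ) ∣ m - z * (m * s) := ⟨m * r, by linear_combination (-m) * hrs⟩
    obtain ⟨h2, h3⟩ := degree_one_gen hO hp hpm h𝔭p (hαS 𝔭 h) (hzS 𝔭 h) (hSD 𝔭 h) ht
    refine ⟨p, m * s, hp, ht, fun t' ht' => ?_, h2, fun h4 => hSD 𝔭 h ((hpm D).2 h4), h3⟩
    have h4 : (p : ℤ) ∣ z * (m * s - t') := by
      have h5 : z * (m * s - t') = (m - z * t') - (m - z * (m * s)) := by ring
      rw [h5]
      exact dvd_sub ht' ht
    exact (hpp.dvd_or_dvd h4).resolve_left hpz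
  have hsqf : Squarefree (Ideal.absNorm (∏ p ∈ S, p)) := by
    rw [map_prod]
    refine Finset.squarefree_prod_of_pairwise_isCoprime (fun 𝔭 h 𝔮 h' hne => ?_) fun 𝔭 h => ?_
    · obtain ⟨p, t, hp, ht, -, hNp, -, hmem⟩ := hdeg 𝔭 h
      obtain ⟨q, t', hq, ht', huni, hNq, -, hmem'⟩ := hdeg 𝔮 h'
      change IsRelPrime (Ideal.absNorm 𝔭) (Ideal.absNorm 𝔮)
      rw [hNp, hNq, ← Nat.coprime_iff_isRelPrime, Nat.coprime_primes hp hq]
      rintro rfl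
      apply hne
      obtain ⟨k, hk⟩ := huni t ht
      ext x
      obtain ⟨u, v, w, e⟩ := hO x
      rw [hmem x u v w e, hmem' x u v w e]
      have h5 : u + v * t' + w * t' ^ 2 = u + v * t + w * t ^ 2 + p * (k * (v + w * (t' + t))) := by
        linear_combination (v + w * (t' + t)) * hk
      rw [h5]
      exact (dvd_add_left (dvd_mul_right _ _)).symm
    · obtain ⟨p, t, hp, -, -, hNp, -⟩ := hdeg 𝔭 h
      change Squarefree (Ideal.absNorm 𝔭)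
      rw [hNp]
      exact hp.prime.squarefree
  -- the norms of the other primes divide powers of `D`
  have hBD : (∏ p ∈ B, p) ∣ Ideal.span {((D ^ B.card : ℤ) : 𝓞 K)} := by
    have h1 : Ideal.span {((D ^ B.card : ℤ) : 𝓞 K)} = ∏ _p ∈ B, Ideal.span {(D : 𝓞 K)} := by
      rw [Finset.prod_const, Ideal.span_singleton_pow]
      push_cast
      rfl
    rw [h1]
    refine Finset.prod_dvd_prod_of_dvd _ _ fun 𝔭 h => ?_
    exact Ideal.dvd_span_singleton.2 (not_not.1 (Finset.mem_filter.1 h).2)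
  have hcop : (Ideal.absNorm (∏ p ∈ S, p)).Coprime (Ideal.absNorm (∏ p ∈ B, p)) := by
    have h1 : Ideal.absNorm (∏ p ∈ B, p) ∣
        (D.natAbs ^ B.card) ^ Module.finrank ℤ (𝓞 K) := by
      have h2 := Ideal.absNorm_dvd_absNorm_of_le (Ideal.le_of_dvd hBD)
      rw [Ideal.absNorm_span_singleton] at h2
      have h3 : Algebra.norm ℤ ((D ^ B.card : ℤ) : 𝓞 K) =
          (D ^ B.card) ^ Module.finrank ℤ (𝓞 K) := by
        have h4 := Algebra.norm_algebraMap_of_basis (RingOfIntegers.basis K) (D ^ B.card : ℤ)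
        rw [← Module.finrank_eq_card_basis (RingOfIntegers.basis K)] at h4
        rw [← h4]
        rfl
      rw [h3, Int.natAbs_pow, Int.natAbs_pow] at h2
      exact h2
    refine Nat.Coprime.coprime_dvd_right h1 (Nat.Coprime.pow_right _ (Nat.Coprime.pow_right _ ?_))
    rw [map_prod]
    refine Nat.Coprime.prod_left fun 𝔭 h => ?_
    obtain ⟨p, t, hp, -, -, hNp, hpD, -⟩ := hdeg 𝔭 h
    rw [hNp, hp.coprime_iff_not_dvd]
    exact fun h5 => hpD (Int.natCast_dvd.2 h5)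
  have h𝔟0 : Ideal.absNorm 𝔟 ≠ 0 := by
    rw [Ne, Ideal.absNorm_eq_zero_iff]
    rintro rfl
    apply hIα
    rw [hJ]
    simp
  have hJ1 : Ideal.absNorm (∏ p ∈ S, p) = 1 := by
    refine sqfree_coprime (w := w.natAbs) h𝔟0 ?_ hsqf hcop
    rw [← map_mul, ← hsplit, ← map_pow, ← map_mul, ← hJ, Ideal.absNorm_span_singleton, hNα,
      Int.natAbs_pow]
  rw [Ideal.absNorm_eq_one_iff] at hJ1
  refine ⟨∏ p ∈ B, p, 𝔟, B.card, ?_, hBD⟩
  rw [hJ, hsplit, hJ1, ← Ideal.one_eq_top, one_mul]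

end Pool.Agent.ZCS
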