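import Pool.Agent.ZCS.Unit

/-!
# Quadratic twists by products of silent primes

`half_twist`: let `f = x³ + a x² + b x + c` be a polynomial over `ℤ` without rational zeros, with a squarefree negative
discriminant, such that the class number of the cubic field is odd, and `d` an integer such that `f` has no zero modulo
any of the primes which divide `d`. Then one of `P`, `Q`, `P + Q` is a double for all rational points `P`, `Q` of the
twist `y² = x³ + a d x² + b d² x + c d³`.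
-/

set_option autoImplicit false

noncomputable section

namespace Pool.Agent.ZCS

open WeierstrassCurve NumberField
open scoped Classical

variable {K : Type} [Field K] [NumberField K]

open Polynomial in
/-- a root of a cubic polynomial without rational zeros in a cubic field -/
theorem cub_of (h3 : Module.finrank ℚ K = 3) {a b c : ℤ} {θ : K}
    (hroot : θ ^ 3 + a * θ ^ 2 + b * θ + c = 0)
    (hirr : ∀ x : ℚ, x ^ 3 + a * x ^ 2 + b * x + c ≠ 0) : Cub (⟨0, a, 0, b, c⟩) θ := by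
  have hQ : ∀ r : ℚ, algebraMap ℚ K r = (r : K) := fun r => rfl
  have hli : ∀ u v w : ℚ, (u : K) + v * θ + w * θ ^ 2 = 0 → u = 0 ∧ v = 0 ∧ w = 0 := by
    intro u v w h
    by_contra hne
    set q : ℚ[X] := C w * X ^ 2 + C v * X + C u with hq
    have hq0 : q ≠ 0 := by
      intro e
      apply hne
      have e0 := congrArg (fun r : ℚ[X] => r.coeff 0) e
      have e1 := congrArg (fun r : ℚ[X] => r.coeff 1) e
      have e2 := congrArg (fun r : ℚ[X] => r.coeff 2) e
      simp [hq, coeff_X, coeff_C] at e0 e1 e2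
      exact ⟨e0, e1, e2⟩
    have hqθ : aeval θ q = 0 := by
      rw [hq]
      simp only [map_add, map_mul, map_pow, aeval_X, aeval_C, hQ]
      linear_combination h
    have hint : IsIntegral ℚ θ := Algebra.IsIntegral.isIntegral θ
    have h1 : (minpoly ℚ θ).natDegree ≤ 2 := by
      have h2 := natDegree_le_natDegree (minpoly.degree_le_of_ne_zero ℚ θ hq0 hqθ)
      refine h2.trans ?_
      rw [hq]
      compute_degree
    have h2 : (minpoly ℚ θ).natDegree ∣ 3 := by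
      rw [← h3]
      exact minpoly.degree_dvd hint
    have h4 : (minpoly ℚ θ).natDegree = 1 := by
      rcases (Nat.dvd_prime Nat.prime_three).1 h2 with h5 | h5
      · exact h5
      · omega
    rw [minpoly.natDegree_eq_one_iff] at h4
    obtain ⟨x, hx⟩ := h4
    apply hirr x
    rw [← hx, hQ] at hroot
    exact_mod_cast hroot
  refine ⟨rfl, rfl, ?_, hli, ?_⟩
  · push_cast
    exact hroot
  · intro γ
    have hb : LinearIndependent ℚ ![(1 : K), θ, θ ^ 2] := by
      rw [Fintype.linearIndependent_iff]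
      intro g hg
      rw [Fin.sum_univ_three] at hg
      simp only [Matrix.cons_val_zero, Matrix.cons_val_one, Matrix.cons_val, Rat.smul_def] at hg
      obtain ⟨h0, h1, h2⟩ := hli (g 0) (g 1) (g 2) (by linear_combination hg)
      intro i
      fin_cases i
      · exact h0
      · exact h1
      · exact h2
    set B := basisOfLinearIndependentOfCardEqFinrank hb (by rw [h3, Fintype.card_fin]) with hB
    refine ⟨B.repr γ 0, B.repr γ 1, B.repr γ 2, ?_⟩
    have h1 := B.sum_repr γ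
    have hBa : ∀ i, B i = ![(1 : K), θ, θ ^ 2] i := fun i => by
      rw [hB, coe_basisOfLinearIndependentOfCardEqFinrank]
    rw [Fin.sum_univ_three, hBa, hBa, hBa] at h1
    simp only [Matrix.cons_val_zero, Matrix.cons_val_one, Matrix.cons_val, Rat.smul_def] at h1
    linear_combination -h1

/-- the root of the twisted polynomial -/
theorem cub_twist {a b c d : ℤ} {θ : K} (hd : d ≠ 0) (h : Cub (⟨0, a, 0, b, c⟩) θ) :
    Cub (⟨0, a * d, 0, b * d ^ 2, c * d ^ 3⟩) (d * θ : K) := by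
  have hd' : (d : K) ≠ 0 := Int.cast_ne_zero.2 hd
  have hdQ : (d : ℚ) ≠ 0 := Int.cast_ne_zero.2 hd
  refine ⟨rfl, rfl, ?_, ?_, ?_⟩
  · have h1 := h.root
    push_cast at h1 ⊢
    linear_combination (d : K) ^ 3 * h1
  · intro u v w e
    obtain ⟨h0, h1, h2⟩ := h.li u (v * d) (w * d ^ 2) (by push_cast; linear_combination e)
    exact ⟨h0, (mul_eq_zero.1 h1).resolve_right hdQ,
      (mul_eq_zero.1 h2).resolve_right (pow_ne_zero 2 hdQ)⟩
  · intro γ
    obtain ⟨u, v, w, e⟩ := h.span γ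
    refine ⟨u, v / d, w / d ^ 2, ?_⟩
    rw [e]
    push_cast
    field_simp

/-- The coordinates of a rational point. -/
theorem exists_coords {a b c d : ℤ} {X Y : ℚ}
    (h : Y ^ 2 = X ^ 3 + a * d * X ^ 2 + b * d ^ 2 * X + c * d ^ 3) : ∃ m e w : ℤ,
      IsCoprime m e ∧ e ≠ 0 ∧ X * e ^ 2 = m ∧ frm a b c m (d * e ^ 2) = w ^ 2 := by
  obtain ⟨m, hm⟩ : ∃ m : ℤ, m = X.num := ⟨_, rfl⟩
  obtain ⟨n, hn⟩ : ∃ n : ℤ, n = (X.den : ℤ) := ⟨_, rfl⟩
  have hn0 : 0 < n := by rw [hn]; exact_mod_cast X.den_pos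
  have hnq : (n : ℚ) ≠ 0 := by exact_mod_cast hn0.ne'
  have hX : X = m / n := by
    rw [hm, hn]
    exact_mod_cast (Rat.num_div_den X).symm
  have hcop : IsCoprime n m := by
    rw [hm, hn]
    exact (Rat.isCoprime_num_den X).symm
  obtain ⟨F, hF⟩ : ∃ F : ℤ, F = m ^ 3 + a * d * m ^ 2 * n + b * d ^ 2 * m * n ^ 2 +
      c * d ^ 3 * n ^ 3 := ⟨_, rfl⟩
  have hN : IsSquare (n * F) := by
    rw [← Rat.isSquare_intCast_iff]
    refine ⟨Y * n ^ 2, ?_⟩
    have h1 : Y * (n : ℚ) ^ 2 * (Y * n ^ 2) = Y ^ 2 * n ^ 4 := by ring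
    rw [h1, h, hX, hF]
    push_cast
    field_simp
  obtain ⟨g, hg⟩ := hN
  have hcop2 : IsCoprime n F := by
    have h2 : F = m ^ 3 + n * (a * d * m ^ 2 + b * d ^ 2 * m * n + c * d ^ 3 * n ^ 2) := by
      rw [hF]
      ring
    rw [h2]
    exact (hcop.pow_right (n := 3)).add_mul_left_right _
  rw [← pow_two] at hg
  obtain ⟨e, he⟩ := Int.sq_of_isCoprime hcop2 hg
  have heb : n = e ^ 2 := by
    rcases he with he | he
    · exact he
    · nlinarith [sq_nonneg e]
  obtain ⟨w, hw⟩ := Int.sq_of_isCoprime hcop2.symm (by rw [mul_comm]; exact hg)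
  have hwF : F = w ^ 2 := by
    rcases hw with hw | hw
    · exact hw
    · have h2 : 0 ≤ F := by
        by_contra h3
        push Not at h3
        nlinarith [sq_nonneg g]
      have h3 : w ^ 2 = 0 := by nlinarith [sq_nonneg w]
      rw [hw, h3, neg_zero]
  have he0 : e ≠ 0 := by
    rintro rfl
    rw [heb] at hn0
    simp at hn0
  refine ⟨m, e, w, ?_, he0, ?_, ?_⟩
  · rw [heb] at hcop
    exact ((IsCoprime.pow_left_iff two_pos).1 hcop).symm
  · rw [hX, heb]
    have : (e : ℚ) ≠ 0 := Int.cast_ne_zero.2 he0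
    push_cast
    field_simp
  · rw [← hwF, hF, frm, heb]
    ring

/-- The values of the descent map of the twist are norm one units times squares. -/
theorem dv_twist {a b c d : ℤ} {θ : K} (hd : d ≠ 0) (h : Cub (⟨0, a, 0, b, c⟩) θ)
    (hD : Squarefree (a ^ 2 * b ^ 2 - 4 * b ^ 3 - 4 * a ^ 3 * c - 27 * c ^ 2 + 18 * a * b * c))
    (hodd : Odd (classNumber K))
    (hs : ∀ p : ℕ, p.Prime → (p : ℤ) ∣ d → ∀ x : ℤ, ¬ (p : ℤ) ∣ x ^ 3 + a * x ^ 2 + b * x + c)
    (P : (⟨0, a * d, 0, b * d ^ 2, c * d ^ 3⟩ : WeierstrassCurve ℚ).toAffine.Point) :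
    ∃ u : (𝓞 K)ˣ, Algebra.norm ℤ (u : 𝓞 K) = 1 ∧ ∃ γ : K,
      dv (d * θ : K) P = ((u : 𝓞 K) : K) * γ ^ 2 := by
  rcases P with _ | ⟨X, Y, hXY⟩
  · refine ⟨1, by simp, 1, ?_⟩
    change (1 : K) = _
    simp
  have hY : Y ^ 2 = X ^ 3 + a * d * X ^ 2 + b * d ^ 2 * X + c * d ^ 3 := by
    have h1 := (Affine.equation_iff _ _).1 hXY.1
    linear_combination h1
  obtain ⟨m, e, w, hme, he, hX, hn⟩ := exists_coords hY
  have hint : IsIntegral ℤ θ := by
    refine ⟨Polynomial.X ^ 3 + Polynomial.C a * Polynomial.X ^ 2 +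
      Polynomial.C b * Polynomial.X + Polynomial.C c, by monicity!, ?_⟩
    have h1 := h.root
    simp only [Polynomial.eval₂_add, Polynomial.eval₂_mul, Polynomial.eval₂_pow,
      Polynomial.eval₂_X, Polynomial.eval₂_C]
    simpa using h1
  set t : 𝓞 K := ⟨θ, hint⟩ with ht
  have htθ : algebraMap (𝓞 K) K t = θ := rfl
  have heK : (e : K) ≠ 0 := Int.cast_ne_zero.2 he
  set α : 𝓞 K := (m : 𝓞 K) - t * (d * e ^ 2 : ℤ) with hα
  have hαK : (α : K) = (m : K) - θ * (d * e ^ 2) := by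
    change algebraMap (𝓞 K) K α = _
    rw [hα, map_sub, map_mul, htθ, map_intCast, map_intCast]
    push_cast
    ring
  have hαX : (X : K) - d * θ = α / e ^ 2 := by
    have h1 : (X : K) * e ^ 2 = m := by exact_mod_cast hX
    rw [hαK, eq_div_iff (pow_ne_zero 2 heK)]
    linear_combination h1
  have hα0 : α ≠ 0 := by
    intro e0
    rw [e0] at hαX
    have h2 := (cub_twist hd h).sub_ne_zero X
    apply h2
    rw [hαX]
    simp
  have hNα : Algebra.norm ℤ α = w ^ 2 := by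
    have h1 : ((Algebra.norm ℤ α : ℤ) : ℚ) = ((w ^ 2 : ℤ) : ℚ) := by
      rw [Algebra.coe_norm_int, ← hn]
      have h2 := h.norm_sub m (d * e ^ 2)
      rw [frm]
      push_cast
      rw [hαK]
      push_cast at h2 ⊢
      exact h2
    exact_mod_cast h1
  have hw : w ≠ 0 := by
    rintro rfl
    have h1 : Algebra.norm ℤ α = 0 := by rw [hNα]; norm_num
    exact hα0 (Algebra.norm_eq_zero_iff.1 h1)
  obtain ⟨𝔟, h𝔟⟩ := ideal_sq (K := K) (θ := t) rfl h hD hme he hd hs hw hn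
  obtain ⟨u, γ, huγ⟩ := exists_unit hα0 h𝔟 hodd
  refine ⟨u, ?_, (γ : K) / e, ?_⟩
  · have h1 : Algebra.norm ℤ (u : 𝓞 K) * (Algebra.norm ℤ γ) ^ 2 = w ^ 2 := by
      rw [← hNα, huγ, map_mul, map_pow]
    have h2 : Algebra.norm ℤ (u : 𝓞 K) = 1 ∨ Algebra.norm ℤ (u : 𝓞 K) = -1 :=
      Int.isUnit_iff.1 (u.isUnit.map (Algebra.norm ℤ))
    rcases h2 with h2 | h2
    · exact h2
    · exfalso
      rw [h2] at h1
      have h3 : 0 < w ^ 2 := by positivity
      nlinarith [sq_nonneg (Algebra.norm ℤ γ)]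
  · change (X : K) - d * θ = _
    rw [hαX, huγ]
    push_cast
    field_simp

/-- One of `P`, `Q`, `P + Q` is a double. -/
theorem half_twist (h3 : Module.finrank ℚ K = 3) {a b c d : ℤ} {θ : K}
    (hroot : θ ^ 3 + a * θ ^ 2 + b * θ + c = 0)
    (hirr : ∀ x : ℚ, x ^ 3 + a * x ^ 2 + b * x + c ≠ 0)
    (hD : Squarefree (a ^ 2 * b ^ 2 - 4 * b ^ 3 - 4 * a ^ 3 * c - 27 * c ^ 2 + 18 * a * b * c))
    (hD0 : a ^ 2 * b ^ 2 - 4 * b ^ 3 - 4 * a ^ 3 * c - 27 * c ^ 2 + 18 * a * b * c < 0)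
    (hodd : Odd (classNumber K)) (hd : d ≠ 0)
    (hs : ∀ p : ℕ, p.Prime → (p : ℤ) ∣ d → ∀ x : ℤ, ¬ (p : ℤ) ∣ x ^ 3 + a * x ^ 2 + b * x + c)
    (P Q : (⟨0, a * d, 0, b * d ^ 2, c * d ^ 3⟩ : WeierstrassCurve ℚ).toAffine.Point) :
    (∃ R, P = R + R) ∨ (∃ R, Q = R + R) ∨ ∃ R, P + Q = R + R := by
  have h := cub_of h3 hroot hirr
  have hr : Units.rank K = 1 := rank_one h (by
    change (a : ℚ) ^ 2 * b ^ 2 - 4 * b ^ 3 - 4 * a ^ 3 * c - 27 * c ^ 2 + 18 * a * b * c < 0
    exact_mod_cast hD0)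
  refine dv_half (cub_twist hd h) {x : K | ∃ u : (𝓞 K)ˣ, Algebra.norm ℤ (u : 𝓞 K) = 1 ∧
    x = ((u : 𝓞 K) : K)} ?_ ?_ P Q
  · rintro _ ⟨u, hu, rfl⟩ _ ⟨u', hu', rfl⟩
    rcases unit_sq h3 hr u u' hu hu' with ⟨v, hv⟩ | ⟨v, hv⟩ | ⟨v, hv⟩
    · left
      refine ⟨((v : 𝓞 K) : K), ?_⟩
      rw [hv, pow_two]
      push_cast
      rfl
    · right
      left
      refine ⟨((v : 𝓞 K) : K), ?_⟩
      rw [hv, pow_two]
      push_cast
      rfl
    · right
      right
      refine ⟨((v : 𝓞 K) : K), ?_⟩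
      have h1 : ((u * u' : (𝓞 K)ˣ) : 𝓞 K) = (v : 𝓞 K) * v := by
        rw [hv, pow_two]
        push_cast
        rfl
      have h2 := congrArg (fun x : 𝓞 K => (x : K)) h1
      push_cast at h2
      exact h2
  · intro P
    obtain ⟨u, hu, γ, e⟩ := dv_twist hd h hD hodd hs P
    exact ⟨_, ⟨u, hu, rfl⟩, γ, e⟩

end Pool.Agent.ZCS
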