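import Pool.Agent.ZCS.DegOne
import Pool.Agent.ZCS.Dep

/-!
# There are infinitely many silent primes

`silent_infinite`: a cubic polynomial without rational zeros has no zero modulo infinitely many
prime numbers.
-/

set_option autoImplicit false

noncomputable section

namespace Pool.Agent.ZCS

open Polynomial NumberField Pool.Agent.StarkRQ Pool.Agent.StarkU

variable {a b c : ℤ}

/-- The differences divide the discriminant. -/
private theorem dvd_disc {R : Type*} [CommRing R] (r : Fin 3 → R) : ∀ i j : Fin 3, j ≠ i →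
    (r j - r i) ∣ ((r 0 - r 1) * (r 0 - r 2) * (r 1 - r 2)) ^ 2
  | 0, 0, h => absurd rfl h
  | 0, 1, _ => ⟨(r 1 - r 0) * ((r 0 - r 2) * (r 1 - r 2)) ^ 2, by ring⟩
  | 0, 2, _ => ⟨(r 2 - r 0) * ((r 0 - r 1) * (r 1 - r 2)) ^ 2, by ring⟩
  | 1, 0, _ => ⟨(r 0 - r 1) * ((r 0 - r 2) * (r 1 - r 2)) ^ 2, by ring⟩
  | 1, 1, h => absurd rfl h
  | 1, 2, _ => ⟨(r 2 - r 1) * ((r 0 - r 1) * (r 0 - r 2)) ^ 2, by ring⟩
  | 2, 0, _ => ⟨(r 0 - r 2) * ((r 0 - r 1) * (r 1 - r 2)) ^ 2, by ring⟩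
  | 2, 1, _ => ⟨(r 1 - r 2) * ((r 0 - r 1) * (r 0 - r 2)) ^ 2, by ring⟩
  | 2, 2, h => absurd rfl h

section frob

variable {k L : Type} [Field k] [NumberField k] [Field L] [NumberField L] [Algebra k L]

omit [NumberField L] in
/-- The discriminant as a product. -/
private theorem dsc_eq {r : Fin 3 → 𝓞 L} (ha : (a : 𝓞 L) = -(r 0 + r 1 + r 2))
    (hb : (b : 𝓞 L) = r 0 * r 1 + r 0 * r 2 + r 1 * r 2) (hc : (c : 𝓞 L) = -(r 0 * r 1 * r 2)) :
    ((dsc a b c : ℤ) : 𝓞 L) = ((r 0 - r 1) * (r 0 - r 2) * (r 1 - r 2)) ^ 2 := by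
  rw [dsc]
  push_cast
  rw [ha, hb, hc]
  ring

omit [NumberField L] in
/-- If a Frobenius element of a prime of degree one moves all zeros, then the polynomial has no
zero modulo this prime. -/
private theorem disc_mem {r : Fin 3 → 𝓞 L} (ha : (a : 𝓞 L) = -(r 0 + r 1 + r 2))
    (hb : (b : 𝓞 L) = r 0 * r 1 + r 0 * r 2 + r 1 * r 2) (hc : (c : 𝓞 L) = -(r 0 * r 1 * r 2))
    {q : Ideal (𝓞 k)} {φ : Gal(L/k)} (hφ : IsFrob q φ)
    (hmove : ∀ i, ∃ j, j ≠ i ∧ φ • r i = r j) (hp : (Ideal.absNorm q).Prime) {x : ℤ}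
    (hx : (Ideal.absNorm q : ℤ) ∣ x ^ 3 + a * x ^ 2 + b * x + c) :
    ((dsc a b c : ℤ) : 𝓞 k) ∈ q := by
  obtain ⟨Q, hQ, hQq, hcong⟩ := hφ
  set p := Ideal.absNorm q with hpd
  have hpQ : ((p : ℤ) : 𝓞 L) ∈ Q := by
    have h1 : ((p : ℤ) : 𝓞 k) ∈ q := by
      rw [hpd]
      exact_mod_cast Ideal.absNorm_mem q
    rw [← hQq, Ideal.mem_comap, map_intCast] at h1
    exact h1
  have hdvd : ∀ y : ℤ, (p : ℤ) ∣ y → (y : 𝓞 L) ∈ Q := by
    rintro _ ⟨y, rfl⟩
    rw [Int.cast_mul]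
    exact Q.mul_mem_right _ hpQ
  have h1 := hdvd _ hx
  have h2 : ((x ^ 3 + a * x ^ 2 + b * x + c : ℤ) : 𝓞 L) =
      ((x : 𝓞 L) - r 0) * (((x : 𝓞 L) - r 1) * ((x : 𝓞 L) - r 2)) := by
    push_cast
    rw [ha, hb, hc]
    ring
  rw [h2] at h1
  obtain ⟨i, hi⟩ : ∃ i, (x : 𝓞 L) - r i ∈ Q := by
    rcases hQ.mem_or_mem h1 with h3 | h3
    · exact ⟨0, h3⟩
    · rcases hQ.mem_or_mem h3 with h4 | h4
      · exact ⟨1, h4⟩
      · exact ⟨2, h4⟩
  have hfer : (x : 𝓞 L) ^ p - x ∈ Q := by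
    have h3 : (p : ℤ) ∣ x ^ p - x := by
      have : Fact p.Prime := ⟨hp⟩
      rw [← ZMod.intCast_zmod_eq_zero_iff_dvd]
      push_cast
      rw [ZMod.pow_card, sub_self]
    have h4 := hdvd _ h3
    push_cast at h4
    exact h4
  have hpow : (x : 𝓞 L) ^ p - r i ^ p ∈ Q := by
    obtain ⟨y, hy⟩ := sub_dvd_pow_sub_pow (x : 𝓞 L) (r i) p
    rw [hy]
    exact Q.mul_mem_right _ hi
  obtain ⟨j, hj, hij⟩ := hmove i
  have h3 : r j - r i ∈ Q := by
    have h4 := hcong (r i)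
    rw [hij] at h4
    have h5 : r j - r i = (r j - r i ^ p) - ((x : 𝓞 L) ^ p - r i ^ p) + ((x : 𝓞 L) ^ p - x) +
        ((x : 𝓞 L) - r i) := by ring
    rw [h5]
    exact Q.add_mem (Q.add_mem (Q.sub_mem h4 hpow) hfer) hi
  have h4 : ∃ y : 𝓞 L, ((dsc a b c : ℤ) : 𝓞 L) = (r j - r i) * y := by
    rw [dsc_eq ha hb hc]
    exact dvd_disc r i j hj
  obtain ⟨y, hy⟩ := h4
  rw [← hQq, Ideal.mem_comap, map_intCast, hy]
  exact Q.mul_mem_right _ h3

/-- There is a modulus such that the primes which are prime to it are unramified. -/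
private theorem exists_mod (k L : Type) [Field k] [NumberField k] [Field L] [NumberField L]
    [Algebra k L] {d : 𝓞 k} (hd : d ≠ 0) : ∃ m : Ideal (𝓞 k), m ≠ ⊥ ∧
      (∀ 𝔮 : Ideal (𝓞 k), 𝔮.IsPrime → 𝔮 ≠ ⊥ → IsCoprime 𝔮 m → UnrAt L 𝔮) ∧
      ∀ q : Ideal (𝓞 k), d ∈ q → m ≤ q := by
  set D : Ideal (𝓞 k) := (differentIdeal (𝓞 k) (𝓞 L)).comap (algebraMap (𝓞 k) (𝓞 L)) with hD
  have hD0 : D ≠ ⊥ := fun h => differentIdeal_ne_bot (Ideal.eq_bot_of_comap_eq_bot h)
  refine ⟨Ideal.span {d} * D, mul_ne_zero (by simpa using hd) hD0, ?_, ?_⟩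
  · intro 𝔮 h𝔮 h𝔮0 hco Q hQ hQ𝔮 hdiv
    have hmax : 𝔮.IsMaximal := h𝔮.isMaximal h𝔮0
    have h1 := pow_sub_one_dvd_differentIdeal (𝓞 k) (p := 𝔮) Q 2 h𝔮0 hdiv
    rw [show 2 - 1 = 1 from rfl, pow_one] at h1
    have h2 : D ≤ 𝔮 := by
      rw [← hQ𝔮, hD]
      exact Ideal.comap_mono (Ideal.le_of_dvd h1)
    have h3 : Ideal.span {d} * D ≤ 𝔮 := (Ideal.mul_le_right (I := Ideal.span {d})).trans h2
    rw [Ideal.isCoprime_iff_sup_eq, sup_eq_left.2 h3] at hco
    exact h𝔮.ne_top hco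
  · intro q hdq
    exact (Ideal.mul_le_left (J := D)).trans ((Ideal.span_singleton_le_iff_mem q).2 hdq)

end frob

/-- The functions of order three without a fixed point. -/
private theorem fin3 : ∀ π : Fin 3 → Fin 3, (∀ i, π (π (π i)) = i) → ∀ i, π i = i →
    ∀ j, π j = j := by decide

/-- The polynomial. -/
private theorem exists_poly (hirr : ∀ x : ℚ, x ^ 3 + a * x ^ 2 + b * x + c ≠ 0) :
    ∃ P : ℚ[X], P.natDegree = 3 ∧ P.Monic ∧ Irreducible P ∧
      ∀ (A : Type) [Field A] [Algebra ℚ A] (y : A), aeval y P = y ^ 3 + a * y ^ 2 + b * y + c := by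
  have hdeg : (X ^ 3 + C (a : ℚ) * X ^ 2 + C (b : ℚ) * X + C (c : ℚ)).natDegree = 3 := by
    compute_degree!
  refine ⟨X ^ 3 + C (a : ℚ) * X ^ 2 + C (b : ℚ) * X + C (c : ℚ), hdeg, by monicity!, ?_, ?_⟩
  · refine irreducible_of_degree_le_three_of_not_isRoot ?_ ?_
    · rw [hdeg]
      simp
    · intro x hx
      apply hirr x
      rw [IsRoot.def] at hx
      simpa using hx
  · intro A _ _ y
    simp only [map_add, map_mul, map_pow, aeval_X, aeval_C, eq_ratCast, Rat.cast_intCast]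

/-- The Galois group of the splitting field. -/
private theorem exists_split (hirr : ∀ x : ℚ, x ^ 3 + a * x ^ 2 + b * x + c ≠ 0) :
    ∃ (L : Type) (_ : Field L) (_ : NumberField L) (_ : IsGalois ℚ L) (x : Fin 3 → L),
      Function.Injective x ∧ (∀ y : L, y ^ 3 + a * y ^ 2 + b * y + c =
        (y - x 0) * ((y - x 1) * (y - x 2))) ∧
      (∀ τ : L ≃ₐ[ℚ] L, (∀ i, τ (x i) = x i) → τ = 1) ∧ ∃ σ : L ≃ₐ[ℚ] L, σ ^ 3 = 1 ∧ σ ≠ 1 := by
  obtain ⟨P, hdeg, hmon, hirrP, haev⟩ := exists_poly hirr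
  obtain ⟨L, iF, iA, iS⟩ : ∃ (L : Type) (_ : Field L) (_ : Algebra ℚ L),
      IsSplittingField ℚ L P :=
    ⟨P.SplittingField, inferInstance, _, IsSplittingField.splittingField P⟩
  have hchar : CharZero L := charZero_of_injective_algebraMap (algebraMap ℚ L).injective
  have hiA : iA = DivisionRing.toRatAlgebra := Subsingleton.elim _ _
  subst hiA
  have hfd : FiniteDimensional ℚ L := IsSplittingField.finiteDimensional L P
  have hnf : NumberField L := ⟨⟩
  have hgal : IsGalois ℚ L := IsGalois.of_separable_splitting_field hirrP.separable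
  have hspl := IsSplittingField.splits L P
  have hcard : (P.map (algebraMap ℚ L)).roots.card = 3 := by
    rw [← hspl.natDegree_eq_card_roots, natDegree_map, hdeg]
  obtain ⟨x₀, x₁, x₂, hx⟩ := Multiset.card_eq_three.1 hcard
  have hprod : P.map (algebraMap ℚ L) = (X - C x₀) * ((X - C x₁) * (X - C x₂)) := by
    have h1 := hspl.eq_prod_roots_of_monic (hmon.map _)
    rw [hx] at h1
    simpa using h1
  have hfac : ∀ y : L, y ^ 3 + a * y ^ 2 + b * y + c = (y - x₀) * ((y - x₁) * (y - x₂)) := by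
    intro y
    rw [← haev L, aeval_def, ← eval_map, hprod]
    simp
  have hnod := nodup_roots (hirrP.separable.map (f := algebraMap ℚ L))
  rw [hx] at hnod
  have hne : x₀ ≠ x₁ ∧ x₀ ≠ x₂ ∧ x₁ ≠ x₂ := by
    simp only [Multiset.insert_eq_cons, Multiset.nodup_cons, Multiset.mem_cons,
      Multiset.mem_singleton, Multiset.nodup_singleton, not_or, and_true] at hnod
    exact ⟨hnod.1.1, hnod.1.2, hnod.2⟩
  have h3 : Nat.Prime 3 := by norm_num
  have hdvd : 3 ∣ Nat.card (L ≃ₐ[ℚ] L) := by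
    rw [IsGalois.card_aut_eq_finrank]
    have h0 : aeval x₀ P = 0 := by
      rw [haev L, hfac]
      simp
    have h1 : minpoly ℚ x₀ = P := (minpoly.eq_of_irreducible_of_monic hirrP h0 hmon).symm
    have h2 := IntermediateField.adjoin.finrank (IsIntegral.of_finite ℚ x₀)
    rw [h1, hdeg] at h2
    refine ⟨Module.finrank (IntermediateField.adjoin ℚ {x₀}) L, ?_⟩
    rw [← Module.finrank_mul_finrank ℚ (IntermediateField.adjoin ℚ {x₀}) L, h2]
  have : Fact (Nat.Prime 3) := ⟨h3⟩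
  refine ⟨L, iF, hnf, hgal, ![x₀, x₁, x₂], ?_, hfac, ?_, ?_⟩
  · intro i j hij
    obtain ⟨n1, n2, n3⟩ := hne
    fin_cases i <;> fin_cases j <;> simp at hij ⊢
    · exact n1 hij
    · exact n2 hij
    · exact n1 hij.symm
    · exact n3 hij
    · exact n2 hij.symm
    · exact n3 hij.symm
  · intro τ hτ
    have h1 : (τ : L →ₐ[ℚ] L) = AlgHom.id ℚ L := by
      refine AlgHom.ext_of_adjoin_eq_top (IsSplittingField.adjoin_rootSet L P) ?_
      intro y hy
      have h6 : y ^ 3 + a * y ^ 2 + b * y + c = 0 := by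
        rw [← haev L]
        exact (mem_rootSet.1 hy).2
      rw [hfac] at h6
      change τ y = y
      rcases mul_eq_zero.1 h6 with h | h
      · rw [sub_eq_zero.1 h]
        exact hτ 0
      · rcases mul_eq_zero.1 h with h | h
        · rw [sub_eq_zero.1 h]
          exact hτ 1
        · rw [sub_eq_zero.1 h]
          exact hτ 2
    ext y
    exact congrArg (fun g : L →ₐ[ℚ] L => g y) h1
  · obtain ⟨σ, hσ⟩ := exists_prime_orderOf_dvd_card' 3 hdvd
    refine ⟨σ, ?_, ?_⟩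
    · rw [← hσ]
      exact pow_orderOf_eq_one σ
    · intro h
      rw [h, orderOf_one] at hσ
      norm_num at hσ

/-- The three zeros and an abelian extension which permutes them cyclically. -/
private theorem exists_setup (hirr : ∀ x : ℚ, x ^ 3 + a * x ^ 2 + b * x + c ≠ 0) :
    ∃ (k L : Type) (_ : Field k) (_ : NumberField k) (_ : Field L) (_ : NumberField L)
      (_ : Algebra k L) (_ : IsAbelianGalois k L) (r : Fin 3 → 𝓞 L),
      (a : 𝓞 L) = -(r 0 + r 1 + r 2) ∧ (b : 𝓞 L) = r 0 * r 1 + r 0 * r 2 + r 1 * r 2 ∧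
      (c : 𝓞 L) = -(r 0 * r 1 * r 2) ∧ Function.Injective r ∧ (∃ φ : Gal(L/k), φ ≠ 1) ∧
      ∀ φ : Gal(L/k), φ ≠ 1 → ∀ i, ∃ j, j ≠ i ∧ φ • r i = r j := by
  obtain ⟨L, _, _, _, x, hxinj, hfac, hext, σ, hσ3, hσ1⟩ := exists_split hirr
  have hroot : ∀ i, x i ^ 3 + a * x i ^ 2 + b * x i + c = 0 := by
    intro i
    rw [hfac]
    fin_cases i <;> simp
  have hex : ∀ y : L, y ^ 3 + a * y ^ 2 + b * y + c = 0 → ∃ j, y = x j := by
    intro y hy
    rw [hfac] at hy
    rcases mul_eq_zero.1 hy with h | h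
    · exact ⟨0, sub_eq_zero.1 h⟩
    · rcases mul_eq_zero.1 h with h | h
      · exact ⟨1, sub_eq_zero.1 h⟩
      · exact ⟨2, sub_eq_zero.1 h⟩
  have hint : ∀ i, IsIntegral ℤ (x i) := by
    intro i
    refine ⟨Polynomial.X ^ 3 + (Polynomial.C a * Polynomial.X ^ 2 + Polynomial.C b * Polynomial.X
      + Polynomial.C c), ?_, ?_⟩
    · monicity!
    · simp only [Polynomial.eval₂_add, Polynomial.eval₂_pow, Polynomial.eval₂_X,
        Polynomial.eval₂_mul, Polynomial.eval₂_C, algebraMap_int_eq, Int.coe_castRingHom]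
      rw [← hroot i]
      ring
  -- elements which are killed by three
  have hfree : ∀ τ : L ≃ₐ[ℚ] L, τ ^ 3 = 1 → τ ≠ 1 → ∀ i, ∃ j, j ≠ i ∧ τ (x i) = x j := by
    intro τ hτ hτ1 i
    have h1 : ∀ i, ∃ j, τ (x i) = x j := by
      intro i
      refine hex _ ?_
      have h2 := congrArg τ (hroot i)
      simpa using h2
    choose π hπ using h1
    refine ⟨π i, ?_, hπ i⟩
    intro hi
    have h2 : ∀ i, π (π (π i)) = i := by
      intro i
      apply hxinj
      rw [← hπ, ← hπ, ← hπ]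
      have h4 := congrArg (fun g : L ≃ₐ[ℚ] L => g (x i)) hτ
      exact h4
    have h5 := fin3 π h2 i hi
    exact hτ1 (hext τ fun j => by rw [hπ, h5])
  set H : Subgroup (L ≃ₐ[ℚ] L) := Subgroup.zpowers (σ : L ≃ₐ[ℚ] L) with hH
  have hmem : ∀ φ : Gal(L/IntermediateField.fixedField H), (φ.restrictScalars ℚ) ∈ H := by
    intro φ
    have h1 : φ.restrictScalars ℚ ∈ (IntermediateField.fixedField H).fixingSubgroup := by
      rw [IntermediateField.mem_fixingSubgroup_iff]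
      intro y hy
      exact φ.commutes ⟨y, hy⟩
    exact (IntermediateField.fixingSubgroup_fixedField H).le h1
  have hab : IsAbelianGalois (IntermediateField.fixedField H) L := by
    refine { toIsGalois := inferInstance, toIsMulCommutative := ⟨⟨fun φ ψ => ?_⟩⟩ }
    obtain ⟨n, hn⟩ := hmem φ
    obtain ⟨m, hm⟩ := hmem ψ
    have h1 : φ.restrictScalars ℚ * ψ.restrictScalars ℚ =
        ψ.restrictScalars ℚ * φ.restrictScalars ℚ := by
      rw [← hn, ← hm]
      exact ((Commute.refl _).zpow_zpow n m).eq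
    ext y
    exact congrArg (fun g : L ≃ₐ[ℚ] L => g y) h1
  have h0 := hfac 0
  have h1 := hfac 1
  have h2 := hfac (-1)
  have hL0 : (a : L) = -(x 0 + x 1 + x 2) ∧ (b : L) = x 0 * x 1 + x 0 * x 2 + x 1 * x 2 ∧
      (c : L) = -(x 0 * x 1 * x 2) := by
    refine ⟨?_, ?_, ?_⟩
    · linear_combination (1 / 2) * h1 + (1 / 2) * h2 - h0
    · linear_combination (1 / 2) * h1 - (1 / 2) * h2
    · linear_combination h0
  refine ⟨IntermediateField.fixedField H, L, inferInstance, inferInstance, inferInstance,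
    inferInstance, inferInstance, hab, fun i => ⟨x i, hint i⟩, ?_, ?_, ?_, ?_, ?_, ?_⟩
  · apply RingOfIntegers.ext
    simp only [map_neg, map_add, map_intCast]
    exact hL0.1
  · apply RingOfIntegers.ext
    simp only [map_mul, map_add, map_intCast]
    exact hL0.2.1
  · apply RingOfIntegers.ext
    simp only [map_neg, map_mul, map_intCast]
    exact hL0.2.2
  · intro i j hij
    exact hxinj (congrArg (algebraMap (𝓞 L) L) hij)
  · have hfix : ∀ y : IntermediateField.fixedField H, σ (y : L) = y := fun y =>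
      y.2 ⟨σ, Subgroup.mem_zpowers σ⟩
    refine ⟨AlgEquiv.ofRingEquiv (f := σ.toRingEquiv) hfix, fun h => hσ1 ?_⟩
    refine AlgEquiv.ext fun y => ?_
    exact congrArg (fun g : Gal(L/IntermediateField.fixedField H) => g y) h
  · intro φ hφ i
    have h4 : (φ.restrictScalars ℚ) ^ 3 = 1 := by
      obtain ⟨n, hn⟩ := hmem φ
      rw [← hn]
      change (σ ^ n) ^ 3 = 1
      rw [← zpow_natCast, ← zpow_mul, mul_comm, zpow_mul, zpow_natCast, hσ3, one_zpow]
    have h5 : φ.restrictScalars ℚ ≠ 1 := by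
      intro h
      apply hφ
      ext y
      exact congrArg (fun g : L ≃ₐ[ℚ] L => g y) h
    obtain ⟨j, hj, hij⟩ := hfree _ h4 h5 i
    refine ⟨j, hj, ?_⟩
    apply RingOfIntegers.ext
    exact hij

/-- A cubic polynomial without rational zeros has no zero modulo infinitely many primes. -/
theorem silent_infinite (hirr : ∀ x : ℚ, x ^ 3 + a * x ^ 2 + b * x + c ≠ 0) :
    {p : ℕ | p.Prime ∧ Silent a b c p}.Infinite := by
  intro hfin
  obtain ⟨k, L, _, _, _, _, _, _, r, ha, hb, hc, hr, ⟨ψ, hψ⟩, hmove⟩ := exists_setup hirr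
  have hdL : ((dsc a b c : ℤ) : 𝓞 L) ≠ 0 := by
    rw [dsc_eq ha hb hc]
    have n1 : r 0 - r 1 ≠ 0 := sub_ne_zero.2 fun h => absurd (hr h) (by decide)
    have n2 : r 0 - r 2 ≠ 0 := sub_ne_zero.2 fun h => absurd (hr h) (by decide)
    have n3 : r 1 - r 2 ≠ 0 := sub_ne_zero.2 fun h => absurd (hr h) (by decide)
    exact pow_ne_zero 2 (mul_ne_zero (mul_ne_zero n1 n2) n3)
  have hd : ((dsc a b c : ℤ) : 𝓞 k) ≠ 0 := by
    intro h
    apply hdL
    have h1 := congrArg (algebraMap (𝓞 k) (𝓞 L)) h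
    simpa using h1
  obtain ⟨m, hm0, hur, hm⟩ := exists_mod k L hd
  have hU : (⊥ : Subgroup Gal(L/k)) ≠ ⊤ := by
    intro h
    apply hψ
    have h1 : ψ ∈ (⊥ : Subgroup Gal(L/k)) := by
      rw [h]
      exact Subgroup.mem_top ψ
    exact Subgroup.mem_bot.1 h1
  obtain ⟨q, hq, hq0, hmq, hφ, hp, hpT⟩ := exists_deg_one hm0 hur hU hfin.toFinset
  obtain ⟨φ, hφf⟩ := exists_isFrobU (M := L) hq hq0
  apply hpT
  rw [Set.Finite.mem_toFinset]
  refine ⟨hp, fun p' hp' hdvd y hy => ?_⟩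
  have h1 : p' = Ideal.absNorm q :=
    (Nat.prime_dvd_prime_iff_eq hp' hp).1 (by exact_mod_cast hdvd)
  subst h1
  have hφ1 : φ ≠ 1 := fun h => hφ φ hφf (by rw [h]; exact Subgroup.one_mem _)
  exact hmq (hm q (disc_mem ha hb hc hφf (hmove φ hφ1) hp hy))

end Pool.Agent.ZCS
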