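import Pool.Agent.ZCS.Ideal

/-!
# Units and ideal classes

`unit_sq`: in a cubic field of unit rank one, one of `u`, `u'`, `u u'` is a square if `u` and `u'` are units of norm one.
`exists_unit`: an element whose ideal is a square is a unit times a square if the class number is odd. `rank_one`: cubic
fields of negative discriminant have unit rank one.
-/

set_option autoImplicit false

noncomputable section

namespace Pool.Agent.ZCS

open WeierstrassCurve NumberField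
open scoped Classical

variable {K : Type} [Field K] [NumberField K]

/-- the norm of units -/
private def Nu : (𝓞 K)ˣ →* ℤˣ := Units.map (Algebra.norm ℤ)

private theorem Nu_neg_one (h3 : Module.finrank ℚ K = 3) : Nu (-1 : (𝓞 K)ˣ) = -1 := by
  ext
  change Algebra.norm ℤ (((-1 : (𝓞 K)ˣ)) : 𝓞 K) = _
  have h1 : (((-1 : (𝓞 K)ˣ)) : 𝓞 K) = algebraMap ℤ (𝓞 K) (-1) := by simp
  rw [h1, Algebra.norm_algebraMap, RingOfIntegers.rank, h3]
  norm_num

private theorem sq_of (h3 : Module.finrank ℚ K = 3) {ζ v : (𝓞 K)ˣ} (hζ : ζ = 1 ∨ ζ = -1)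
    (h : Nu (ζ * v ^ 2) = 1) : ζ * v ^ 2 = v ^ 2 := by
  rcases hζ with rfl | rfl
  · exact one_mul _
  · exfalso
    rw [map_mul, map_pow, Int.units_sq, mul_one, Nu_neg_one h3] at h
    exact absurd h (by decide)

/-- In a cubic field of unit rank one, one of `u`, `u'`, `u u'` is a square if `u`, `u'` have norm one. -/
theorem unit_sq (h3 : Module.finrank ℚ K = 3) (hr : Units.rank K = 1) (u u' : (𝓞 K)ˣ)
    (hu : Algebra.norm ℤ (u : 𝓞 K) = 1) (hu' : Algebra.norm ℤ (u' : 𝓞 K) = 1) :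
    (∃ v : (𝓞 K)ˣ, u = v ^ 2) ∨ (∃ v : (𝓞 K)ˣ, u' = v ^ 2) ∨ ∃ v : (𝓞 K)ˣ, u * u' = v ^ 2 := by
  have hNu : Nu u = 1 := by
    ext
    exact hu
  have hNu' : Nu u' = 1 := by
    ext
    exact hu'
  have hodd : Odd (Module.finrank ℚ K) := by
    rw [h3]
    decide
  set ε : (𝓞 K)ˣ := Units.fundSystem K ⟨0, by rw [hr]; exact one_pos⟩ with hε
  have key : ∀ u : (𝓞 K)ˣ, ∃ (ζ : (𝓞 K)ˣ) (n : ℤ), (ζ = 1 ∨ ζ = -1) ∧ u = ζ * ε ^ n := by
    intro u
    obtain ⟨⟨ζ, n⟩, h1, -⟩ := Units.exist_unique_eq_mul_prod K u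
    refine ⟨ζ, n ⟨0, by rw [hr]; exact one_pos⟩, Units.torsion_eq_one_or_neg_one_of_odd_finrank
      hodd ζ, ?_⟩
    rw [h1]
    congr 1
    refine Finset.prod_eq_single _ (fun i _ hi => ?_) fun h => absurd (Finset.mem_univ _) h
    exfalso
    apply hi
    ext
    have h5 : (i : ℕ) < Units.rank K := i.2
    change (i : ℕ) = 0
    omega
  obtain ⟨ζ, n, hζ, e⟩ := key u
  obtain ⟨ζ', n', hζ', e'⟩ := key u'
  rcases Int.even_or_odd n with ⟨t, ht⟩ | ⟨t, ht⟩
  · left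
    refine ⟨ε ^ t, ?_⟩
    have h1 : u = ζ * (ε ^ t) ^ 2 := by
      rw [e, ht, ← zpow_natCast, ← zpow_mul]
      congr 2
      push_cast
      ring
    rw [h1] at hNu ⊢
    exact sq_of h3 hζ hNu
  · rcases Int.even_or_odd n' with ⟨t', ht'⟩ | ⟨t', ht'⟩
    · right
      left
      refine ⟨ε ^ t', ?_⟩
      have h1 : u' = ζ' * (ε ^ t') ^ 2 := by
        rw [e', ht', ← zpow_natCast, ← zpow_mul]
        congr 2
        push_cast
        ring
      rw [h1] at hNu' ⊢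
      exact sq_of h3 hζ' hNu'
    · right
      right
      refine ⟨ε ^ (t + t' + 1), ?_⟩
      have h1 : u * u' = (ζ * ζ') * (ε ^ (t + t' + 1)) ^ 2 := by
        rw [e, e', ht, ht', ← zpow_natCast, ← zpow_mul, mul_mul_mul_comm, ← zpow_add]
        congr 2
        push_cast
        ring
      have h2 : Nu (u * u') = 1 := by rw [map_mul, hNu, hNu', one_mul]
      rw [h1] at h2 ⊢
      refine sq_of h3 ?_ h2
      rcases hζ with rfl | rfl <;> rcases hζ' with rfl | rfl <;> simp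

/-- An element whose ideal is a square is a unit times a square if the class number is odd. -/
theorem exists_unit {α : 𝓞 K} {𝔟 : Ideal (𝓞 K)} (hα : α ≠ 0) (h : Ideal.span {α} = 𝔟 ^ 2)
    (hodd : Odd (classNumber K)) : ∃ (u : (𝓞 K)ˣ) (γ : 𝓞 K), α = u * γ ^ 2 := by
  have hb : 𝔟 ≠ ⊥ := by
    rintro rfl
    rw [← Ideal.zero_eq_bot, zero_pow two_ne_zero, Ideal.zero_eq_bot,
      Ideal.span_singleton_eq_bot] at h
    exact hα h
  set b0 : nonZeroDivisors (Ideal (𝓞 K)) := ⟨𝔟, mem_nonZeroDivisors_of_ne_zero hb⟩ with hb0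
  have h1 : ClassGroup.mk0 b0 ^ 2 = 1 := by
    have hα' : Ideal.span {α} ∈ nonZeroDivisors (Ideal (𝓞 K)) :=
      mem_nonZeroDivisors_of_ne_zero (by
        rw [Ne, Ideal.zero_eq_bot, Ideal.span_singleton_eq_bot]
        exact hα)
    have h2 : b0 ^ 2 = ⟨Ideal.span {α}, hα'⟩ := Subtype.ext h.symm
    rw [← map_pow, h2, ClassGroup.mk0_eq_one_iff hα']
    exact ⟨⟨α, rfl⟩⟩
  have h2 : ClassGroup.mk0 b0 = 1 := by
    have h3 : orderOf (ClassGroup.mk0 b0) ∣ 2 := orderOf_dvd_of_pow_eq_one h1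
    have h4 : orderOf (ClassGroup.mk0 b0) ∣ classNumber K := orderOf_dvd_card
    have h5 : orderOf (ClassGroup.mk0 b0) ∣ 1 := by
      have h6 := Nat.dvd_gcd h3 h4
      rwa [(Nat.coprime_two_left.2 hodd : Nat.gcd 2 (classNumber K) = 1)] at h6
    exact orderOf_eq_one_iff.1 (Nat.dvd_one.1 h5)
  obtain ⟨γ, hγ⟩ := ((ClassGroup.mk0_eq_one_iff b0.2).1 h2).principal
  have hγ' : 𝔟 = Ideal.span {γ} := hγ
  rw [hγ', Ideal.span_singleton_pow, Ideal.span_singleton_eq_span_singleton] at h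
  obtain ⟨u, hu⟩ := h.symm
  exact ⟨u, γ, by rw [← hu, mul_comm]⟩

variable {W : WeierstrassCurve ℚ} {θ : K}

theorem Cub.finrank (h : Cub W θ) : Module.finrank ℚ K = 3 := by
  rw [Module.finrank_eq_card_basis h.basis, Fintype.card_fin]

open Polynomial in
/-- The minimal polynomial of `θ`. -/
theorem Cub.minpoly (h : Cub W θ) :
    minpoly ℚ θ = X ^ 3 + C W.a₂ * X ^ 2 + C W.a₄ * X + C W.a₆ := by
  symm
  have hdeg : (X ^ 3 + C W.a₂ * X ^ 2 + C W.a₄ * X + C W.a₆ : ℚ[X]).natDegree = 3 := by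
    compute_degree!
  have hm : (X ^ 3 + C W.a₂ * X ^ 2 + C W.a₄ * X + C W.a₆ : ℚ[X]).Monic := by
    monicity!
  refine _root_.minpoly.unique ℚ θ hm ?_ fun q hq hq0 => ?_
  · simp only [map_add, map_mul, map_pow, aeval_X, aeval_C]
    exact h.root
  · rw [Polynomial.degree_eq_natDegree hm.ne_zero, Polynomial.degree_eq_natDegree hq.ne_zero, hdeg]
    by_contra hlt
    push Not at hlt
    have hlt' : q.natDegree < 3 := by exact_mod_cast hlt
    have hq2 : q = C (q.coeff 2) * X ^ 2 + C (q.coeff 1) * X + C (q.coeff 0) :=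
      Polynomial.eq_quadratic_of_degree_le_two (Polynomial.degree_le_natDegree.trans
        (by exact_mod_cast (by omega : q.natDegree ≤ 2)))
    have h1 : ((q.coeff 0 : ℚ) : K) + (q.coeff 1 : ℚ) * θ + (q.coeff 2 : ℚ) * θ ^ 2 = 0 := by
      rw [hq2] at hq0
      simp only [map_add, map_mul, map_pow, aeval_X, aeval_C] at hq0
      have h2 : ∀ r : ℚ, algebraMap ℚ K r = (r : K) := fun r => rfl
      rw [h2, h2, h2] at hq0
      linear_combination hq0
    obtain ⟨e0, e1, e2⟩ := h.li _ _ _ h1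
    rw [e0, e1, e2] at hq2
    apply hq.ne_zero
    rw [hq2]
    simp

/-- Cubic fields of negative discriminant have unit rank one. -/
theorem rank_one (h : Cub W θ)
    (hD : W.a₂ ^ 2 * W.a₄ ^ 2 - 4 * W.a₄ ^ 3 - 4 * W.a₂ ^ 3 * W.a₆ - 27 * W.a₆ ^ 2 +
        18 * W.a₂ * W.a₄ * W.a₆ < 0) : Units.rank K = 1 := by
  have h3 := h.finrank
  have hodd : Odd (Module.finrank ℚ K) := by
    rw [h3]
    decide
  have hreal := InfinitePlace.nrRealPlaces_pos_of_odd_finrank hodd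
  obtain ⟨w⟩ : Nonempty {w : InfinitePlace K // InfinitePlace.IsReal w} :=
    Fintype.card_pos_iff.1 hreal
  set φ₀ : K →+* ℝ := InfinitePlace.embedding_of_isReal w.2 with hφ₀
  set r : ℝ := φ₀ θ with hr
  have hroot : r ^ 3 + W.a₂ * r ^ 2 + W.a₄ * r + W.a₆ = 0 := by
    have h4 := congrArg φ₀ h.root
    simpa using h4
  set p : ℝ := r + W.a₂ with hp
  set q : ℝ := r ^ 2 + W.a₂ * r + W.a₄ with hq
  have hD' : ((W.a₂ ^ 2 * W.a₄ ^ 2 - 4 * W.a₄ ^ 3 - 4 * W.a₂ ^ 3 * W.a₆ - 27 * W.a₆ ^ 2 +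
        18 * W.a₂ * W.a₄ * W.a₆ : ℚ) : ℝ) < 0 := by exact_mod_cast hD
  have hneg : p ^ 2 - 4 * q < 0 := by
    by_contra hle
    push Not at hle
    have h5 : ((W.a₂ ^ 2 * W.a₄ ^ 2 - 4 * W.a₄ ^ 3 - 4 * W.a₂ ^ 3 * W.a₆ - 27 * W.a₆ ^ 2 +
        18 * W.a₂ * W.a₄ * W.a₆ : ℚ) : ℝ) = (p ^ 2 - 4 * q) * (r ^ 2 + p * r + q) ^ 2 := by
      have h6 : (W.a₆ : ℝ) = -(r ^ 3 + W.a₂ * r ^ 2 + W.a₄ * r) := by linear_combination hroot
      push_cast
      rw [h6, hp, hq]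
      ring
    rw [h5] at hD'
    exact absurd (mul_nonneg hle (sq_nonneg _)) (not_le.2 hD')
  set s : ℝ := Real.sqrt (4 * q - p ^ 2) with hs
  have hs2 : s ^ 2 = 4 * q - p ^ 2 := Real.sq_sqrt (by linarith)
  have hs0 : s ≠ 0 := by
    intro e
    rw [e] at hs2
    linarith
  set l : ℂ := (-(p : ℂ) + s * Complex.I) / 2 with hl
  have hs2' : (s : ℂ) ^ 2 = 4 * q - p ^ 2 := by exact_mod_cast congrArg (fun x : ℝ => (x : ℂ)) hs2
  have hlq : l ^ 2 + p * l + q = 0 := by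
    rw [hl]
    linear_combination (1 / 4 * (s : ℂ) ^ 2) * Complex.I_sq - 1 / 4 * hs2'
  have hl3 : l ^ 3 + (W.a₂ : ℂ) * l ^ 2 + (W.a₄ : ℂ) * l + (W.a₆ : ℂ) = 0 := by
    have h6 : (W.a₆ : ℂ) = -((r : ℂ) ^ 3 + W.a₂ * (r : ℂ) ^ 2 + W.a₄ * r) := by
      have h7 : (W.a₆ : ℝ) = -(r ^ 3 + W.a₂ * r ^ 2 + W.a₄ * r) := by linear_combination hroot
      have h8 := congrArg (fun x : ℝ => (x : ℂ)) h7
      push_cast at h8
      exact h8
    have hp' : (p : ℂ) = r + W.a₂ := by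
      rw [hp]
      push_cast
      ring
    have hq' : (q : ℂ) = (r : ℂ) ^ 2 + W.a₂ * r + W.a₄ := by
      rw [hq]
      push_cast
      ring
    rw [hp', hq'] at hlq
    rw [h6]
    linear_combination (l - r) * hlq
  obtain ⟨φ, hφ⟩ : ∃ φ : K →+* ℂ, φ θ = l := by
    have h8 : l ∈ (_root_.minpoly ℚ θ).rootSet ℂ := by
      rw [Polynomial.mem_rootSet]
      refine ⟨minpoly.ne_zero (Algebra.IsIntegral.isIntegral θ), ?_⟩
      rw [h.minpoly]
      simp only [map_add, map_mul, map_pow, Polynomial.aeval_X, Polynomial.aeval_C]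
      exact hl3
    rw [← NumberField.Embeddings.range_eval_eq_rootSet_minpoly K ℂ θ] at h8
    exact h8
  have hnr : ¬ ComplexEmbedding.IsReal φ := by
    intro hre
    have h9 : (starRingEnd ℂ) (φ θ) = φ θ := by
      have h10 := RingHom.congr_fun (ComplexEmbedding.isReal_iff.1 hre) θ
      exact h10
    rw [hφ] at h9
    have h11 := Complex.conj_eq_iff_im.1 h9
    rw [hl] at h11
    simp at h11
    exact hs0 h11
  have hc : 0 < InfinitePlace.nrComplexPlaces K := by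
    refine Fintype.card_pos_iff.2 ⟨⟨InfinitePlace.mk φ, InfinitePlace.isComplex_mk_iff.2 hnr⟩⟩
  have h12 := InfinitePlace.card_add_two_mul_card_eq_rank K
  have h13 := InfinitePlace.card_eq_nrRealPlaces_add_nrComplexPlaces K
  rw [h3] at h12
  rw [Units.rank]
  omega

end Pool.Agent.ZCS
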